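import Pool.Agent.Lib.Helper86.StableBuilding.Cochain

/-!
# The two cochains, and their coboundaries
-/

set_option autoImplicit false

namespace Pool.Agent.Lib.Helper86.StableBuilding

noncomputable section

universe u v

section general

variable {R : Type u} [CommRing R] {M : Type v} [AddCommGroup M] [Module R M] {k : ℕ}
  {p : Fin k → ℕ}

open Classical in
/-- The cochain of a function `h` of one line. -/
def alphaOne (h : Submodule R M → ℝ) (p : Fin k → ℕ) (φ : Grid p →o Summand R M) : ℝ :=
  ∑ i, if p = mdOne i then (-1 : ℝ) ^ i.val * h (ev φ (Function.update p i 1)) else 0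

open Classical in
/-- The cochain of a function `f` of two lines. -/
def alphaTwo (f : Submodule R M → Submodule R M → ℝ) (p : Fin k → ℕ)
    (φ : Grid p →o Summand R M) : ℝ :=
  ∑ i, ∑ j, if i < j ∧ p = mdTwo i j then (-1 : ℝ) ^ (i.val + j.val) *
    f (ev φ (Function.update p i 1)) (ev φ (Function.update p j 1)) else 0

theorem alphaOne_eq (h : Submodule R M → ℝ) (φ : Grid p →o Summand R M) {i : Fin k}
    (hp : p = mdOne i) :
    alphaOne h p φ = (-1 : ℝ) ^ i.val * h (ev φ (Function.update p i 1)) := by
  rw [alphaOne, Finset.sum_eq_single i, if_pos hp]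
  · intro j _ hj
    rw [if_neg]
    intro h'
    exact hj (mdOne_injective (h'.symm.trans hp))
  · intro h'
    exact absurd (Finset.mem_univ _) h'

theorem alphaOne_eq_zero (h : Submodule R M → ℝ) (φ : Grid p →o Summand R M)
    (hp : ∀ i, p ≠ mdOne i) : alphaOne h p φ = 0 :=
  Finset.sum_eq_zero fun i _ => if_neg (hp i)

theorem alphaTwo_eq (f : Submodule R M → Submodule R M → ℝ) (φ : Grid p →o Summand R M)
    {i j : Fin k} (hij : i < j) (hp : p = mdTwo i j) :
    alphaTwo f p φ = (-1 : ℝ) ^ (i.val + j.val) *
      f (ev φ (Function.update p i 1)) (ev φ (Function.update p j 1)) := by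
  rw [alphaTwo, Finset.sum_eq_single i, Finset.sum_eq_single j, if_pos ⟨hij, hp⟩]
  · intro j' _ hj
    rw [if_neg]
    rintro ⟨h1, h2⟩
    exact hj (mdTwo_injective h1 hij (h2.symm.trans hp)).2
  · intro h'
    exact absurd (Finset.mem_univ _) h'
  · intro i' _ hi
    apply Finset.sum_eq_zero
    intro j' _
    rw [if_neg]
    rintro ⟨h1, h2⟩
    exact hi (mdTwo_injective h1 hij (h2.symm.trans hp)).1
  · intro h'
    exact absurd (Finset.mem_univ _) h'

theorem alphaTwo_eq_zero (f : Submodule R M → Submodule R M → ℝ) (φ : Grid p →o Summand R M)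
    (hp : ∀ i j, i < j → p ≠ mdTwo i j) : alphaTwo f p φ = 0 :=
  Finset.sum_eq_zero fun i _ => Finset.sum_eq_zero fun j _ => if_neg fun h => hp i j h.1 h.2

theorem alphaTwo_eq_of_ne (f : Submodule R M → Submodule R M → ℝ)
    (hf : ∀ P Q, f Q P = -f P Q) (φ : Grid p →o Summand R M)
    {i j : Fin k} (hij : i ≠ j) (hp : p = mdTwo i j) :
    alphaTwo f p φ = (if i < j then 1 else -1) * ((-1 : ℝ) ^ (i.val + j.val) *
      f (ev φ (Function.update p i 1)) (ev φ (Function.update p j 1))) := by
  rcases lt_or_gt_of_ne hij with h | h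
  · rw [alphaTwo_eq f φ h hp, if_pos h, one_mul]
  · have hp' : p = mdTwo j i := by
      rw [hp]
      funext l
      simp only [mdTwo]
      omega
    rw [alphaTwo_eq f φ h hp', if_neg (not_lt.2 h.le), add_comm j.val i.val,
      hf (ev φ (Function.update p i 1)) (ev φ (Function.update p j 1))]
    ring

end general

section rankTwo

variable {R : Type u} [CommRing R] [IsDomain R] {k : ℕ} {p : Fin k → ℕ}

theorem isLine_of_ev {φ : Grid p →o Summand R (Fin 2 → R)} {a : Fin k → ℕ}
    (h1 : ev φ a ≠ ⊥) (h2 : ev φ a ≠ ⊤) : IsLine (ev φ a) := by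
  refine ⟨?_, h1, h2⟩
  by_cases h : a ≤ p
  · rw [ev_of_le φ h]
    exact (φ ⟨a, h⟩).2
  · exact absurd (dif_neg h) h1

open Classical in
/-- The coboundary of a function of a line. -/
def deltaOne (h : Submodule R (Fin 2 → R) → ℝ) (P Q : Submodule R (Fin 2 → R)) : ℝ :=
  if IsCompl P Q ∧ P ≠ ⊥ ∧ Q ≠ ⊥ then h Q - h P else 0

theorem deltaOne_pos (h : Submodule R (Fin 2 → R) → ℝ) {P Q : Submodule R (Fin 2 → R)}
    (h1 : IsCompl P Q ∧ P ≠ ⊥ ∧ Q ≠ ⊥) : deltaOne h P Q = h Q - h P := if_pos h1

theorem deltaOne_neg (h : Submodule R (Fin 2 → R) → ℝ) {P Q : Submodule R (Fin 2 → R)}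
    (h1 : ¬ (IsCompl P Q ∧ P ≠ ⊥ ∧ Q ≠ ⊥)) : deltaOne h P Q = 0 := if_neg h1

/-- `α₁(h) ∘ ∂ = -α₂(δh)`. -/
theorem cochain_alphaOne_bdry (h : Submodule R (Fin 2 → R) → ℝ) (h0 : h ⊥ = 0) (h1 : h ⊤ = 0)
    (s : FullLattice R (Fin 2 → R) k) (hs : ∑ i, s.p i = 2 + k) :
    cochain (alphaOne h) (bdrySimplex s) = -alphaTwo (deltaOne h) s.p s.φ := by
  obtain ⟨p, φ, hL, hF⟩ := s
  change ∑ i, p i = 2 + k at hs
  change cochain (alphaOne h) (bdrySimplex ⟨p, φ, hL, hF⟩) = -alphaTwo (deltaOne h) p φ
  have hbt : (⊥ : Submodule R (Fin 2 → R)) ≠ ⊤ := bot_ne_top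
  have hp : ∀ i, 1 ≤ p i := full_pos hF
  rw [cochain_bdrySimplex (alphaOne h) φ ⟨hL, hF⟩ hp]
  obtain ⟨i, j, hij, hpij⟩ := md_classify_two hp hs
  rcases hij.eq_or_lt with rfl | hij
  · -- `p_i = 3`
    have hpi : p i = 3 := by rw [hpij]; simp [mdTwo]
    rw [alphaTwo_eq_zero, neg_zero]
    · apply Finset.sum_eq_zero
      intro l _
      by_cases hl : l = i
      · subst hl
        have hmd : Function.update p l (p l - 1) = mdOne l := by
          funext r
          by_cases hr : r = l
          · subst hr; rw [Function.update_self, hpi]; simp [mdOne]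
          · rw [Function.update_of_ne hr, hpij]; simp [mdOne, mdTwo, hr]
        have hval : ∀ m < 4, alphaOne h (Function.update p l (p l - 1))
            (φ.comp (coface p l (hp l) m)) =
            (fun m => (-1 : ℝ) ^ l.val * h (ev φ (Function.update p l
              (if 1 < m then 1 else 2)))) m := by
          intro m _
          rw [alphaOne_eq h _ hmd, ev_face_self φ l (hp l) m (by omega)]
        rw [cochain_dirBdry_three (alphaOne h) hL hF l (hp l) hpi _ hval]
        beta_reduce
        rw [if_neg (show ¬ 1 < 0 by norm_num), if_neg (show ¬ 1 < 1 by norm_num),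
          if_pos (show 1 < 2 by norm_num), if_pos (show 1 < 3 by norm_num)]
        set P1 := ev φ (Function.update p l 1) with hP1
        set P2 := ev φ (Function.update p l 2) with hP2
        have hle : P1 ≤ P2 := by
          rw [hP1, hP2]
          apply ev_mono
          · intro r
            by_cases hr : r = l
            · subst hr; rw [Function.update_self, Function.update_self]; norm_num
            · rw [Function.update_of_ne hr, Function.update_of_ne hr]
          · exact update_le (by omega)
        rw [mul_eq_zero]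
        right
        by_cases e1 : P1 = ⊥
        · have e2 : (⊥ : Submodule R (Fin 2 → R)) ≠ ⊤ := hbt
          by_cases e3 : P2 = ⊤
          · simp [e1, e3, h0, h1]
          · simp [e1, e3, h0]
        · by_cases e3 : P2 = ⊤
          · simp [e1, e3, h1]
          · have e4 : P1 ≠ ⊤ := fun e4 => e3 (top_le_iff.1 (e4 ▸ hle))
            have e5 : P2 ≠ ⊥ := fun e5 => e1 (le_bot_iff.1 (e5 ▸ hle))
            have e6 : P1 = P2 := (isLine_of_ev e1 e4).eq_of_le (isLine_of_ev e5 e3) hle
            simp [e6, e5, e3]
      · rw [cochain_dirBdry_zero (alphaOne h) hL l (hp l), mul_zero]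
        intro ψ
        apply alphaOne_eq_zero
        intro r hr
        have h2 := congrFun hr l
        have hpl : p l = 1 := by rw [hpij]; simp [mdTwo, hl]
        rw [Function.update_self, hpl] at h2
        simp [mdOne] at h2
        omega
    · intro i' j' hij' h2
      have h3 := congrFun h2 i
      rw [hpi] at h3
      simp only [mdTwo] at h3
      split_ifs at h3 with h4 h5 <;> omega
  · -- `p_i = p_j = 2`
    have hpi : p i = 2 := by rw [hpij]; simp [mdTwo, hij.ne]
    have hpj : p j = 2 := by rw [hpij]; simp [mdTwo, hij.ne']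
    set P := ev φ (Function.update p i 1) with hP
    set Q := ev φ (Function.update p j 1) with hQ
    have hsq : P ⊓ Q = ev φ (Function.update (Function.update p i 1) j 1) :=
      hL.square le_rfl hij.ne (hp i) (hp j)
    have hmdi : Function.update p i (p i - 1) = mdOne j := by
      funext r
      by_cases hr : r = i
      · subst hr; rw [Function.update_self, hpi]; simp [mdOne, hij.ne]
      · rw [Function.update_of_ne hr, hpij]; simp [mdOne, mdTwo, hr]
    have hmdj : Function.update p j (p j - 1) = mdOne i := by
      funext r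
      by_cases hr : r = j
      · subst hr; rw [Function.update_self, hpj]; simp [mdOne, hij.ne']
      · rw [Function.update_of_ne hr, hpij]; simp [mdOne, mdTwo, hr]
    have hDi : cochain (alphaOne h) (dirBdry φ i (hp i)) =
        if P ≠ ⊥ ∧ P ≠ ⊤ then -((-1 : ℝ) ^ j.val * h Q) else 0 := by
      apply cochain_dirBdry_two hbt (alphaOne h) hL hF i (hp i) hpi
      · intro m hm
        rw [alphaOne_eq h _ hmdi, ev_face_ne φ i (hp i) (by omega) hij.ne' (hp j)]
      · intro ht
        rw [alphaOne_eq h _ hmdi]
        have h2 := ev_face_last_ne φ i (hp i) hij.ne' (hp j)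
        have h3 : ev (φ.comp (coface p i (hp i) 2))
            (Function.update (Function.update p i (p i - 1)) j 1) = Q := by
          have h4 : ∀ m, m = p i → ev (φ.comp (coface p i (hp i) m))
            (Function.update (Function.update p i (p i - 1)) j 1) = Q := by
            rintro m rfl
            rw [h2, hpi, show 2 - 1 = 1 from rfl, ← hsq, hP, ht, top_inf_eq]
          exact h4 2 hpi.symm
        rw [h3]
    have hDj : cochain (alphaOne h) (dirBdry φ j (hp j)) =
        if Q ≠ ⊥ ∧ Q ≠ ⊤ then -((-1 : ℝ) ^ i.val * h P) else 0 := by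
      apply cochain_dirBdry_two hbt (alphaOne h) hL hF j (hp j) hpj
      · intro m hm
        rw [alphaOne_eq h _ hmdj, ev_face_ne φ j (hp j) (by omega) hij.ne (hp i)]
      · intro ht
        rw [alphaOne_eq h _ hmdj]
        have h2 := ev_face_last_ne φ j (hp j) hij.ne (hp i)
        have h3 : ev (φ.comp (coface p j (hp j) 2))
            (Function.update (Function.update p j (p j - 1)) i 1) = P := by
          have h4 : ∀ m, m = p j → ev (φ.comp (coface p j (hp j) m))
            (Function.update (Function.update p j (p j - 1)) i 1) = P := by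
            rintro m rfl
            rw [h2, hpj, show 2 - 1 = 1 from rfl, Function.update_comm hij.ne', ← hsq, hQ, ht,
              inf_top_eq]
          exact h4 2 hpj.symm
        rw [h3]
    rw [Finset.sum_eq_add i j hij.ne]
    · rw [hDi, hDj, alphaTwo_eq _ φ hij hpij, ← hP, ← hQ]
      have hei : (∑ l ∈ Finset.univ.filter (· < i), p l) = i.val := by
        rw [hpij, sum_filter_mdTwo, if_neg (lt_irrefl _), if_neg (not_lt.2 hij.le), add_zero,
          add_zero]
      have hej : (∑ l ∈ Finset.univ.filter (· < j), p l) = j.val + 1 := by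
        rw [hpij, sum_filter_mdTwo, if_neg (lt_irrefl _), if_pos hij]
      rw [hei, hej]
      by_cases e1 : P ≠ ⊥ ∧ P ≠ ⊤
      · by_cases e2 : Q ≠ ⊥ ∧ Q ≠ ⊤
        · by_cases e3 : P = Q
          · rw [deltaOne_neg, e3, if_pos e2, if_pos e2]
            · ring
            · rintro ⟨h2, h3, -⟩
              rw [e3] at h2 h3
              exact not_isCompl_self h3 h2
          · have hc : IsCompl P Q := (isLine_of_ev e1.1 e1.2).isCompl
              (isLine_of_ev e2.1 e2.2) e3
              (hL.square_sup le_rfl hij.ne (by omega) (by omega))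
            rw [deltaOne_pos h ⟨hc, e1.1, e2.1⟩, if_pos e1, if_pos e2]
            ring
        · rw [deltaOne_neg, if_pos e1, if_neg e2]
          · have hQ0 : h Q = 0 := by
              by_cases e4 : Q = ⊥
              · rw [e4, h0]
              · by_cases e5 : Q = ⊤
                · rw [e5, h1]
                · exact absurd ⟨e4, e5⟩ e2
            rw [hQ0]; ring
          · rintro ⟨h2, h3, h4⟩
            apply e2
            refine ⟨h4, ?_⟩
            intro h5
            apply h3
            have := h2.inf_eq_bot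
            rwa [h5, inf_top_eq] at this
      · rw [deltaOne_neg, if_neg e1]
        · by_cases e2 : Q ≠ ⊥ ∧ Q ≠ ⊤
          · have hP0 : h P = 0 := by
              by_cases e4 : P = ⊥
              · rw [e4, h0]
              · by_cases e5 : P = ⊤
                · rw [e5, h1]
                · exact absurd ⟨e4, e5⟩ e1
            rw [if_pos e2, hP0]; ring
          · rw [if_neg e2]; ring
        · rintro ⟨h2, h3, h4⟩
          apply e1
          refine ⟨h3, ?_⟩
          intro h5
          apply h4
          have := h2.inf_eq_bot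
          rwa [h5, top_inf_eq] at this
    · intro l _ hl
      rw [cochain_dirBdry_zero (alphaOne h) hL l (hp l), mul_zero]
      intro ψ
      apply alphaOne_eq_zero
      intro r hr
      have h2 := congrFun hr l
      have hpl : p l = 1 := by rw [hpij]; simp [mdTwo, hl.1, hl.2]
      rw [Function.update_self, hpl] at h2
      simp [mdOne] at h2
      omega
    · intro h'; exact absurd (Finset.mem_univ _) h'
    · intro h'; exact absurd (Finset.mem_univ _) h'

end rankTwo

end

end Pool.Agent.Lib.Helper86.StableBuilding
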