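import Pool.Agent.Lib.Helper86.StableBuilding.Closed

/-!
# The two-line cochain vanishes on boundaries
-/

set_option autoImplicit false

namespace Pool.Agent.Lib.Helper86.StableBuilding

noncomputable section

universe u v

variable {R : Type u} [CommRing R] [IsDomain R] {k : ℕ} {p : Fin k → ℕ}

/-- `f` vanishes except on pairs of complementary lines. -/
def OnCompl (f : Submodule R (Fin 2 → R) → Submodule R (Fin 2 → R) → ℝ) : Prop :=
  ∀ P Q, ¬ (IsCompl P Q ∧ P ≠ ⊥ ∧ Q ≠ ⊥) → f P Q = 0

omit [IsDomain R] in
theorem OnCompl.bot_left {f : Submodule R (Fin 2 → R) → Submodule R (Fin 2 → R) → ℝ}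
    (hf : OnCompl f) (Q : Submodule R (Fin 2 → R)) : f ⊥ Q = 0 :=
  hf _ _ fun h => h.2.1 rfl

omit [IsDomain R] in
theorem OnCompl.top_left {f : Submodule R (Fin 2 → R) → Submodule R (Fin 2 → R) → ℝ}
    (hf : OnCompl f) (Q : Submodule R (Fin 2 → R)) : f ⊤ Q = 0 :=
  hf _ _ fun h => h.2.2 (by simpa using h.1.inf_eq_bot)

omit [IsDomain R] in
theorem OnCompl.bot_right {f : Submodule R (Fin 2 → R) → Submodule R (Fin 2 → R) → ℝ}
    (hf : OnCompl f) (Q : Submodule R (Fin 2 → R)) : f Q ⊥ = 0 :=
  hf _ _ fun h => h.2.2 rfl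

omit [IsDomain R] in
theorem OnCompl.top_right {f : Submodule R (Fin 2 → R) → Submodule R (Fin 2 → R) → ℝ}
    (hf : OnCompl f) (Q : Submodule R (Fin 2 → R)) : f Q ⊤ = 0 :=
  hf _ _ fun h => h.2.1 (by simpa using h.1.inf_eq_bot)

theorem OnCompl.self {f : Submodule R (Fin 2 → R) → Submodule R (Fin 2 → R) → ℝ}
    (hf : OnCompl f) (Q : Submodule R (Fin 2 → R)) : f Q Q = 0 :=
  hf _ _ fun h => not_isCompl_self h.2.1 h.1

/-- The case of multidegree with a `3` and a `2`. -/
theorem cochain_alphaTwo_dir_three
    (f : Submodule R (Fin 2 → R) → Submodule R (Fin 2 → R) → ℝ) (hf0 : OnCompl f)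
    (hf : ∀ P Q, f Q P = -f P Q) {φ : Grid p →o Summand R (Fin 2 → R)} (hL : IsLattice φ)
    (hF : IsFull φ) (hp : ∀ i, 1 ≤ p i) {x y : Fin k} (hxy : x ≠ y)
    (hpx : p x = 3) (hpy : p y = 2) (hpl : ∀ l, l ≠ x → l ≠ y → p l = 1) :
    cochain (alphaTwo f) (dirBdry φ x (hp x)) = 0 := by
  have hmd : Function.update p x (p x - 1) = mdTwo x y := by
    funext r
    by_cases hr : r = x
    · subst hr; rw [Function.update_self, hpx]; simp [mdTwo, hxy]
    · rw [Function.update_of_ne hr]
      by_cases hr' : r = y
      · subst hr'; rw [hpy]; simp [mdTwo, hr]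
      · rw [hpl r hr hr']; simp [mdTwo, hr, hr']
  set P1 := ev φ (Function.update p x 1) with hP1
  set P2 := ev φ (Function.update p x 2) with hP2
  set Q := ev φ (Function.update p y 1) with hQ
  set Q' := ev φ (Function.update (Function.update p x 2) y 1) with hQ'
  have hsq : P2 ⊓ Q = Q' := hL.square le_rfl hxy (by omega) (hp y)
  have hle : P1 ≤ P2 := by
    rw [hP1, hP2]
    apply ev_mono
    · intro r
      by_cases hr : r = x
      · subst hr; rw [Function.update_self, Function.update_self]; norm_num
      · rw [Function.update_of_ne hr, Function.update_of_ne hr]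
    · exact update_le (by omega)
  set c : ℝ := (if x < y then 1 else -1) * (-1 : ℝ) ^ (x.val + y.val) with hc
  have hval : ∀ m < 4, alphaTwo f (Function.update p x (p x - 1))
      (φ.comp (coface p x (hp x) m)) =
      (fun m => c * f (if 1 < m then P1 else P2) (if m < 3 then Q else Q')) m := by
    intro m hm
    rw [alphaTwo_eq_of_ne f hf _ hxy hmd, ev_face_self φ x (hp x) m (by omega)]
    have h1 : ev (φ.comp (coface p x (hp x) m))
        (Function.update (Function.update p x (p x - 1)) y 1) = if m < 3 then Q else Q' := by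
      by_cases hm3 : m < 3
      · rw [if_pos hm3, ev_face_ne φ x (hp x) (by omega) hxy.symm (hp y)]
      · rw [if_neg hm3]
        have hm4 : m = p x := by omega
        subst hm4
        rw [ev_face_last_ne φ x (hp x) hxy.symm (hp y), hpx]
    rw [h1, hc]
    have h2 : ev φ (Function.update p x (if 1 < m then 1 else 1 + 1)) =
        if 1 < m then P1 else P2 := by
      split_ifs
      · rfl
      · rfl
    rw [h2]
    ring
  rw [cochain_dirBdry_three (alphaTwo f) hL hF x (hp x) hpx _ hval]
  rw [if_neg (show ¬ 1 < 0 by norm_num), if_pos (show 0 < 3 by norm_num),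
    if_neg (show ¬ 1 < 1 by norm_num), if_pos (show 1 < 3 by norm_num),
    if_pos (show 1 < 2 by norm_num), if_pos (show 2 < 3 by norm_num),
    if_neg (show ¬ 3 < 3 by norm_num), if_pos (show 1 < 3 by norm_num), ← hP1, ← hP2]
  by_cases e1 : P1 = ⊥
  · rw [e1, if_pos rfl, hf0.bot_left, hf0.bot_left]
    simp
  · rw [if_neg e1]
    by_cases e2 : P2 = ⊤
    · rw [← hsq, e2, if_pos rfl, top_inf_eq, hf0.top_left]
      ring
    · have e4 : P1 ≠ ⊤ := fun e4 => e2 (top_le_iff.1 (e4 ▸ hle))
      have e5 : P2 ≠ ⊥ := fun e5 => e1 (le_bot_iff.1 (e5 ▸ hle))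
      have e6 : P1 = P2 := (isLine_of_ev e1 e4).eq_of_le (isLine_of_ev e5 e2) hle
      rw [if_neg e2, e6]
      ring

open Classical in
/-- The case of multidegree with three `2`s: one direction. -/
theorem cochain_alphaTwo_dir_two
    (f : Submodule R (Fin 2 → R) → Submodule R (Fin 2 → R) → ℝ)
    {φ : Grid p →o Summand R (Fin 2 → R)} (hL : IsLattice φ)
    (hF : IsFull φ) (hp : ∀ i, 1 ≤ p i) {x y z : Fin k} (hxy : x ≠ y) (hxz : x ≠ z)
    (hyz : y < z) (hpx : p x = 2) (hpy : p y = 2) (hpz : p z = 2)
    (hpl : ∀ l, l ≠ x → l ≠ y → l ≠ z → p l = 1) :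
    cochain (alphaTwo f) (dirBdry φ x (hp x)) =
      if ev φ (Function.update p x 1) ≠ ⊥ ∧ ev φ (Function.update p x 1) ≠ ⊤ then
        -((-1 : ℝ) ^ (y.val + z.val) *
          f (ev φ (Function.update p y 1)) (ev φ (Function.update p z 1))) else 0 := by
  have hmd : Function.update p x (p x - 1) = mdTwo y z := by
    funext r
    by_cases hr : r = x
    · subst hr; rw [Function.update_self, hpx]; simp [mdTwo, hxy, hxz]
    · rw [Function.update_of_ne hr]
      by_cases hr' : r = y
      · subst hr'; rw [hpy]; simp [mdTwo, hyz.ne]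
      · by_cases hr'' : r = z
        · subst hr''; rw [hpz]; simp [mdTwo, hyz.ne']
        · rw [hpl r hr hr' hr'']; simp [mdTwo, hr', hr'']
  have hbt : (⊥ : Submodule R (Fin 2 → R)) ≠ ⊤ := bot_ne_top
  apply cochain_dirBdry_two hbt (alphaTwo f) hL hF x (hp x) hpx
  · intro m hm
    rw [alphaTwo_eq f _ hyz hmd, ev_face_ne φ x (hp x) (by omega) hxy.symm (hp y),
      ev_face_ne φ x (hp x) (by omega) hxz.symm (hp z)]
  · intro ht
    have h4 : ∀ w, w ≠ x → ∀ m, m = p x → ev (φ.comp (coface p x (hp x) m))
        (Function.update (Function.update p x (p x - 1)) w 1) =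
          ev φ (Function.update p w 1) := by
      rintro w hw m rfl
      have hsq := hL.square le_rfl hw.symm (hp x) (hp w)
      rw [ev_face_last_ne φ x (hp x) hw (hp w), hpx, show 2 - 1 = 1 from rfl, ← hsq, ht,
        top_inf_eq]
    rw [alphaTwo_eq f _ hyz hmd, h4 y hxy.symm 2 hpx.symm, h4 z hxz.symm 2 hpx.symm]

/-- `α₂(f) ∘ ∂ = 0`. -/
theorem cochain_alphaTwo_bdry
    (f : Submodule R (Fin 2 → R) → Submodule R (Fin 2 → R) → ℝ) (hf0 : OnCompl f)
    (hf : ∀ P Q, f Q P = -f P Q)
    (s : FullLattice R (Fin 2 → R) k) (hs : ∑ i, s.p i = 3 + k) :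
    cochain (alphaTwo f) (bdrySimplex s) = 0 := by
  obtain ⟨p, φ, hL, hF⟩ := s
  change ∑ i, p i = 3 + k at hs
  have hp : ∀ i, 1 ≤ p i := full_pos hF
  rw [cochain_bdrySimplex (alphaTwo f) φ ⟨hL, hF⟩ hp]
  obtain ⟨i, j, r, hij, hjr, hpm⟩ := md_classify_three hp hs
  -- directions where `p_l = 1` never contribute
  have hone : ∀ l, p l = 1 → cochain (alphaTwo f) (dirBdry φ l (hp l)) = 0 := by
    intro l hl
    apply cochain_dirBdry_zero (alphaTwo f) hL l (hp l)
    intro ψ
    apply alphaTwo_eq_zero
    intro a b hab h2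
    have h3 := congrFun h2 l
    rw [Function.update_self, hl] at h3
    simp only [mdTwo] at h3
    omega
  -- directions that leave an entry `3` never contribute
  have hthree : ∀ l, ∀ t, Function.update p l (p l - 1) t = 3 →
      cochain (alphaTwo f) (dirBdry φ l (hp l)) = 0 := by
    intro l t ht
    apply cochain_dirBdry_zero (alphaTwo f) hL l (hp l)
    intro ψ
    apply alphaTwo_eq_zero
    intro a b hab h2
    have h3 := congrFun h2 t
    rw [ht] at h3
    simp only [mdTwo] at h3
    split_ifs at h3 with h4 h5 <;> omega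
  -- the mixed case
  have hmixed : ∀ x y : Fin k, x ≠ y → p x = 3 → p y = 2 →
      (∀ l, l ≠ x → l ≠ y → p l = 1) →
      ∑ i : Fin k, (-1 : ℝ) ^ (∑ l ∈ Finset.univ.filter (· < i), p l) *
        cochain (alphaTwo f) (dirBdry φ i (hp i)) = 0 := by
    intro x y hxy hpx hpy hpl
    apply Finset.sum_eq_zero
    intro l _
    by_cases hlx : l = x
    · subst hlx
      rw [cochain_alphaTwo_dir_three f hf0 hf hL hF hp hxy hpx hpy hpl, mul_zero]
    · by_cases hly : l = y
      · subst hly
        rw [hthree l x (by rw [Function.update_of_ne hxy, hpx]), mul_zero]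
      · rw [hone l (hpl l hlx hly), mul_zero]
  rcases hij.eq_or_lt with rfl | hij
  · rcases hjr.eq_or_lt with rfl | hjr
    · -- `p_i = 4`
      apply Finset.sum_eq_zero
      intro l _
      by_cases hl : l = i
      · subst hl
        rw [hthree l l (by rw [Function.update_self, hpm]; simp [mdThree]), mul_zero]
      · rw [hone l (by rw [hpm]; simp [mdThree, hl]), mul_zero]
    · apply hmixed i r hjr.ne
      · rw [hpm]; simp [mdThree, hjr.ne]
      · rw [hpm]; simp [mdThree, hjr.ne']
      · intro l h1 h2
        rw [hpm]; simp [mdThree, h1, h2]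
  · rcases hjr.eq_or_lt with rfl | hjr
    · apply hmixed j i hij.ne'
      · rw [hpm]; simp [mdThree, hij.ne']
      · rw [hpm]; simp [mdThree, hij.ne]
      · intro l h1 h2
        rw [hpm]; simp [mdThree, h1, h2]
    · -- three `2`s
      have hir : i < r := hij.trans hjr
      have hpi : p i = 2 := by rw [hpm]; simp [mdThree, hij.ne, hir.ne]
      have hpj : p j = 2 := by rw [hpm]; simp [mdThree, hij.ne', hjr.ne]
      have hpr : p r = 2 := by rw [hpm]; simp [mdThree, hir.ne', hjr.ne']
      have hpl : ∀ l, l ≠ i → l ≠ j → l ≠ r → p l = 1 := by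
        intro l h1 h2 h3
        rw [hpm]; simp [mdThree, h1, h2, h3]
      have hDi := cochain_alphaTwo_dir_two f hL hF hp hij.ne hir.ne hjr hpi hpj hpr hpl
      have hDj := cochain_alphaTwo_dir_two f hL hF hp hij.ne' hjr.ne hir hpj hpi hpr
        (fun l h1 h2 h3 => hpl l h2 h1 h3)
      have hDr := cochain_alphaTwo_dir_two f hL hF hp hir.ne' hjr.ne' hij hpr hpi hpj
        (fun l h1 h2 h3 => hpl l h2 h3 h1)
      have hsum : ∑ l : Fin k, (-1 : ℝ) ^ (∑ l' ∈ Finset.univ.filter (· < l), p l') *
          cochain (alphaTwo f) (dirBdry φ l (hp l)) =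
          ∑ l ∈ ({i, j, r} : Finset (Fin k)),
            (-1 : ℝ) ^ (∑ l' ∈ Finset.univ.filter (· < l), p l') *
            cochain (alphaTwo f) (dirBdry φ l (hp l)) := by
        symm
        apply Finset.sum_subset (Finset.subset_univ _)
        intro l _ hl
        simp only [Finset.mem_insert, Finset.mem_singleton, not_or] at hl
        rw [hone l (hpl l hl.1 hl.2.1 hl.2.2), mul_zero]
      rw [hsum, Finset.sum_insert (by simp [hij.ne, hir.ne]),
        Finset.sum_insert (by simp [hjr.ne]), Finset.sum_singleton]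
      have hei : (∑ l ∈ Finset.univ.filter (· < i), p l) = i.val := by
        rw [hpm, sum_filter_mdThree, if_neg (lt_irrefl _), if_neg (not_lt.2 hij.le),
          if_neg (not_lt.2 hir.le), add_zero, add_zero, add_zero]
      have hej : (∑ l ∈ Finset.univ.filter (· < j), p l) = j.val + 1 := by
        rw [hpm, sum_filter_mdThree, if_neg (lt_irrefl _), if_pos hij,
          if_neg (not_lt.2 hjr.le)]
      have her : (∑ l ∈ Finset.univ.filter (· < r), p l) = r.val + 2 := by
        rw [hpm, sum_filter_mdThree, if_neg (lt_irrefl _), if_pos hir, if_pos hjr]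
      rw [hDi, hDj, hDr, hei, hej, her]
      set A := ev φ (Function.update p i 1) with hA
      set B := ev φ (Function.update p j 1) with hB
      set C := ev φ (Function.update p r 1) with hC
      by_cases hAl : A ≠ ⊥ ∧ A ≠ ⊤
      · by_cases hBl : B ≠ ⊥ ∧ B ≠ ⊤
        · by_cases hCl : C ≠ ⊥ ∧ C ≠ ⊤
          · rw [if_pos hAl, if_pos hBl, if_pos hCl]
            have key : f B C - f A C + f A B = 0 := by
              by_cases hAB : A = B
              · rw [hAB, hf0.self]; ring
              · by_cases hAC : A = C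
                · rw [← hAC, hf0.self, hf A B]; ring
                · by_cases hBC : B = C
                  · rw [hBC, hf0.self]; ring
                  · exfalso
                    have lA := isLine_of_ev hAl.1 hAl.2
                    have lB := isLine_of_ev hBl.1 hBl.2
                    have lC := isLine_of_ev hCl.1 hCl.2
                    obtain ⟨u, hu, v, hv, w, hw, hu0, huvw⟩ := exists_relation lA lB lC hBC
                    apply hu0
                    exact hL.cube le_rfl hij.ne hir.ne hjr.ne (by omega) (by omega) (by omega)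
                      (lA.inf_eq_bot lB hAB) (lA.inf_eq_bot lC hAC) hu hv hw huvw
            have : (-1 : ℝ) ^ i.val * -((-1) ^ (j.val + r.val) * f B C) +
                ((-1) ^ (j.val + 1) * -((-1) ^ (i.val + r.val) * f A C) +
                (-1) ^ (r.val + 2) * -((-1) ^ (i.val + j.val) * f A B)) =
                -((-1) ^ (i.val + j.val + r.val) * (f B C - f A C + f A B)) := by
              rw [pow_add, pow_add, pow_add, pow_add, pow_add, pow_add, pow_add]
              ring
            rw [this, key]
            ring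
          · rw [if_neg hCl]
            have h1 : ∀ X, f X C = 0 := by
              intro X
              by_cases e : C = ⊥
              · rw [e, hf0.bot_right]
              · by_cases e' : C = ⊤
                · rw [e', hf0.top_right]
                · exact absurd ⟨e, e'⟩ hCl
            rw [h1, h1]
            simp
        · rw [if_neg hBl]
          have h1 : ∀ X, f X B = 0 := by
            intro X
            by_cases e : B = ⊥
            · rw [e, hf0.bot_right]
            · by_cases e' : B = ⊤
              · rw [e', hf0.top_right]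
              · exact absurd ⟨e, e'⟩ hBl
          have h2 : ∀ X, f B X = 0 := by
            intro X
            rw [hf X B, h1, neg_zero]
          rw [h1, h2]
          simp
      · rw [if_neg hAl]
        have h2 : ∀ X, f A X = 0 := by
          intro X
          by_cases e : A = ⊥
          · rw [e, hf0.bot_left]
          · by_cases e' : A = ⊤
            · rw [e', hf0.top_left]
            · exact absurd ⟨e, e'⟩ hAl
        rw [h2, h2]
        simp

end

end Pool.Agent.Lib.Helper86.StableBuilding
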