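import Pool.Agent.Lib.Helper86.StableBuilding.Faces

/-!
# Cochains on `D^k(R²)`
-/

set_option autoImplicit false

namespace Pool.Agent.Lib.Helper86.StableBuilding

noncomputable section

universe u v

section general

variable {R : Type u} [CommRing R] {M : Type v} [AddCommGroup M] [Module R M] {k : ℕ}
  {p : Fin k → ℕ}

/-- A cochain with values in `ℝ`. -/
def cochain (α : ∀ p : Fin k → ℕ, (Grid p →o Summand R M) → ℝ) : Chains R M k →+ ℝ :=
  extend (fun s => α s.p s.φ)

theorem cochain_single (α : ∀ p : Fin k → ℕ, (Grid p →o Summand R M) → ℝ)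
    (s : FullLattice R M k) : cochain α (simplex s) = α s.p s.φ :=
  extend_simplex _ _

theorem cochain_toChain_full (α : ∀ p : Fin k → ℕ, (Grid p →o Summand R M) → ℝ)
    {φ : Grid p →o Summand R M} (hφ : IsLattice φ) (h : IsFull φ) :
    cochain α (toChain φ) = α p φ := by
  rw [toChain_pos ⟨hφ, h⟩, cochain_single]

theorem cochain_toChain_not_full (α : ∀ p : Fin k → ℕ, (Grid p →o Summand R M) → ℝ)
    {φ : Grid p →o Summand R M} (h : ¬ IsFull φ) :
    cochain α (toChain φ) = 0 := by
  rw [toChain_neg (fun h' => h h'.2), map_zero]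

/-- The alternating sum of the faces in direction `i`. -/
def dirBdry (φ : Grid p →o Summand R M) (i : Fin k) (hi : 1 ≤ p i) : Chains R M k :=
  ∑ j ∈ Finset.range (p i + 1), (-1 : ℤ) ^ j • toChain (φ.comp (coface p i hi j))

theorem isFull_face_last_iff' {φ : Grid p →o Summand R M} (h : IsFull φ) (i : Fin k)
    (hi : 1 ≤ p i) {P : ℕ} (hP : p i = P) :
    IsFull (φ.comp (coface p i hi P)) ↔ ev φ (Function.update p i (P - 1)) = ⊤ := by
  subst hP
  exact isFull_face_last_iff h i hi

open Classical in
/-- The cochain on the faces in direction `i`, if `p_i = 2`. -/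
theorem cochain_dirBdry_two (hbt : (⊥ : Submodule R M) ≠ ⊤)
    (α : ∀ p : Fin k → ℕ, (Grid p →o Summand R M) → ℝ)
    {φ : Grid p →o Summand R M} (hφ : IsLattice φ) (hf : IsFull φ) (i : Fin k) (hi : 1 ≤ p i)
    (h2 : p i = 2) (v : ℝ)
    (hv : ∀ m < 2, α _ (φ.comp (coface p i hi m)) = v)
    (hv' : ev φ (Function.update p i 1) = ⊤ → α _ (φ.comp (coface p i hi 2)) = v) :
    cochain α (dirBdry φ i hi) =
      if ev φ (Function.update p i 1) ≠ ⊥ ∧ ev φ (Function.update p i 1) ≠ ⊤ then -v else 0 := by
  have h0 : cochain α (toChain (φ.comp (coface p i hi 0))) =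
      if ev φ (Function.update p i 1) = ⊥ then v else 0 := by
    by_cases h : ev φ (Function.update p i 1) = ⊥
    · rw [if_pos h, cochain_toChain_full α (hφ.comp_coface i hi 0)
        ((isFull_face_zero_iff hf i hi).2 h), hv 0 (by norm_num)]
    · rw [if_neg h, cochain_toChain_not_full α (fun h' => h ((isFull_face_zero_iff hf i hi).1 h'))]
  have h1 : cochain α (toChain (φ.comp (coface p i hi 1))) = v := by
    rw [cochain_toChain_full α (hφ.comp_coface i hi 1)
      (isFull_face_mid hf i hi (by norm_num) (by omega)), hv 1 (by norm_num)]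
  have h3 : cochain α (toChain (φ.comp (coface p i hi 2))) =
      if ev φ (Function.update p i 1) = ⊤ then v else 0 := by
    have h4 := isFull_face_last_iff' hf i hi h2
    by_cases h : ev φ (Function.update p i 1) = ⊤
    · rw [if_pos h, cochain_toChain_full α (hφ.comp_coface i hi 2) (h4.2 h), hv' h]
    · rw [if_neg h, cochain_toChain_not_full α (fun h' => h (h4.1 h'))]
  have hr : Finset.range (p i + 1) = Finset.range 3 := by rw [h2]
  rw [dirBdry, map_sum, hr, Finset.sum_range_succ, Finset.sum_range_succ,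
    Finset.sum_range_succ, Finset.sum_range_zero]
  simp only [map_zsmul, h0, h1, h3]
  by_cases hb : ev φ (Function.update p i 1) = ⊥
  · simp [hb, hbt]
  · by_cases ht : ev φ (Function.update p i 1) = ⊤
    · simp [ht, hbt.symm]
    · simp [hb, ht]

open Classical in
/-- The cochain on the faces in direction `i`, if `p_i = 3`. -/
theorem cochain_dirBdry_three (α : ∀ p : Fin k → ℕ, (Grid p →o Summand R M) → ℝ)
    {φ : Grid p →o Summand R M} (hφ : IsLattice φ) (hf : IsFull φ) (i : Fin k) (hi : 1 ≤ p i)
    (h3 : p i = 3) (v : ℕ → ℝ) (hv : ∀ m < 4, α _ (φ.comp (coface p i hi m)) = v m) :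
    cochain α (dirBdry φ i hi) =
      (if ev φ (Function.update p i 1) = ⊥ then v 0 else 0) - v 1 + v 2 -
        (if ev φ (Function.update p i 2) = ⊤ then v 3 else 0) := by
  have h0 : cochain α (toChain (φ.comp (coface p i hi 0))) =
      if ev φ (Function.update p i 1) = ⊥ then v 0 else 0 := by
    by_cases h : ev φ (Function.update p i 1) = ⊥
    · rw [if_pos h, cochain_toChain_full α (hφ.comp_coface i hi 0)
        ((isFull_face_zero_iff hf i hi).2 h), hv 0 (by norm_num)]
    · rw [if_neg h, cochain_toChain_not_full α (fun h' => h ((isFull_face_zero_iff hf i hi).1 h'))]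
  have h1 : cochain α (toChain (φ.comp (coface p i hi 1))) = v 1 := by
    rw [cochain_toChain_full α (hφ.comp_coface i hi 1)
      (isFull_face_mid hf i hi (by norm_num) (by omega)), hv 1 (by norm_num)]
  have h2 : cochain α (toChain (φ.comp (coface p i hi 2))) = v 2 := by
    rw [cochain_toChain_full α (hφ.comp_coface i hi 2)
      (isFull_face_mid hf i hi (by norm_num) (by omega)), hv 2 (by norm_num)]
  have h5 : cochain α (toChain (φ.comp (coface p i hi 3))) =
      if ev φ (Function.update p i 2) = ⊤ then v 3 else 0 := by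
    have h4 := isFull_face_last_iff' hf i hi h3
    by_cases h : ev φ (Function.update p i 2) = ⊤
    · rw [if_pos h, cochain_toChain_full α (hφ.comp_coface i hi 3) (h4.2 h), hv 3 (by norm_num)]
    · rw [if_neg h, cochain_toChain_not_full α (fun h' => h (h4.1 h'))]
  have hr : Finset.range (p i + 1) = Finset.range 4 := by rw [h3]
  rw [dirBdry, map_sum, hr, Finset.sum_range_succ, Finset.sum_range_succ,
    Finset.sum_range_succ, Finset.sum_range_succ, Finset.sum_range_zero]
  simp only [map_zsmul, h0, h1, h2, h5, zero_add, zsmul_eq_mul]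
  push_cast
  ring

/-- The boundary is the signed sum of the boundaries in all directions. -/
theorem cochain_bdrySimplex (α : ∀ p : Fin k → ℕ, (Grid p →o Summand R M) → ℝ)
    (φ : Grid p →o Summand R M) (h : IsLattice φ ∧ IsFull φ) (hp : ∀ i, 1 ≤ p i) :
    cochain α (bdrySimplex (⟨p, φ, h.1, h.2⟩ : FullLattice R M k)) =
      ∑ i : Fin k, (-1 : ℝ) ^ (∑ l ∈ Finset.univ.filter (· < i), p l) *
        cochain α (dirBdry φ i (hp i)) := by
  rw [bdrySimplex_eq p φ h, map_sum]
  apply Finset.sum_congr rfl
  intro i _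
  rw [dif_pos (hp i), map_zsmul]
  simp [dirBdry]

/-- A direction contributes nothing if the cochain vanishes in the multidegree of its faces. -/
theorem cochain_dirBdry_zero (α : ∀ p : Fin k → ℕ, (Grid p →o Summand R M) → ℝ)
    {φ : Grid p →o Summand R M} (hφ : IsLattice φ) (i : Fin k) (hi : 1 ≤ p i)
    (h0 : ∀ ψ, α (Function.update p i (p i - 1)) ψ = 0) :
    cochain α (dirBdry φ i hi) = 0 := by
  rw [dirBdry, map_sum]
  apply Finset.sum_eq_zero
  intro m _
  by_cases h : IsFull (φ.comp (coface p i hi m))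
  · rw [map_zsmul, cochain_toChain_full α (hφ.comp_coface i hi m) h, h0, smul_zero]
  · rw [map_zsmul, cochain_toChain_not_full α h, smul_zero]

end general

section indices

variable {k : ℕ}

/-- The multidegree `(1,…,2,…,1)`. -/
def mdOne (i : Fin k) : Fin k → ℕ := fun l => 1 + (if l = i then 1 else 0)

/-- The multidegree with two additional entries. -/
def mdTwo (i j : Fin k) : Fin k → ℕ := fun l => 1 + (if l = i then 1 else 0) +
  (if l = j then 1 else 0)

/-- The multidegree with three additional entries. -/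
def mdThree (i j r : Fin k) : Fin k → ℕ := fun l => 1 + (if l = i then 1 else 0) +
  (if l = j then 1 else 0) + (if l = r then 1 else 0)

theorem exists_dec {n : ℕ} (q : Fin k → ℕ) (h : ∑ l, q l = n + 1) :
    ∃ (i : Fin k) (q' : Fin k → ℕ), ∑ l, q' l = n ∧ (∀ l, q l = q' l + if l = i then 1 else 0) ∧
      ∀ l, q l ≠ 0 → i ≤ l := by
  have hne : (Finset.univ.filter (fun l => q l ≠ 0)).Nonempty := by
    by_contra h0
    rw [Finset.not_nonempty_iff_eq_empty, Finset.filter_eq_empty_iff] at h0
    have : ∑ l, q l = 0 := Finset.sum_eq_zero fun l hl => by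
      have := h0 hl
      simpa using this
    omega
  obtain ⟨i, hi, hmin⟩ := Finset.exists_min_image _ id hne
  have hqi : q i ≠ 0 := (Finset.mem_filter.1 hi).2
  have hq : ∀ l, q l = Function.update q i (q i - 1) l + if l = i then 1 else 0 := by
    intro l
    by_cases hl : l = i
    · subst hl; rw [Function.update_self, if_pos rfl]; omega
    · rw [Function.update_of_ne hl, if_neg hl, add_zero]
  refine ⟨i, Function.update q i (q i - 1), ?_, hq, ?_⟩
  · have h1 : ∑ l, q l = ∑ l, Function.update q i (q i - 1) l + 1 := by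
      rw [Finset.sum_congr rfl (fun l _ => hq l), Finset.sum_add_distrib]
      simp
    omega
  · intro l hl
    exact hmin l (Finset.mem_filter.2 ⟨Finset.mem_univ _, hl⟩)

theorem md_classify_two {p : Fin k → ℕ} (hp : ∀ l, 1 ≤ p l) (hs : ∑ l, p l = 2 + k) :
    ∃ i j, i ≤ j ∧ p = mdTwo i j := by
  have h0 : ∑ l, (p l - 1) = 1 + 1 := by
    have h1 : ∑ l, p l = ∑ l, ((p l - 1) + 1) := Finset.sum_congr rfl fun l _ => by
      have := hp l; omega
    rw [Finset.sum_add_distrib] at h1
    simp at h1
    omega
  obtain ⟨i, q, hq, hq1, hi⟩ := exists_dec _ h0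
  obtain ⟨j, q', hq', hq1', hj⟩ := exists_dec (n := 0) q (by rw [hq])
  have hq0 : ∀ l, q' l = 0 := fun l => by
    have := Finset.sum_eq_zero_iff.1 hq' l (Finset.mem_univ _)
    exact this
  refine ⟨i, j, ?_, ?_⟩
  · apply hi
    rw [hq1 j, hq1' j, if_pos rfl]
    omega
  · funext l
    have h1 := hq1 l
    have h2 := hq1' l
    have h3 := hq0 l
    have h4 := hp l
    rw [mdTwo]
    omega

theorem md_classify_three {p : Fin k → ℕ} (hp : ∀ l, 1 ≤ p l) (hs : ∑ l, p l = 3 + k) :
    ∃ i j r, i ≤ j ∧ j ≤ r ∧ p = mdThree i j r := by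
  have h0 : ∑ l, (p l - 1) = 2 + 1 := by
    have h1 : ∑ l, p l = ∑ l, ((p l - 1) + 1) := Finset.sum_congr rfl fun l _ => by
      have := hp l; omega
    rw [Finset.sum_add_distrib] at h1
    simp at h1
    omega
  obtain ⟨i, q, hq, hq1, hi⟩ := exists_dec _ h0
  obtain ⟨j, q', hq', hq1', hj⟩ := exists_dec (n := 1) q (by rw [hq])
  obtain ⟨r, q'', hq'', hq1'', hr⟩ := exists_dec (n := 0) q' (by rw [hq'])
  have hq0 : ∀ l, q'' l = 0 := fun l => by
    have := Finset.sum_eq_zero_iff.1 hq'' l (Finset.mem_univ _)
    exact this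
  refine ⟨i, j, r, ?_, ?_, ?_⟩
  · apply hi
    rw [hq1 j, hq1' j, if_pos rfl]
    omega
  · apply hj
    rw [hq1' r, hq1'' r, if_pos rfl]
    omega
  · funext l
    have h1 := hq1 l
    have h2 := hq1' l
    have h3 := hq1'' l
    have h4 := hq0 l
    have h5 := hp l
    rw [mdThree]
    omega

theorem sum_filter_ite (x i : Fin k) :
    ∑ l ∈ Finset.univ.filter (· < x), (if l = i then 1 else 0 : ℕ) = if i < x then 1 else 0 := by
  rw [Finset.sum_ite_eq']
  simp

theorem sum_filter_one (x : Fin k) :
    ∑ _l ∈ Finset.univ.filter (· < x), 1 = x.val := by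
  rw [Finset.sum_const, smul_eq_mul, mul_one]
  have : Finset.univ.filter (· < x) = Finset.Iio x := by ext; simp
  rw [this, Fin.card_Iio]

theorem sum_filter_mdTwo (x i j : Fin k) :
    ∑ l ∈ Finset.univ.filter (· < x), mdTwo i j l =
      x.val + (if i < x then 1 else 0) + (if j < x then 1 else 0) := by
  unfold mdTwo
  rw [Finset.sum_add_distrib, Finset.sum_add_distrib, sum_filter_ite, sum_filter_ite,
    sum_filter_one]

theorem sum_filter_mdThree (x i j r : Fin k) :
    ∑ l ∈ Finset.univ.filter (· < x), mdThree i j r l =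
      x.val + (if i < x then 1 else 0) + (if j < x then 1 else 0) +
        (if r < x then 1 else 0) := by
  unfold mdThree
  rw [Finset.sum_add_distrib, Finset.sum_add_distrib, Finset.sum_add_distrib,
    sum_filter_ite, sum_filter_ite, sum_filter_ite, sum_filter_one]

theorem mdOne_injective {i j : Fin k} (h : mdOne i = mdOne j) : i = j := by
  by_contra hne
  have h1 := congrFun h i
  simp only [mdOne, if_true, if_neg hne] at h1
  omega

theorem mdTwo_injective {i j i' j' : Fin k} (hij : i < j) (hij' : i' < j')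
    (h : mdTwo i j = mdTwo i' j') : i = i' ∧ j = j' := by
  have h1 := congrFun h i
  have h2 := congrFun h j
  simp only [mdTwo, if_true, if_neg hij.ne, if_neg hij.ne'] at h1 h2
  have hi : i = i' ∨ i = j' := by
    by_contra hc
    push Not at hc
    rw [if_neg hc.1, if_neg hc.2] at h1
    omega
  have hj : j = i' ∨ j = j' := by
    by_contra hc
    push Not at hc
    rw [if_neg hc.1, if_neg hc.2] at h2
    omega
  rcases hi with rfl | rfl
  · rcases hj with rfl | rfl
    · exact absurd hij (lt_irrefl _)
    · exact ⟨rfl, rfl⟩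
  · rcases hj with rfl | rfl
    · exact absurd (hij.trans hij') (lt_irrefl _)
    · exact absurd hij (lt_irrefl _)

end indices

end

end Pool.Agent.Lib.Helper86.StableBuilding
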