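import Pool.Agent.Lib.Helper86.StableBuilding.Defs

/-!
# Colimits of families of submodules, and transport of the lattice condition
-/

set_option autoImplicit false

namespace Pool.Agent.Lib.Helper86.StableBuilding

noncomputable section

universe u v w w' v' x

section generic

variable {R : Type u} [CommRing R] {M : Type v} [AddCommGroup M] [Module R M]
  {J : Type w} [Preorder J]

open Classical in
/-- The canonical map of the component. -/
def gof (N : J → Submodule R M) (hN : Monotone N) (c : J) : N c →ₗ[R] Colim N hN :=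
  Module.DirectLimit.of R J (fun c : J => N c) (transition N hN) c

theorem gof_le {N : J → Submodule R M} {hN : Monotone N} {c d : J} (h : c ≤ d) (x : N c) :
    gof N hN d ⟨x.1, hN h x.2⟩ = gof N hN c x := by
  classical
  exact Module.DirectLimit.of_f (f := transition N hN) (hij := h) (x := x)

theorem lift_gof (N : J → Submodule R M) (hN : Monotone N) {P : Type x} [AddCommGroup P]
    [Module R P] (g : ∀ c, N c →ₗ[R] P)
    (hg : ∀ c d (h : c ≤ d) (x : N c), g d (transition N hN c d h x) = g c x) (c : J)
    (x : N c) : Colim.lift N hN g hg (gof N hN c x) = g c x := by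
  classical
  exact Module.DirectLimit.lift_of _ _ _

/-- Two maps out of the colimit agree if they agree on all components. -/
theorem gcolim_ext {N : J → Submodule R M} {hN : Monotone N} {P : Type x} [AddCommGroup P]
    [Module R P] {f g : Colim N hN →ₗ[R] P}
    (h : ∀ c x, f (gof N hN c x) = g (gof N hN c x)) : f = g := by
  classical
  refine Module.DirectLimit.hom_ext ?_
  intro c
  refine LinearMap.ext fun x => ?_
  exact h c x

/-- The map from the colimit to the ambient module. -/
def toM (N : J → Submodule R M) (hN : Monotone N) : Colim N hN →ₗ[R] M :=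
  Colim.lift N hN (fun c => (N c).subtype) (fun _ _ _ _ => rfl)

@[simp] theorem toM_of (N : J → Submodule R M) (hN : Monotone N) (c : J) (x : N c) :
    toM N hN (gof N hN c x) = x.1 :=
  lift_gof _ _ _ _ _ _

theorem toSubmodule_of (N : J → Submodule R M) (hN : Monotone N) (P : Submodule R M)
    (hP : ∀ c, N c ≤ P) (c : J) (x : N c) :
    Colim.toSubmodule N hN P hP (gof N hN c x) = ⟨x.1, hP c x.2⟩ :=
  lift_gof _ _ _ _ _ _

theorem subtype_comp_toSubmodule (N : J → Submodule R M) (hN : Monotone N) (P : Submodule R M)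
    (hP : ∀ c, N c ≤ P) : P.subtype.comp (Colim.toSubmodule N hN P hP) = toM N hN := by
  apply gcolim_ext
  intro c x
  rw [LinearMap.comp_apply, toSubmodule_of, toM_of]
  rfl

theorem range_toM (N : J → Submodule R M) (hN : Monotone N) :
    LinearMap.range (toM N hN) = ⨆ c, N c := by
  apply le_antisymm
  · rw [← subtype_comp_toSubmodule N hN (⨆ c, N c) (le_iSup N)]
    refine (LinearMap.range_comp_le_range _ _).trans ?_
    rw [Submodule.range_subtype]
  · refine iSup_le fun c => ?_
    intro x hx
    exact ⟨gof N hN c ⟨x, hx⟩, toM_of N hN c ⟨x, hx⟩⟩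

theorem eq_zero_of_eq_bot {S : Submodule R M} (h : S = ⊥) (x : S) : x = 0 :=
  Subtype.ext ((Submodule.mem_bot R).1 (h.le x.2))

/-- The lattice condition for a family of submodules. -/
def Good (N : J → Submodule R M) (hN : Monotone N) : Prop :=
  Function.Injective (toM N hN) ∧ ∃ Q, IsCompl (⨆ c, N c) Q

variable {M' : Type v'} [AddCommGroup M'] [Module R M']
  {J' : Type w'} [Preorder J']

open Classical in
theorem Good.transport {N : J → Submodule R M} {hN : Monotone N} (h : Good N hN)
    {N' : J' → Submodule R M'} (hN' : Monotone N') (T : M ≃ₗ[R] M') (e : J → J')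
    (he : ∀ c d, e c ≤ e d ↔ c ≤ d) (hinj : Function.Injective e)
    (hT : ∀ c, N' (e c) = (N c).map T.toLinearMap)
    (hbot : ∀ c', c' ∉ Set.range e → N' c' = ⊥) : Good N' hN' := by
  have hsymm : ∀ c' (hc : c' ∈ Set.range e) (x : N' c'), T.symm x.1 ∈ N hc.choose := by
    intro c' hc x
    have h1 := hT hc.choose
    have h2 : x.1 ∈ N' (e hc.choose) := by rw [hc.choose_spec]; exact x.2
    rw [h1] at h2
    obtain ⟨y, hy, hyx⟩ := h2
    have : T.symm x.1 = y := by rw [← hyx]; exact T.symm_apply_apply y
    rw [this]; exact hy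
  -- the comparison maps
  let ψc : ∀ c', N' c' →ₗ[R] Colim N hN := fun c' =>
    if hc : c' ∈ Set.range e then
      (gof N hN hc.choose).comp
        (LinearMap.codRestrict (N hc.choose) (T.symm.toLinearMap.comp (N' c').subtype)
          (fun x => hsymm c' hc x))
    else 0
  have hψc : ∀ c (x : N' (e c)), ψc (e c) x = gof N hN c ⟨T.symm x.1, by
      obtain ⟨y, hy, hyx⟩ := (hT c).le x.2
      have : T.symm x.1 = y := by rw [← hyx]; exact T.symm_apply_apply y
      rw [this]; exact hy⟩ := by
    intro c x
    have hc : e c ∈ Set.range e := ⟨c, rfl⟩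
    have hch : hc.choose = c := hinj hc.choose_spec
    simp only [ψc, dif_pos hc, LinearMap.comp_apply]
    have key : ∀ (d : J) (hd : d = c) (hx : T.symm x.1 ∈ N d) (hx' : T.symm x.1 ∈ N c),
        gof N hN d ⟨T.symm x.1, hx⟩ = gof N hN c ⟨T.symm x.1, hx'⟩ := by
      intro d hd hx hx'
      subst hd
      rfl
    exact key _ hch _ _
  let ψ : Colim N' hN' →ₗ[R] Colim N hN :=
    Colim.lift N' hN' ψc (by
      intro c' d' hcd x
      by_cases hc : c' ∈ Set.range e
      · obtain ⟨c, rfl⟩ := hc
        by_cases hd : d' ∈ Set.range e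
        · obtain ⟨d, rfl⟩ := hd
          rw [hψc, hψc]
          exact gof_le (N := N) (hN := hN) ((he c d).1 hcd) ⟨T.symm x.1, _⟩
        · have hx : x = 0 :=
            eq_zero_of_eq_bot (le_bot_iff.1 ((hN' hcd).trans (hbot d' hd).le)) x
          rw [hx, map_zero, map_zero, map_zero]
      · have hx : x = 0 := eq_zero_of_eq_bot (hbot c' hc) x
        rw [hx, map_zero, map_zero, map_zero])
  have hψ : ∀ c' x, ψ (gof N' hN' c' x) = ψc c' x := fun c' x => lift_gof _ _ _ _ _ _
  let χ : Colim N hN →ₗ[R] Colim N' hN' :=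
    Colim.lift N hN (fun c => (gof N' hN' (e c)).comp
      (LinearMap.codRestrict (N' (e c)) (T.toLinearMap.comp (N c).subtype)
        (fun x => by rw [hT]; exact ⟨x.1, x.2, rfl⟩)))
      (by
        intro c d hcd x
        exact gof_le (N := N') (hN := hN') ((he c d).2 hcd)
          (⟨T x.1, by rw [hT]; exact ⟨x.1, x.2, rfl⟩⟩ : N' (e c)))
  have hχ : ∀ c x, χ (gof N hN c x) = gof N' hN' (e c) ⟨T x.1, by
      rw [hT]; exact ⟨x.1, x.2, rfl⟩⟩ := fun c x => lift_gof _ _ _ _ _ _
  have hχψ : χ.comp ψ = LinearMap.id := by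
    apply gcolim_ext
    intro c' x
    rw [LinearMap.comp_apply, hψ, LinearMap.id_apply]
    by_cases hc : c' ∈ Set.range e
    · obtain ⟨c, rfl⟩ := hc
      rw [hψc, hχ]
      congr 1
      exact Subtype.ext (T.apply_symm_apply x.1)
    · have hx : x = 0 := eq_zero_of_eq_bot (hbot c' hc) x
      rw [hx, map_zero, map_zero, map_zero]
  have hcomm : (toM N hN).comp ψ = T.symm.toLinearMap.comp (toM N' hN') := by
    apply gcolim_ext
    intro c' x
    rw [LinearMap.comp_apply, hψ, LinearMap.comp_apply, toM_of]
    by_cases hc : c' ∈ Set.range e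
    · obtain ⟨c, rfl⟩ := hc
      rw [hψc, toM_of]
      rfl
    · have hx : x = 0 := eq_zero_of_eq_bot (hbot c' hc) x
      rw [hx, map_zero, map_zero]
      exact (map_zero _).symm
  refine ⟨?_, ?_⟩
  · rw [injective_iff_map_eq_zero]
    intro z hz
    have h1 : toM N hN (ψ z) = 0 := by
      have := LinearMap.congr_fun hcomm z
      rw [LinearMap.comp_apply, LinearMap.comp_apply, hz, map_zero] at this
      exact this
    have h2 : ψ z = 0 := (injective_iff_map_eq_zero _).1 h.1 _ h1
    have h3 := LinearMap.congr_fun hχψ z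
    rw [LinearMap.comp_apply, h2, map_zero, LinearMap.id_apply] at h3
    exact h3.symm
  · obtain ⟨Q, hQ⟩ := h.2
    refine ⟨Q.map T.toLinearMap, ?_⟩
    have hsup : (⨆ c', N' c') = (⨆ c, N c).map T.toLinearMap := by
      rw [Submodule.map_iSup]
      apply le_antisymm
      · refine iSup_le fun c' => ?_
        by_cases hc : c' ∈ Set.range e
        · obtain ⟨c, rfl⟩ := hc
          rw [hT c]
          exact le_iSup (fun c => (N c).map T.toLinearMap) c
        · rw [hbot c' hc]; exact bot_le
      · refine iSup_le fun c => ?_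
        rw [← hT c]
        exact le_iSup N' (e c)
    rw [hsup]
    exact (Submodule.orderIsoMapComap T).isCompl_iff.1 hQ

end generic

section lattice

variable {R : Type u} [CommRing R] {M : Type v} [AddCommGroup M] [Module R M] {k : ℕ}
  {p : Fin k → ℕ}

theorem subtype_comp_cubeMap (φ : Grid p →o Summand R M) (a b : Grid p) (hab : a ≤ b) :
    ((φ b).1.subtype).comp (cubeMap φ a b hab) = toM (cubeFam φ a b) (cubeFam_mono φ a b) :=
  subtype_comp_toSubmodule _ _ _ _

theorem cube_good_iff (φ : Grid p →o Summand R M) (a b : Grid p) (hab : a ≤ b) :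
    IsSplitMono (cubeMap φ a b hab) ↔
    Good (cubeFam φ a b) (cubeFam_mono φ a b) := by
  have hrange : (LinearMap.range (cubeMap φ a b hab)).map (φ b).1.subtype =
      ⨆ c, cubeFam φ a b c := by
    rw [← range_toM (cubeFam φ a b) (cubeFam_mono φ a b), ← subtype_comp_cubeMap φ a b hab,
      LinearMap.range_comp]
  constructor
  · rintro ⟨h1, Q, hQ⟩
    refine ⟨?_, ?_⟩
    · rw [← subtype_comp_cubeMap φ a b hab]
      exact (Subtype.val_injective).comp h1
    · obtain ⟨S, hS⟩ := (φ b).2
      refine ⟨Q.map (φ b).1.subtype ⊔ S, ?_⟩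
      rw [← hrange]
      constructor
      · rw [Submodule.disjoint_def]
        rintro x ⟨y, hy, rfl⟩ hx
        obtain ⟨z, ⟨q, hq, rfl⟩, s, hs, hzs⟩ := Submodule.mem_sup.1 hx
        have hs0 : s = 0 := by
          have : s = (φ b).1.subtype (y - q) := by
            rw [map_sub]
            rw [← hzs]; abel
          have hsb : s ∈ (φ b).1 := by rw [this]; exact (y - q).2
          exact Submodule.disjoint_def.1 hS.disjoint s hsb hs
        have hyq : y = q := by
          apply Subtype.ext
          have h5 : (q : M) + s = (y : M) := hzs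
          rw [hs0, add_zero] at h5
          exact h5.symm
        have : y = 0 := Submodule.disjoint_def.1 hQ.disjoint y hy (hyq ▸ hq)
        rw [this, map_zero]
      · rw [codisjoint_iff, ← sup_assoc, ← Submodule.map_sup, hQ.sup_eq_top,
          Submodule.map_top, Submodule.range_subtype, hS.sup_eq_top]
  · rintro ⟨h1, Q, hQ⟩
    refine ⟨?_, ?_⟩
    · rw [← subtype_comp_cubeMap φ a b hab] at h1
      rw [LinearMap.coe_comp] at h1
      exact Function.Injective.of_comp h1
    · refine ⟨Q.comap (φ b).1.subtype, ?_⟩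
      rw [← hrange] at hQ
      constructor
      · rw [Submodule.disjoint_def]
        intro x hx hxQ
        have := Submodule.disjoint_def.1 hQ.disjoint x.1 ⟨x, hx, rfl⟩ hxQ
        exact Subtype.ext this
      · rw [codisjoint_iff, eq_top_iff]
        rintro x -
        have hx : (x : M) ∈ (⊤ : Submodule R M) := trivial
        rw [← hQ.sup_eq_top] at hx
        obtain ⟨z, ⟨y, hy, rfl⟩, q, hq, hzq⟩ := Submodule.mem_sup.1 hx
        have hqb : q ∈ (φ b).1 := by
          have : q = (x - y : (φ b).1) := by
            rw [Submodule.coe_sub]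
            rw [← hzq]
            simp
          rw [this]; exact (x - y).2
        refine Submodule.mem_sup.2 ⟨y, hy, ⟨q, hqb⟩, hq, ?_⟩
        exact Subtype.ext hzq

theorem isLattice_iff (φ : Grid p →o Summand R M) :
    IsLattice φ ↔ ∀ (a b : Grid p) (_ : a ≤ b), Good (cubeFam φ a b) (cubeFam_mono φ a b) := by
  constructor
  · intro h a b hab
    exact (cube_good_iff φ a b hab).1 (h a b hab)
  · intro h a b hab
    exact (cube_good_iff φ a b hab).2 (h a b hab)

end lattice

end

end Pool.Agent.Lib.Helper86.StableBuilding
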