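import Pool.Agent.Lib.Helper86.StableBuilding.Jump

/-!
# The cycle given by a closed path of lines
-/

set_option autoImplicit false

namespace Pool.Agent.Lib.Helper86.StableBuilding

noncomputable section

universe u v w

section general

variable {R : Type u} [CommRing R] {M : Type v} [AddCommGroup M] [Module R M] {k : ℕ}

theorem not_full_of_zero {q : Fin k → ℕ} (L L' : Summand R M) {γ : Fin k → ℕ}
    (γ' : Fin k → ℕ) {i : Fin k} (h0 : γ i = 0) (h1 : ∀ l, l ≠ i → γ l ≤ q l) (hL : L.1 ≠ ⊥) :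
    ¬ IsFull (jump q L L' γ γ') := by
  intro h
  have h2 := h.1 ⟨Function.update q i 0, update_le (Nat.zero_le _)⟩ ⟨i, by simp⟩
  rw [jump_val] at h2
  apply hL
  rw [eq_bot_iff, ← h2]
  apply left_le_jumpVal
  intro l
  by_cases hl : l = i
  · subst hl; rw [h0]; exact Nat.zero_le _
  · change γ l ≤ Function.update q i 0 l
    rw [Function.update_of_ne hl]
    exact h1 l hl

theorem not_full_of_not_le {q : Fin k → ℕ} (L L' : Summand R M) {γ : Fin k → ℕ}
    (γ' : Fin k → ℕ) (h0 : ¬ γ ≤ q) (hL : L'.1 ≠ ⊤) :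
    ¬ IsFull (jump q L L' γ γ') := by
  intro h
  have h2 := h.2
  rw [jump_val] at h2
  apply hL
  rw [eq_top_iff, ← h2]
  exact jumpVal_le_right _ _ _ h0

theorem toChain_eq_zero_of_not_full {p : Fin k → ℕ} {φ : Grid p →o Summand R M}
    (h : ¬ IsFull φ) : toChain φ = 0 := toChain_neg fun h' => h h'.2

theorem toChain_jump_congr {p q : Fin k → ℕ} (h : p = q) (L L' : Summand R M)
    {β β' γ γ' : Fin k → ℕ} (h1 : β = γ) (h2 : β' = γ') :
    toChain (jump p L L' β β') = toChain (jump q L L' γ γ') := by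
  subst h h1 h2
  rfl

/-- The mixed simplex of a pair of lines. -/
def mixedChain (L L' : Summand R M) : Chains R M 2 :=
  toChain (jump ![2, 2] L L' ![1, 2] ![2, 1])

/-- The constant simplex of a line. -/
def constChain (L : Summand R M) : Chains R M 2 :=
  toChain (jump ![2, 2] L L ![1, 1] ![2, 2])

/-- A flag. -/
def flagA (L : Summand R M) : Chains R M 2 := toChain (jump ![1, 2] L L ![1, 1] ![1, 2])

/-- A flag. -/
def flagB (L : Summand R M) : Chains R M 2 := toChain (jump ![2, 1] L L ![1, 1] ![2, 1])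

theorem bdry_toChain {p : Fin k → ℕ} {φ : Grid p →o Summand R M} (h : IsLattice φ ∧ IsFull φ) :
    bdry R M k (toChain φ) =
      ∑ i : Fin k, if hi : 1 ≤ p i then
        (-1 : ℤ) ^ (∑ l ∈ Finset.univ.filter (· < i), p l) •
          ∑ j ∈ Finset.range (p i + 1), (-1 : ℤ) ^ j • toChain (φ.comp (coface p i hi j))
        else 0 := by
  rw [toChain_pos h, bdry_single, bdrySimplex_eq p φ h]

theorem ne_bot_of_isCompl {L L' : Submodule R M} (h : IsCompl L L') (h' : L' ≠ ⊤) : L ≠ ⊥ := by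
  rintro rfl
  exact h' (by simpa using h.sup_eq_top)

theorem bdry_mixedChain {L L' : Summand R M} (hc : IsCompl L.1 L'.1) (hL : L.1 ≠ ⊤)
    (hL' : L'.1 ≠ ⊤) : bdry R M 2 (mixedChain L L') = -flagA L' - flagB L := by
  have hLb : L.1 ≠ ⊥ := ne_bot_of_isCompl hc hL'
  have hLb' : L'.1 ≠ ⊥ := ne_bot_of_isCompl hc.symm hL
  have hfull : IsFull (jump ![2, 2] L L' ![1, 2] ![2, 1]) := by
    apply jump_isFull
    · intro i; fin_cases i <;> simp
    · intro i; fin_cases i <;> simp
    · intro i; fin_cases i <;> simp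
    · intro i; fin_cases i <;> simp
  have h0 : 1 ≤ (![2, 2] : Fin 2 → ℕ) 0 := by simp
  have h1 : 1 ≤ (![2, 2] : Fin 2 → ℕ) 1 := by simp
  have hr0 : Finset.range ((![2, 2] : Fin 2 → ℕ) 0 + 1) = Finset.range 3 := rfl
  have hr1 : Finset.range ((![2, 2] : Fin 2 → ℕ) 1 + 1) = Finset.range 3 := rfl
  have hs0 : (∑ l ∈ Finset.univ.filter (· < (0 : Fin 2)), (![2, 2] : Fin 2 → ℕ) l) = 0 := by
    decide
  have hs1 : (∑ l ∈ Finset.univ.filter (· < (1 : Fin 2)), (![2, 2] : Fin 2 → ℕ) l) = 2 := by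
    decide
  rw [mixedChain, bdry_toChain ⟨jump_isLattice _ hc _ _, hfull⟩, Fin.sum_univ_two,
    dif_pos h0, dif_pos h1, hr0, hr1, hs0, hs1]
  simp only [Finset.sum_range_succ, Finset.sum_range_zero, jump_comp_coface]
  have a0 : toChain (jump (Function.update ![2, 2] 0 ((![2, 2] : Fin 2 → ℕ) 0 - 1)) L L'
      (Function.update ![1, 2] 0 (if (![1, 2] : Fin 2 → ℕ) 0 ≤ 0 then (![1, 2] : Fin 2 → ℕ) 0
        else (![1, 2] : Fin 2 → ℕ) 0 - 1))
      (Function.update ![2, 1] 0 (if (![2, 1] : Fin 2 → ℕ) 0 ≤ 0 then (![2, 1] : Fin 2 → ℕ) 0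
        else (![2, 1] : Fin 2 → ℕ) 0 - 1))) = 0 := by
    apply toChain_eq_zero_of_not_full
    apply not_full_of_zero (i := 0)
    · simp
    · intro l hl; fin_cases l <;> simp at hl ⊢
    · exact hLb
  have a1 : toChain (jump (Function.update ![2, 2] 0 ((![2, 2] : Fin 2 → ℕ) 0 - 1)) L L'
      (Function.update ![1, 2] 0 (if (![1, 2] : Fin 2 → ℕ) 0 ≤ 1 then (![1, 2] : Fin 2 → ℕ) 0
        else (![1, 2] : Fin 2 → ℕ) 0 - 1))
      (Function.update ![2, 1] 0 (if (![2, 1] : Fin 2 → ℕ) 0 ≤ 1 then (![2, 1] : Fin 2 → ℕ) 0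
        else (![2, 1] : Fin 2 → ℕ) 0 - 1))) = flagA L' := by
    rw [flagA, jump_swap]
    rw [← jump_indep ![1, 2] L' L L' (β := ![1, 1]) (β' := ![1, 2])
      (by intro l; fin_cases l <;> simp)]
    apply toChain_jump_congr
    · funext l; fin_cases l <;> simp
    · funext l; fin_cases l <;> simp
    · funext l; fin_cases l <;> simp
  have a2 : toChain (jump (Function.update ![2, 2] 0 ((![2, 2] : Fin 2 → ℕ) 0 - 1)) L L'
      (Function.update ![1, 2] 0 (if (![1, 2] : Fin 2 → ℕ) 0 ≤ 2 then (![1, 2] : Fin 2 → ℕ) 0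
        else (![1, 2] : Fin 2 → ℕ) 0 - 1))
      (Function.update ![2, 1] 0 (if (![2, 1] : Fin 2 → ℕ) 0 ≤ 2 then (![2, 1] : Fin 2 → ℕ) 0
        else (![2, 1] : Fin 2 → ℕ) 0 - 1))) = 0 := by
    apply toChain_eq_zero_of_not_full
    rw [jump_swap]
    apply not_full_of_not_le
    · intro h
      have := h 0
      simp at this
    · exact hL
  have b0 : toChain (jump (Function.update ![2, 2] 1 ((![2, 2] : Fin 2 → ℕ) 1 - 1)) L L'
      (Function.update ![1, 2] 1 (if (![1, 2] : Fin 2 → ℕ) 1 ≤ 0 then (![1, 2] : Fin 2 → ℕ) 1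
        else (![1, 2] : Fin 2 → ℕ) 1 - 1))
      (Function.update ![2, 1] 1 (if (![2, 1] : Fin 2 → ℕ) 1 ≤ 0 then (![2, 1] : Fin 2 → ℕ) 1
        else (![2, 1] : Fin 2 → ℕ) 1 - 1))) = 0 := by
    apply toChain_eq_zero_of_not_full
    rw [jump_swap]
    apply not_full_of_zero (i := 1)
    · simp
    · intro l hl; fin_cases l <;> simp at hl ⊢
    · exact hLb'
  have b1 : toChain (jump (Function.update ![2, 2] 1 ((![2, 2] : Fin 2 → ℕ) 1 - 1)) L L'
      (Function.update ![1, 2] 1 (if (![1, 2] : Fin 2 → ℕ) 1 ≤ 1 then (![1, 2] : Fin 2 → ℕ) 1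
        else (![1, 2] : Fin 2 → ℕ) 1 - 1))
      (Function.update ![2, 1] 1 (if (![2, 1] : Fin 2 → ℕ) 1 ≤ 1 then (![2, 1] : Fin 2 → ℕ) 1
        else (![2, 1] : Fin 2 → ℕ) 1 - 1))) = flagB L := by
    rw [flagB]
    rw [← jump_indep ![2, 1] L L' L (β := ![1, 1]) (β' := ![2, 1])
      (by intro l; fin_cases l <;> simp)]
    apply toChain_jump_congr
    · funext l; fin_cases l <;> simp
    · funext l; fin_cases l <;> simp
    · funext l; fin_cases l <;> simp
  have b2 : toChain (jump (Function.update ![2, 2] 1 ((![2, 2] : Fin 2 → ℕ) 1 - 1)) L L'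
      (Function.update ![1, 2] 1 (if (![1, 2] : Fin 2 → ℕ) 1 ≤ 2 then (![1, 2] : Fin 2 → ℕ) 1
        else (![1, 2] : Fin 2 → ℕ) 1 - 1))
      (Function.update ![2, 1] 1 (if (![2, 1] : Fin 2 → ℕ) 1 ≤ 2 then (![2, 1] : Fin 2 → ℕ) 1
        else (![2, 1] : Fin 2 → ℕ) 1 - 1))) = 0 := by
    apply toChain_eq_zero_of_not_full
    apply not_full_of_not_le
    · intro h
      have := h 1
      simp at this
    · exact hL'
  rw [a0, a1, a2, b0, b1, b2]
  simp
  abel

theorem bdry_constChain {L L' : Summand R M} (hc : IsCompl L.1 L'.1) (hL : L.1 ≠ ⊤)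
    (hL' : L'.1 ≠ ⊤) : bdry R M 2 (constChain L) = -flagA L - flagB L := by
  have hLb : L.1 ≠ ⊥ := ne_bot_of_isCompl hc hL'
  have hLb' : L'.1 ≠ ⊥ := ne_bot_of_isCompl hc.symm hL
  have hcst : constChain L = toChain (jump ![2, 2] L L' ![1, 1] ![2, 2]) := by
    rw [constChain, jump_indep ![2, 2] L L L' (β := ![1, 1]) (β' := ![2, 2])
      (by intro l; fin_cases l <;> simp)]
  have hfull : IsFull (jump ![2, 2] L L' ![1, 1] ![2, 2]) := by
    apply jump_isFull
    · intro i; fin_cases i <;> simp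
    · intro i; fin_cases i <;> simp
    · intro i; fin_cases i <;> simp
    · intro i; fin_cases i <;> simp
  have h0 : 1 ≤ (![2, 2] : Fin 2 → ℕ) 0 := by simp
  have h1 : 1 ≤ (![2, 2] : Fin 2 → ℕ) 1 := by simp
  have hr0 : Finset.range ((![2, 2] : Fin 2 → ℕ) 0 + 1) = Finset.range 3 := rfl
  have hr1 : Finset.range ((![2, 2] : Fin 2 → ℕ) 1 + 1) = Finset.range 3 := rfl
  have hs0 : (∑ l ∈ Finset.univ.filter (· < (0 : Fin 2)), (![2, 2] : Fin 2 → ℕ) l) = 0 := by
    decide
  have hs1 : (∑ l ∈ Finset.univ.filter (· < (1 : Fin 2)), (![2, 2] : Fin 2 → ℕ) l) = 2 := by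
    decide
  rw [hcst, bdry_toChain ⟨jump_isLattice _ hc _ _, hfull⟩, Fin.sum_univ_two,
    dif_pos h0, dif_pos h1, hr0, hr1, hs0, hs1]
  simp only [Finset.sum_range_succ, Finset.sum_range_zero, jump_comp_coface]
  have a0 : toChain (jump (Function.update ![2, 2] 0 ((![2, 2] : Fin 2 → ℕ) 0 - 1)) L L'
      (Function.update ![1, 1] 0 (if (![1, 1] : Fin 2 → ℕ) 0 ≤ 0 then (![1, 1] : Fin 2 → ℕ) 0
        else (![1, 1] : Fin 2 → ℕ) 0 - 1))
      (Function.update ![2, 2] 0 (if (![2, 2] : Fin 2 → ℕ) 0 ≤ 0 then (![2, 2] : Fin 2 → ℕ) 0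
        else (![2, 2] : Fin 2 → ℕ) 0 - 1))) = 0 := by
    apply toChain_eq_zero_of_not_full
    apply not_full_of_zero (i := 0)
    · simp
    · intro l hl; fin_cases l <;> simp at hl ⊢
    · exact hLb
  have a1 : toChain (jump (Function.update ![2, 2] 0 ((![2, 2] : Fin 2 → ℕ) 0 - 1)) L L'
      (Function.update ![1, 1] 0 (if (![1, 1] : Fin 2 → ℕ) 0 ≤ 1 then (![1, 1] : Fin 2 → ℕ) 0
        else (![1, 1] : Fin 2 → ℕ) 0 - 1))
      (Function.update ![2, 2] 0 (if (![2, 2] : Fin 2 → ℕ) 0 ≤ 1 then (![2, 2] : Fin 2 → ℕ) 0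
        else (![2, 2] : Fin 2 → ℕ) 0 - 1))) = flagA L := by
    rw [flagA]
    rw [← jump_indep ![1, 2] L L' L (β := ![1, 1]) (β' := ![1, 2])
      (by intro l; fin_cases l <;> simp)]
    apply toChain_jump_congr
    · funext l; fin_cases l <;> simp
    · funext l; fin_cases l <;> simp
    · funext l; fin_cases l <;> simp
  have a2 : toChain (jump (Function.update ![2, 2] 0 ((![2, 2] : Fin 2 → ℕ) 0 - 1)) L L'
      (Function.update ![1, 1] 0 (if (![1, 1] : Fin 2 → ℕ) 0 ≤ 2 then (![1, 1] : Fin 2 → ℕ) 0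
        else (![1, 1] : Fin 2 → ℕ) 0 - 1))
      (Function.update ![2, 2] 0 (if (![2, 2] : Fin 2 → ℕ) 0 ≤ 2 then (![2, 2] : Fin 2 → ℕ) 0
        else (![2, 2] : Fin 2 → ℕ) 0 - 1))) = 0 := by
    apply toChain_eq_zero_of_not_full
    rw [jump_swap]
    apply not_full_of_not_le
    · intro h
      have := h 0
      simp at this
    · exact hL
  have b0 : toChain (jump (Function.update ![2, 2] 1 ((![2, 2] : Fin 2 → ℕ) 1 - 1)) L L'
      (Function.update ![1, 1] 1 (if (![1, 1] : Fin 2 → ℕ) 1 ≤ 0 then (![1, 1] : Fin 2 → ℕ) 1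
        else (![1, 1] : Fin 2 → ℕ) 1 - 1))
      (Function.update ![2, 2] 1 (if (![2, 2] : Fin 2 → ℕ) 1 ≤ 0 then (![2, 2] : Fin 2 → ℕ) 1
        else (![2, 2] : Fin 2 → ℕ) 1 - 1))) = 0 := by
    apply toChain_eq_zero_of_not_full
    apply not_full_of_zero (i := 1)
    · simp
    · intro l hl; fin_cases l <;> simp at hl ⊢
    · exact hLb
  have b1 : toChain (jump (Function.update ![2, 2] 1 ((![2, 2] : Fin 2 → ℕ) 1 - 1)) L L'
      (Function.update ![1, 1] 1 (if (![1, 1] : Fin 2 → ℕ) 1 ≤ 1 then (![1, 1] : Fin 2 → ℕ) 1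
        else (![1, 1] : Fin 2 → ℕ) 1 - 1))
      (Function.update ![2, 2] 1 (if (![2, 2] : Fin 2 → ℕ) 1 ≤ 1 then (![2, 2] : Fin 2 → ℕ) 1
        else (![2, 2] : Fin 2 → ℕ) 1 - 1))) = flagB L := by
    rw [flagB]
    rw [← jump_indep ![2, 1] L L' L (β := ![1, 1]) (β' := ![2, 1])
      (by intro l; fin_cases l <;> simp)]
    apply toChain_jump_congr
    · funext l; fin_cases l <;> simp
    · funext l; fin_cases l <;> simp
    · funext l; fin_cases l <;> simp
  have b2 : toChain (jump (Function.update ![2, 2] 1 ((![2, 2] : Fin 2 → ℕ) 1 - 1)) L L'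
      (Function.update ![1, 1] 1 (if (![1, 1] : Fin 2 → ℕ) 1 ≤ 2 then (![1, 1] : Fin 2 → ℕ) 1
        else (![1, 1] : Fin 2 → ℕ) 1 - 1))
      (Function.update ![2, 2] 1 (if (![2, 2] : Fin 2 → ℕ) 1 ≤ 2 then (![2, 2] : Fin 2 → ℕ) 1
        else (![2, 2] : Fin 2 → ℕ) 1 - 1))) = 0 := by
    apply toChain_eq_zero_of_not_full
    rw [jump_swap]
    apply not_full_of_not_le
    · intro h
      have := h 1
      simp at this
    · exact hL
  rw [a0, a1, a2, b0, b1, b2]
  simp
  abel

theorem ev_jump {p : Fin k → ℕ} (L L' : Summand R M) (β β' : Fin k → ℕ) {a : Fin k → ℕ}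
    (ha : a ≤ p) : ev (jump p L L' β β') a = jumpVal L.1 L'.1 (β ≤ a) (β' ≤ a) := by
  rw [ev_of_le _ ha, jump_val]

theorem mdTwo_zero_one : (![2, 2] : Fin 2 → ℕ) = mdTwo 0 1 := by
  funext l; fin_cases l <;> simp [mdTwo]

theorem cochain_mixedChain (f : Submodule R M → Submodule R M → ℝ) {L L' : Summand R M}
    (hc : IsCompl L.1 L'.1) : cochain (alphaTwo f) (mixedChain L L') = -f L.1 L'.1 := by
  have hfull : IsFull (jump ![2, 2] L L' ![1, 2] ![2, 1]) := by
    apply jump_isFull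
    · intro i; fin_cases i <;> simp
    · intro i; fin_cases i <;> simp
    · intro i; fin_cases i <;> simp
    · intro i; fin_cases i <;> simp
  rw [mixedChain, cochain_toChain_full _ (jump_isLattice _ hc _ _) hfull,
    alphaTwo_eq f _ (i := 0) (j := 1) (by decide) mdTwo_zero_one, ev_jump, ev_jump]
  · have e1 : ((![1, 2] : Fin 2 → ℕ) ≤ Function.update ![2, 2] 0 1) := by
      intro l; fin_cases l <;> simp
    have e2 : ¬ ((![2, 1] : Fin 2 → ℕ) ≤ Function.update ![2, 2] 0 1) := by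
      intro h; have := h 0; simp at this
    have e3 : ¬ ((![1, 2] : Fin 2 → ℕ) ≤ Function.update ![2, 2] 1 1) := by
      intro h; have := h 1; simp at this
    have e4 : ((![2, 1] : Fin 2 → ℕ) ≤ Function.update ![2, 2] 1 1) := by
      intro l; fin_cases l <;> simp
    simp only [jumpVal, if_pos e1, if_neg e2, if_neg e3, if_pos e4]
    simp
  · intro l; fin_cases l <;> simp
  · intro l; fin_cases l <;> simp

theorem cochain_constChain (f : Submodule R M → Submodule R M → ℝ) {L L' : Summand R M}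
    (hc : IsCompl L.1 L'.1) : cochain (alphaTwo f) (constChain L) = -f L.1 L.1 := by
  have hfull : IsFull (jump ![2, 2] L L' ![1, 1] ![2, 2]) := by
    apply jump_isFull
    · intro i; fin_cases i <;> simp
    · intro i; fin_cases i <;> simp
    · intro i; fin_cases i <;> simp
    · intro i; fin_cases i <;> simp
  have hcst : constChain L = toChain (jump ![2, 2] L L' ![1, 1] ![2, 2]) := by
    rw [constChain, jump_indep ![2, 2] L L L' (β := ![1, 1]) (β' := ![2, 2])
      (by intro l; fin_cases l <;> simp)]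
  rw [hcst, cochain_toChain_full _ (jump_isLattice _ hc _ _) hfull,
    alphaTwo_eq f _ (i := 0) (j := 1) (by decide) mdTwo_zero_one, ev_jump, ev_jump]
  · have e1 : ((![1, 1] : Fin 2 → ℕ) ≤ Function.update ![2, 2] 0 1) := by
      intro l; fin_cases l <;> simp
    have e2 : ¬ ((![2, 2] : Fin 2 → ℕ) ≤ Function.update ![2, 2] 0 1) := by
      intro h; have := h 0; simp at this
    have e3 : ((![1, 1] : Fin 2 → ℕ) ≤ Function.update ![2, 2] 1 1) := by
      intro l; fin_cases l <;> simp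
    have e4 : ¬ ((![2, 2] : Fin 2 → ℕ) ≤ Function.update ![2, 2] 1 1) := by
      intro h; have := h 1; simp at this
    simp only [jumpVal, if_pos e1, if_neg e2, if_pos e3, if_neg e4]
    simp
  · intro l; fin_cases l <;> simp
  · intro l; fin_cases l <;> simp

theorem mixedChain_degree (L L' : Summand R M) : mixedChain L L' ∈ DegreeChains R M 2 4 :=
  mem_degreeChains_toChain _ (by simp)

theorem constChain_degree (L : Summand R M) : constChain L ∈ DegreeChains R M 2 4 :=
  mem_degreeChains_toChain _ (by simp)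

/-- The cycle of a closed path of four lines. -/
def squareCycle (A B C D : Summand R M) : Chains R M 2 :=
  (mixedChain A B - constChain A) + (mixedChain B C - constChain B) +
    (mixedChain C D - constChain C) + (mixedChain D A - constChain D)

theorem squareCycle_mem {A B C D : Summand R M} (hAB : IsCompl A.1 B.1)
    (hBC : IsCompl B.1 C.1) (hCD : IsCompl C.1 D.1) (hDA : IsCompl D.1 A.1)
    (hA : A.1 ≠ ⊤) (hB : B.1 ≠ ⊤) (hC : C.1 ≠ ⊤) (hD : D.1 ≠ ⊤) :
    squareCycle A B C D ∈ Cycles R M 2 4 := by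
  refine ⟨?_, ?_⟩
  · have h1 := mixedChain_degree A B
    have h2 := mixedChain_degree B C
    have h3 := mixedChain_degree C D
    have h4 := mixedChain_degree D A
    have h5 := AddSubgroup.sub_mem _ h1 (constChain_degree A)
    have h6 := AddSubgroup.sub_mem _ h2 (constChain_degree B)
    have h7 := AddSubgroup.sub_mem _ h3 (constChain_degree C)
    have h8 := AddSubgroup.sub_mem _ h4 (constChain_degree D)
    exact AddSubgroup.add_mem _ (AddSubgroup.add_mem _ (AddSubgroup.add_mem _ h5 h6) h7) h8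
  · change bdry R M 2 (squareCycle A B C D) = 0
    rw [squareCycle]
    simp only [map_add, map_sub]
    rw [bdry_mixedChain hAB hA hB, bdry_mixedChain hBC hB hC, bdry_mixedChain hCD hC hD,
      bdry_mixedChain hDA hD hA, bdry_constChain hAB hA hB, bdry_constChain hBC hB hC,
      bdry_constChain hCD hC hD, bdry_constChain hDA hD hA]
    abel

end general

section rankTwo

variable {R : Type u} [CommRing R] [IsDomain R]

/-- A quasi-invariant function of two lines which is not balanced on some closed path of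
length four forces an element of infinite order. -/
theorem exists_infinite_order_of_square
    (f : Submodule R (Fin 2 → R) → Submodule R (Fin 2 → R) → ℝ) (hf0 : OnCompl f)
    (hf : ∀ P Q, f Q P = -f P Q) (hq : QuasiInvariant f)
    {A B C D : Submodule R (Fin 2 → R)} (hAB : IsCompl A B)
    (hBC : IsCompl B C) (hCD : IsCompl C D) (hDA : IsCompl D A)
    (hA : A ≠ ⊤) (hB : B ≠ ⊤) (hC : C ≠ ⊤) (hD : D ≠ ⊤)
    (hne : f A B + f B C + f C D + f D A ≠ 0) :
    ∃ x : StableCoinvariants R (Fin 2 → R) 2, ∀ n : ℕ, 0 < n → n • x ≠ 0 := by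
  let A' : Summand R (Fin 2 → R) := ⟨A, B, hAB⟩
  let B' : Summand R (Fin 2 → R) := ⟨B, C, hBC⟩
  let C' : Summand R (Fin 2 → R) := ⟨C, D, hCD⟩
  let D' : Summand R (Fin 2 → R) := ⟨D, A, hDA⟩
  apply exists_infinite_order f hf0 hf hq 1 (squareCycle A' B' C' D')
    (squareCycle_mem hAB hBC hCD hDA hA hB hC hD)
  have hAB' : IsCompl A'.1 B'.1 := hAB
  have hBC' : IsCompl B'.1 C'.1 := hBC
  have hCD' : IsCompl C'.1 D'.1 := hCD
  have hDA' : IsCompl D'.1 A'.1 := hDA
  rw [squareCycle]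
  simp only [map_add, map_sub]
  rw [cochain_mixedChain f hAB', cochain_mixedChain f hBC', cochain_mixedChain f hCD',
    cochain_mixedChain f hDA', cochain_constChain f hAB', cochain_constChain f hBC',
    cochain_constChain f hCD', cochain_constChain f hDA', hf0.self, hf0.self, hf0.self,
    hf0.self]
  change -f A B - -0 + (-f B C - -0) + (-f C D - -0) + (-f D A - -0) ≠ 0
  intro h
  apply hne
  linarith

end rankTwo

end

end Pool.Agent.Lib.Helper86.StableBuilding
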