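import Mathlib

/-!
# The stable building `D(M)`

Lattices in the sense of Rognes, the `k`-fold simplicial pointed sets `D^k(M)`, and their reduced
chain complexes.  The reduced homology of the realisation of `D^k(M)` is computed by the total
complex of the reduced chains (the basepoint is `0`).
-/

set_option autoImplicit false

namespace Pool.Agent.Lib.Helper86.StableBuilding

noncomputable section

universe u v w x

section generic

variable {A : Type u} [AddCommGroup A] {B : Type v} [AddCommGroup B]

/-- The quotient `Z / (Z ∩ S)` of subgroups `Z` and `S` of an abelian group. -/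
def SubQuot (Z S : AddSubgroup A) : Type u := Z ⧸ S.addSubgroupOf Z

/-- The group structure. -/
instance SubQuot.instAddCommGroup (Z S : AddSubgroup A) : AddCommGroup (SubQuot Z S) :=
  QuotientAddGroup.Quotient.addCommGroup (S.addSubgroupOf Z)

/-- The restriction of a homomorphism to subgroups. -/
def restrictHom (f : A →+ B) (Z : AddSubgroup A) (Z' : AddSubgroup B)
    (h : ∀ x ∈ Z, f x ∈ Z') : Z →+ Z' :=
  (f.comp Z.subtype).codRestrict Z' (fun x => h x.1 x.2)

/-- The map of quotients induced by a homomorphism that respects the subgroups. -/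
def SubQuot.map (f : A →+ B) {Z S : AddSubgroup A} {Z' S' : AddSubgroup B}
    (hZ : ∀ x ∈ Z, f x ∈ Z') (hS : ∀ x ∈ S, f x ∈ S') : SubQuot Z S →+ SubQuot Z' S' :=
  QuotientAddGroup.map (S.addSubgroupOf Z) (S'.addSubgroupOf Z') (restrictHom f Z Z' hZ)
    (fun x hx => hS x.1 hx)

/-- The coinvariants of a family of endomorphisms of an abelian group: the quotient by the
subgroup generated by all `g x - x`. -/
def Coinvariants {G : Type w} (ρ : G → A →+ A) : Type u :=
  A ⧸ AddSubgroup.closure {y | ∃ (g : G) (x : A), y = ρ g x - x}

/-- The group structure. -/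
instance Coinvariants.instAddCommGroup {G : Type w} (ρ : G → A →+ A) :
    AddCommGroup (Coinvariants ρ) :=
  QuotientAddGroup.Quotient.addCommGroup
    (AddSubgroup.closure {y | ∃ (g : G) (x : A), y = ρ g x - x})

end generic

section colim

variable {R : Type u} [CommRing R] {M : Type v} [AddCommGroup M] [Module R M]
  {J : Type w} [Preorder J]

theorem le_of_monotone {N : J → Submodule R M} (hN : Monotone N) (c d : J) (h : c ≤ d) :
    N c ≤ N d := hN h

/-- The inclusion `N c → N d` for `c ≤ d`. -/
def transition (N : J → Submodule R M) (hN : Monotone N) (c d : J) (h : c ≤ d) :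
    N c →ₗ[R] N d := Submodule.inclusion (le_of_monotone hN c d h)

open Classical in
/-- The colimit, in `R`-modules, of a diagram of submodules of `M` and inclusions, indexed by a
preorder `J`. -/
def Colim (N : J → Submodule R M) (hN : Monotone N) : Type (max w v) :=
  Module.DirectLimit (fun c : J => N c) (transition N hN)

open Classical in
/-- The group structure. -/
instance (N : J → Submodule R M) (hN : Monotone N) : AddCommGroup (Colim N hN) :=
  Module.DirectLimit.addCommGroup (fun c : J => N c) (transition N hN)

open Classical in
/-- The module structure. -/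
instance (N : J → Submodule R M) (hN : Monotone N) : Module R (Colim N hN) :=
  Module.DirectLimit.module (fun c : J => N c) (transition N hN)

open Classical in
/-- The universal property: the map out of the colimit given by compatible maps. -/
def Colim.lift (N : J → Submodule R M) (hN : Monotone N) {P : Type x} [AddCommGroup P]
    [Module R P] (g : ∀ c, N c →ₗ[R] P)
    (hg : ∀ c d (h : c ≤ d) (x : N c), g d (transition N hN c d h x) = g c x) :
    Colim N hN →ₗ[R] P :=
  Module.DirectLimit.lift R J (fun c : J => N c) (transition N hN) g hg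

/-- The canonical map from the colimit to a submodule that contains all the submodules of the
diagram. -/
def Colim.toSubmodule (N : J → Submodule R M) (hN : Monotone N) (P : Submodule R M)
    (hP : ∀ c, N c ≤ P) : Colim N hN →ₗ[R] P :=
  Colim.lift N hN (fun c => Submodule.inclusion (hP c)) (fun _ _ _ _ => rfl)

end colim

/-- `Sub(M)`: the submodules of `M` that are direct summands. -/
@[ext] structure Summand (R : Type u) [CommRing R] (M : Type v) [AddCommGroup M] [Module R M] :
    Type v where
  /-- the submodule -/
  val : Submodule R M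
  /-- it is a direct summand -/
  isSummand : ∃ Q : Submodule R M, IsCompl val Q

/-- `Sub(M)` is ordered by inclusion. -/
instance (R : Type u) [CommRing R] (M : Type v) [AddCommGroup M] [Module R M] :
    PartialOrder (Summand R M) :=
  PartialOrder.lift Summand.val (fun _ _ => Summand.ext)

/-- The poset `[p_1] × ⋯ × [p_k]`: the tuples `a` of natural numbers with `a_i ≤ p_i`. -/
@[ext] structure Grid {k : ℕ} (p : Fin k → ℕ) : Type where
  /-- the tuple -/
  val : Fin k → ℕ
  /-- it is bounded by `p` -/
  le : val ≤ p

/-- The product order. -/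
instance {k : ℕ} (p : Fin k → ℕ) : PartialOrder (Grid p) :=
  PartialOrder.lift Grid.val (fun _ _ => Grid.ext)

/-- The punctured cube `([a_1 ≤ b_1] × ⋯ × [a_k ≤ b_k]) ∖ {b}`. -/
@[ext] structure PuncturedCube {k : ℕ} {p : Fin k → ℕ} (a b : Grid p) : Type where
  /-- the vertex -/
  val : Grid p
  /-- it is a vertex of the cube -/
  vertex : ∀ i, val.val i = a.val i ∨ val.val i = b.val i
  /-- it is not the last vertex -/
  ne : val ≠ b

/-- The order induced by the product order. -/
instance {k : ℕ} {p : Fin k → ℕ} (a b : Grid p) : Preorder (PuncturedCube a b) :=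
  Preorder.lift PuncturedCube.val

section

variable {R : Type u} [CommRing R] {M : Type v} [AddCommGroup M] [Module R M] {k : ℕ}
  {p : Fin k → ℕ}

/-- The submodules `φ(c)`, for `c` in the punctured cube. -/
def cubeFam (φ : Grid p →o Summand R M) (a b : Grid p) (c : PuncturedCube a b) :
    Submodule R M := (φ c.1).1

theorem cubeFam_mono (φ : Grid p →o Summand R M) (a b : Grid p) : Monotone (cubeFam φ a b) :=
  fun _ _ h => φ.monotone h

theorem PuncturedCube.le {a b : Grid p} (hab : a ≤ b) (c : PuncturedCube a b) : c.1 ≤ b := by
  intro i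
  rcases c.vertex i with h | h
  · rw [h]; exact hab i
  · rw [h]

theorem cubeFam_le (φ : Grid p →o Summand R M) {a b : Grid p} (hab : a ≤ b)
    (c : PuncturedCube a b) : cubeFam φ a b c ≤ (φ b).1 :=
  φ.monotone (PuncturedCube.le hab c)

/-- The canonical map into `φ(b)` out of the colimit of `φ` over the punctured cube. -/
def cubeMap (φ : Grid p →o Summand R M) (a b : Grid p) (hab : a ≤ b) :
    Colim (cubeFam φ a b) (cubeFam_mono φ a b) →ₗ[R] (φ b).1 :=
  Colim.toSubmodule (cubeFam φ a b) (cubeFam_mono φ a b) (φ b).1 (cubeFam_le φ hab)

/-- A linear map is a monomorphism whose image is a direct summand. -/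
def IsSplitMono {A : Type w} [AddCommGroup A] [Module R A] {B : Type x} [AddCommGroup B]
    [Module R B] (f : A →ₗ[R] B) : Prop :=
  Function.Injective f ∧ ∃ Q : Submodule R B, IsCompl (LinearMap.range f) Q

/-- A functor `φ : [p_1] × ⋯ × [p_k] → Sub(M)` is a lattice if for all `a ≤ b` the canonical map
into `φ(b)` out of the colimit over the punctured cube is a monomorphism whose image is a direct
summand. -/
def IsLattice (φ : Grid p →o Summand R M) : Prop :=
  ∀ (a b : Grid p) (hab : a ≤ b), IsSplitMono (cubeMap φ a b hab)

/-- `φ` is full if `φ(a) = 0` whenever some `a_i = 0`, and `φ(p_1, …, p_k) = M`. -/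
def IsFull (φ : Grid p →o Summand R M) : Prop :=
  (∀ a : Grid p, (∃ i, a.1 i = 0) → (φ a).1 = ⊥) ∧ (φ ⟨p, le_rfl⟩).1 = ⊤

end

section

variable (R : Type u) [CommRing R] (M : Type v) [AddCommGroup M] [Module R M]

/-- The simplices of `D^k(M)` other than the basepoint, of all multidegrees `p`: the full
lattices. -/
structure FullLattice (k : ℕ) : Type v where
  /-- the multidegree -/
  p : Fin k → ℕ
  /-- the functor -/
  φ : Grid p →o Summand R M
  /-- it is a lattice -/
  isLattice : IsLattice φ
  /-- it is full -/
  isFull : IsFull φ

/-- Reduced chains of `D^k(M)`: the free abelian group on the simplices other than the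
basepoint. -/
def Chains (k : ℕ) : Type v := FullLattice R M k →₀ ℤ

/-- The group structure. -/
instance (k : ℕ) : AddCommGroup (Chains R M k) :=
  (Finsupp.instAddCommGroup : AddCommGroup (FullLattice R M k →₀ ℤ))

end

section

variable {R : Type u} [CommRing R] {M : Type v} [AddCommGroup M] [Module R M] {k : ℕ}
  {p : Fin k → ℕ}

/-- A simplex as a chain. -/
def simplex (s : FullLattice R M k) : Chains R M k := Finsupp.single s 1

/-- The additive extension to chains of a function on simplices. -/
def extend {A : Type w} [AddCommGroup A] (f : FullLattice R M k → A) : Chains R M k →+ A :=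
  Finsupp.liftAddHom (fun s => zmultiplesHom A (f s))

open Classical in
/-- The reduced chain given by a functor `φ`: the simplex `φ` if `φ` is a full lattice, and `0`
(the basepoint) if it is not. -/
def toChain (φ : Grid p →o Summand R M) : Chains R M k :=
  if h : IsLattice φ ∧ IsFull φ then simplex ⟨p, φ, h.1, h.2⟩ else 0

/-- The coface `δ_j` in the `i`-th direction: the increasing map
`[p_1] × ⋯ × [p_i - 1] × ⋯ × [p_k] → [p_1] × ⋯ × [p_i] × ⋯ × [p_k]` that is the identity in the
directions other than `i` and omits the value `j` in direction `i`. -/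
def coface (p : Fin k → ℕ) (i : Fin k) (hi : 1 ≤ p i) (j : ℕ) :
    Grid (Function.update p i (p i - 1)) →o Grid p where
  toFun a := ⟨Function.update a.1 i (if a.1 i < j then a.1 i else a.1 i + 1), by
    intro l
    by_cases h : l = i
    · subst h
      have h1 : a.1 l ≤ p l - 1 := (a.2 l).trans_eq (Function.update_self ..)
      change Function.update a.1 l _ l ≤ p l
      rw [Function.update_self]
      split_ifs <;> omega
    · change Function.update a.1 i _ l ≤ p l
      rw [Function.update_of_ne h]
      exact (a.2 l).trans_eq (Function.update_of_ne h ..)⟩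
  monotone' a b hab := by
    intro l
    have h0 := hab l
    by_cases h : l = i
    · subst h
      change Function.update a.1 l _ l ≤ Function.update b.1 l _ l
      rw [Function.update_self, Function.update_self]
      have h1 : a.1 l ≤ b.1 l := h0
      split_ifs <;> omega
    · change Function.update a.1 i _ l ≤ Function.update b.1 i _ l
      rw [Function.update_of_ne h, Function.update_of_ne h]
      exact h0

/-- The boundary of a simplex in the total complex: the faces in direction `i` get the sign
`(-1)^(p_1 + ⋯ + p_(i-1))` times the simplicial sign. -/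
def bdrySimplex (s : FullLattice R M k) : Chains R M k :=
  ∑ i : Fin k, if hi : 1 ≤ s.p i then
    (-1 : ℤ) ^ (∑ l ∈ Finset.univ.filter (· < i), s.p l) •
      ∑ j ∈ Finset.range (s.p i + 1), (-1 : ℤ) ^ j • toChain (s.φ.comp (coface s.p i hi j))
    else 0

/-- The projection `[1] × [p_1] × ⋯ × [p_k] → [p_1] × ⋯ × [p_k]`. -/
def tailGrid (a : Grid (Fin.cons 1 p : Fin (k + 1) → ℕ)) : Grid p :=
  ⟨fun i => a.1 i.succ, fun i => by
    have h := a.2 i.succ
    rwa [Fin.cons_succ] at h⟩

/-- The functor `φ'` with `φ'(0, a) = 0` and `φ'(1, a) = φ(a)`. -/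
def suspend (φ : Grid p →o Summand R M) :
    Grid (Fin.cons 1 p : Fin (k + 1) → ℕ) →o Summand R M where
  toFun a := if a.1 0 = 0 then ⟨⊥, ⊤, isCompl_bot_top⟩ else φ (tailGrid a)
  monotone' a b hab := by
    beta_reduce
    have h0 : a.1 0 ≤ b.1 0 := hab 0
    by_cases ha : a.1 0 = 0
    · rw [if_pos ha]
      exact (bot_le : (⊥ : Submodule R M) ≤ _)
    · have hb : b.1 0 ≠ 0 := by omega
      rw [if_neg ha, if_neg hb]
      exact φ.monotone fun i => hab i.succ

end

section

variable (R : Type u) [CommRing R] (M : Type v) [AddCommGroup M] [Module R M]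

/-- The differential of the reduced total chain complex of `D^k(M)`. -/
def bdry (k : ℕ) : Chains R M k →+ Chains R M k := extend bdrySimplex

/-- The chains of total degree `m`. -/
def DegreeChains (k m : ℕ) : AddSubgroup (Chains R M k) :=
  AddSubgroup.closure {x | ∃ s : FullLattice R M k, ∑ i, s.p i = m ∧ x = simplex s}

/-- The cycles of total degree `m`. -/
def Cycles (k m : ℕ) : AddSubgroup (Chains R M k) :=
  DegreeChains R M k m ⊓ (bdry R M k).ker

/-- The boundaries of total degree `m`. -/
def Boundaries (k m : ℕ) : AddSubgroup (Chains R M k) :=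
  (DegreeChains R M k (m + 1)).map (bdry R M k)

/-- The reduced homology `H̃_m(D^k(M); ℤ)`. -/
def Homology (k m : ℕ) : Type v := SubQuot (Cycles R M k m) (Boundaries R M k m)

/-- The group structure. -/
instance (k m : ℕ) : AddCommGroup (Homology R M k m) :=
  SubQuot.instAddCommGroup (Cycles R M k m) (Boundaries R M k m)

/-- The map induced on chains by `φ ↦ φ'`. -/
def suspChains (k : ℕ) : Chains R M k →+ Chains R M (k + 1) :=
  extend (fun s => toChain (suspend s.φ))

end

section

variable {R : Type u} [CommRing R] {M : Type v} [AddCommGroup M] [Module R M]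

/-- The action of `GL(M)` on `Sub(M)`. -/
def Summand.map (g : M ≃ₗ[R] M) : Summand R M →o Summand R M where
  toFun P := ⟨P.1.map g.toLinearMap, by
    obtain ⟨Q, hQ⟩ := P.2
    exact ⟨Q.map g.toLinearMap, (Submodule.orderIsoMapComap g).isCompl_iff.1 hQ⟩⟩
  monotone' _ _ h := Submodule.map_mono h

/-- The action of `GL(M)` on chains. -/
def mapChains (g : M ≃ₗ[R] M) (k : ℕ) : Chains R M k →+ Chains R M k :=
  extend (fun s => toChain ((Summand.map g).comp s.φ))

end

end

end Pool.Agent.Lib.Helper86.StableBuilding
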