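import Mathlib

/-!
# `F[X][1/p]` is a Euclidean domain, for `p` irreducible
-/

set_option autoImplicit false

namespace Pool.Agent.Lib.Helper86.StableBuilding

noncomputable section

open Polynomial

universe u

variable {F : Type u} [Field F] (p : F[X])

/-- The ring `F[X][1/p]`. -/
abbrev PolyLoc (p : F[X]) : Type u := Localization.Away p

/-- The degrees of the non-zero polynomials in the ideal generated by `a`. -/
def degSet (a : PolyLoc p) : Set ℕ :=
  {n | ∃ f : F[X], f ≠ 0 ∧ algebraMap F[X] (PolyLoc p) f ∈ Ideal.span {a} ∧ f.natDegree = n}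

open Classical in
/-- The Euclidean size. -/
def size (a : PolyLoc p) : ℕ := if a = 0 then 0 else sInf (degSet p a) + 1

theorem exists_numerator (a : PolyLoc p) : ∃ (k : ℕ) (h : F[X]),
    a * algebraMap F[X] (PolyLoc p) (p ^ k) = algebraMap F[X] (PolyLoc p) h := by
  obtain ⟨⟨h, s⟩, hs⟩ := IsLocalization.surj (Submonoid.powers p) a
  obtain ⟨k, hk⟩ := s.2
  refine ⟨k, h, ?_⟩
  have hk' : p ^ k = (s : F[X]) := hk
  rw [hk']
  exact hs

variable {p} (hp : Irreducible p)

include hp

theorem polyLoc_injective : Function.Injective (algebraMap F[X] (PolyLoc p)) :=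
  IsLocalization.injective _ (powers_le_nonZeroDivisors_of_noZeroDivisors hp.ne_zero)

theorem polyLoc_isDomain : IsDomain (PolyLoc p) :=
  IsLocalization.isDomain_localization (powers_le_nonZeroDivisors_of_noZeroDivisors hp.ne_zero)

theorem degSet_nonempty {a : PolyLoc p} (ha : a ≠ 0) : (degSet p a).Nonempty := by
  obtain ⟨k, h, hk⟩ := exists_numerator p a
  refine ⟨h.natDegree, h, ?_, ?_, rfl⟩
  · rintro rfl
    rw [map_zero] at hk
    haveI := polyLoc_isDomain hp
    rcases mul_eq_zero.1 hk with h1 | h1
    · exact ha h1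
    · rw [← map_zero (algebraMap F[X] (PolyLoc p))] at h1
      exact pow_ne_zero k hp.ne_zero (polyLoc_injective hp h1)
  · rw [← hk]
    exact Ideal.mul_mem_right _ _ (Ideal.mem_span_singleton_self a)

theorem polyLoc_div (a : PolyLoc p) {b : PolyLoc p} (hb : b ≠ 0) :
    ∃ q r : PolyLoc p, b * q + r = a ∧ size p r < size p b := by
  haveI := polyLoc_isDomain hp
  obtain ⟨f, hf0, hfb, hfd⟩ := Nat.sInf_mem (degSet_nonempty hp hb)
  -- `p` does not divide `f`
  have hpf : ¬ p ∣ f := by
    rintro ⟨f', rfl⟩
    have hf'0 : f' ≠ 0 := right_ne_zero_of_mul hf0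
    have hmem : algebraMap F[X] (PolyLoc p) f' ∈ Ideal.span {b} := by
      have hu : IsUnit (algebraMap F[X] (PolyLoc p) p) :=
        IsLocalization.Away.algebraMap_isUnit p
      obtain ⟨u, hu⟩ := hu
      have : algebraMap F[X] (PolyLoc p) f' =
          (↑u⁻¹ : PolyLoc p) * algebraMap F[X] (PolyLoc p) (p * f') := by
        rw [map_mul, ← hu, ← mul_assoc, Units.inv_mul, one_mul]
      rw [this]
      exact Ideal.mul_mem_left _ _ hfb
    have hle : sInf (degSet p b) ≤ f'.natDegree := Nat.sInf_le ⟨f', hf'0, hmem, rfl⟩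
    rw [← hfd, natDegree_mul hp.ne_zero hf'0] at hle
    have := hp.natDegree_pos
    omega
  obtain ⟨k, h, hk⟩ := exists_numerator p a
  have hcop : IsCoprime (p ^ k) f := (hp.coprime_iff_not_dvd.2 hpf).pow_left
  obtain ⟨u, v, huv⟩ := hcop
  -- the remainder
  set g := (h * u) % f with hg
  have hga : a - algebraMap F[X] (PolyLoc p) g ∈ Ideal.span {b} := by
    have h1 : a - algebraMap F[X] (PolyLoc p) g =
        (a * algebraMap F[X] (PolyLoc p) v + algebraMap F[X] (PolyLoc p) ((h * u) / f)) *
          algebraMap F[X] (PolyLoc p) f := by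
      have h2 : a = a * algebraMap F[X] (PolyLoc p) (u * p ^ k + v * f) := by
        rw [huv, map_one, mul_one]
      have h3 : a * algebraMap F[X] (PolyLoc p) (u * p ^ k + v * f) =
          algebraMap F[X] (PolyLoc p) (h * u) +
            a * algebraMap F[X] (PolyLoc p) v * algebraMap F[X] (PolyLoc p) f := by
        rw [map_add, map_mul, map_mul, map_mul, ← hk]
        ring
      have h4 : h * u = f * ((h * u) / f) + g := (EuclideanDomain.div_add_mod _ _).symm
      calc a - algebraMap F[X] (PolyLoc p) g =
          algebraMap F[X] (PolyLoc p) (h * u) +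
            a * algebraMap F[X] (PolyLoc p) v * algebraMap F[X] (PolyLoc p) f -
            algebraMap F[X] (PolyLoc p) g := by rw [← h3, ← h2]
        _ = algebraMap F[X] (PolyLoc p) (f * ((h * u) / f) + g) +
            a * algebraMap F[X] (PolyLoc p) v * algebraMap F[X] (PolyLoc p) f -
            algebraMap F[X] (PolyLoc p) g := by rw [← h4]
        _ = _ := by rw [map_add, map_mul]; ring
    rw [h1]
    exact Ideal.mul_mem_left _ _ hfb
  obtain ⟨q, hq⟩ := Ideal.mem_span_singleton'.1 hga
  refine ⟨q, algebraMap F[X] (PolyLoc p) g, ?_, ?_⟩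
  · rw [mul_comm b q, hq]; ring
  · have hsb : size p b = f.natDegree + 1 := by
      rw [size, if_neg hb, hfd]
    rw [hsb]
    by_cases hg0 : g = 0
    · rw [hg0, map_zero, size, if_pos rfl]
      omega
    · have hne : algebraMap F[X] (PolyLoc p) g ≠ 0 := by
        intro h0
        rw [← map_zero (algebraMap F[X] (PolyLoc p))] at h0
        exact hg0 (polyLoc_injective hp h0)
      rw [size, if_neg hne]
      have h1 : sInf (degSet p (algebraMap F[X] (PolyLoc p) g)) ≤ g.natDegree :=
        Nat.sInf_le ⟨g, hg0, Ideal.mem_span_singleton_self _, rfl⟩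
      have h2 : g.natDegree < f.natDegree := by
        have h3 : g.degree < f.degree := EuclideanDomain.mod_lt _ hf0
        exact natDegree_lt_natDegree hg0 h3
      omega

theorem size_mul_le (a : PolyLoc p) {b : PolyLoc p} (hb : b ≠ 0) :
    size p a ≤ size p (a * b) := by
  haveI := polyLoc_isDomain hp
  by_cases ha : a = 0
  · rw [ha, zero_mul]
  · have hab : a * b ≠ 0 := mul_ne_zero ha hb
    rw [size, size, if_neg ha, if_neg hab]
    obtain ⟨f, hf0, hfb, hfd⟩ := Nat.sInf_mem (degSet_nonempty hp hab)
    have : sInf (degSet p a) ≤ f.natDegree := Nat.sInf_le ⟨f, hf0, by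
      have hle : Ideal.span {a * b} ≤ Ideal.span {a} :=
        Ideal.span_singleton_le_span_singleton.2 (Dvd.intro _ rfl)
      exact hle hfb, rfl⟩
    omega

open Classical in
/-- `F[X][1/p]` is a Euclidean domain. -/
def polyLocEuclidean : EuclideanDomain (PolyLoc p) :=
  haveI := polyLoc_isDomain hp
  { (inferInstance : CommRing (PolyLoc p)) with
    exists_pair_ne := (polyLoc_isDomain hp).toNontrivial.exists_pair_ne
    quotient := fun a b => if hb : b = 0 then 0 else (polyLoc_div hp a hb).choose
    quotient_zero := fun a => dif_pos rfl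
    remainder := fun a b => if hb : b = 0 then a else
      (polyLoc_div hp a hb).choose_spec.choose
    quotient_mul_add_remainder_eq := by
      intro a b
      by_cases hb : b = 0
      · rw [dif_pos hb, dif_pos hb, mul_zero, zero_add]
      · rw [dif_neg hb, dif_neg hb]
        exact (polyLoc_div hp a hb).choose_spec.choose_spec.1
    r := fun a b => size p a < size p b
    r_wellFounded := (measure (size p)).wf
    remainder_lt := by
      intro a b hb
      rw [dif_neg hb]
      exact (polyLoc_div hp a hb).choose_spec.choose_spec.2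
    mul_left_not_lt := by
      intro a b hb
      exact not_lt.2 (size_mul_le hp a hb) }

end

end Pool.Agent.Lib.Helper86.StableBuilding
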