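import Pool.Agent.Lib.Helper86.StableBuilding.Pairing

/-!
# Evaluation on the path `e₁, e₂, e₁ + r e₂, t e₁ + e₂`
-/

set_option autoImplicit false
set_option linter.unusedSectionVars false

namespace Pool.Agent.Lib.Helper86.StableBuilding

noncomputable section

universe u v w

section one

variable {R : Type u} [CommRing R] {L : Type v} [Field L] {s : L → L → ℝ}
  (hs : IsSymbol s) (j : R →+* L) (e : Fin 2 → L)

include hs in
/-- The sum of the pairings over the closed path is the symbol `-{r, 1 - r t}`. -/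
theorem pair_square (r t : R) (h0 : e 0 ≠ 0) (h1 : e 1 ≠ 0) (h2 : lin j e ![1, r] ≠ 0)
    (h3 : lin j e ![t, 1] ≠ 0) (hr : j r ≠ 0) (hu : j (1 - r * t) ≠ 0) :
    pair s j e ![1, 0] ![0, 1] + pair s j e ![0, 1] ![1, r] + pair s j e ![1, r] ![t, 1] +
      pair s j e ![t, 1] ![1, 0] = -s (j r) (j (1 - r * t)) := by
  have l0 : lin j e ![1, 0] = e 0 := by simp [lin]
  have l1 : lin j e ![0, 1] = e 1 := by simp [lin]
  have d01 : det2 (![1, 0] : Fin 2 → R) ![0, 1] = 1 := by simp [det2]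
  have d12 : det2 (![0, 1] : Fin 2 → R) ![1, r] = -1 := by simp [det2]
  have d23 : det2 (![1, r] : Fin 2 → R) ![t, 1] = 1 - r * t := by simp [det2]
  have d30 : det2 (![t, 1] : Fin 2 → R) ![1, 0] = -1 := by simp [det2]
  set a2 := lin j e ![1, r] with ha2
  set a3 := lin j e ![t, 1] with ha3
  set u := j (1 - r * t) with hudef
  have e2 : a2 = e 0 + j r * e 1 := by rw [ha2]; simp [lin]
  have e3 : a3 = j t * e 0 + e 1 := by rw [ha3]; simp [lin]
  have eu : u = 1 - j r * j t := by rw [hudef]; simp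
  unfold pair mm
  rw [l0, l1, d01, d12, d23, d30, ← ha2, ← ha3, ← hudef, map_one, map_neg, map_one]
  simp only [hs.neg_right, hs.one_right]
  -- the two Steinberg relations
  have s1 := hs.stein' (x := e 0) (y := j r * e 1) (z := a2) h0 (mul_ne_zero hr h1) h2 e2.symm
  rw [hs.mul_right _ _ _ hr h1, hs.mul_right _ _ _ hr h1] at s1
  have s2 := hs.stein' (x := e 0 * u) (y := a3 * j r) (z := a2) (mul_ne_zero h0 hu)
    (mul_ne_zero h3 hr) h2 (by rw [e2, e3, eu]; ring)
  rw [hs.mul_right _ _ _ h3 hr, hs.mul_right _ _ _ h3 hr, hs.mul_left _ _ _ h0 hu,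
    hs.mul_left _ _ _ h0 hu, hs.mul_left _ _ _ h0 hu] at s2
  linarith [hs.anti (e 0) a3, hs.anti (e 1) a2, hs.anti u a3, hs.anti u a2, hs.anti (j r) u,
    hs.anti a2 a3, hs.anti (e 0) a2, hs.anti a2 (j r), hs.anti (e 0) (j r)]

end one

section two

variable {R : Type u} [CommRing R] [IsDomain R] [IsPrincipalIdealRing R]
  {L : Type v} [Field L] {s : L → L → ℝ} (hs : IsSymbol s)
  (j₁ j₂ : R →+* L) (e₁ e₂ : Fin 2 → L)

theorem span_ne_bot {v : Fin 2 → R} (hv : v ≠ 0) : Submodule.span R {v} ≠ ⊥ := by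
  rw [Ne, Submodule.span_singleton_eq_bot]
  exact hv

theorem isCompl_span {v v' : Fin 2 → R} (h : IsUnit (det2 v v')) :
    IsCompl (Submodule.span R {v}) (Submodule.span R {v'}) := by
  constructor
  · rw [Submodule.disjoint_def]
    intro x hx hx'
    obtain ⟨a, rfl⟩ := Submodule.mem_span_singleton.1 hx
    obtain ⟨b, hb⟩ := Submodule.mem_span_singleton.1 hx'
    have h1 : a * det2 v v' = 0 := by
      rw [← det2_smul_left, ← hb]
      simp [det2]; ring
    have h2 : a = 0 := (mul_eq_zero.1 h1).resolve_right h.ne_zero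
    rw [h2, zero_smul]
  · rw [codisjoint_iff, eq_top_iff]
    rintro x -
    obtain ⟨d, hd⟩ := h
    have hrel := det2_relation v v' x
    have h1 : det2 v v' • x ∈ Submodule.span R {v} ⊔ Submodule.span R {v'} := by
      have : det2 v v' • x = -(det2 v' x • v + det2 x v • v') := by
        rw [eq_neg_iff_add_eq_zero, add_comm]; exact hrel
      rw [this]
      exact Submodule.neg_mem _ (Submodule.add_mem_sup
        (Submodule.smul_mem _ _ (Submodule.mem_span_singleton_self v))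
        (Submodule.smul_mem _ _ (Submodule.mem_span_singleton_self v')))
    have h2 : x = d⁻¹.1 • (det2 v v' • x) := by
      rw [← hd, smul_smul, Units.inv_mul, one_smul]
    rw [h2]
    exact Submodule.smul_mem _ _ h1

/-- The unit comparing `v` with the chosen generator of `R v`. -/
theorem exists_gen_unit {v : Fin 2 → R} (hv : v ≠ 0) :
    ∃ u : Rˣ, gen (Submodule.span R {v}) = u.1 • v := by
  have h := gen_spec (P := Submodule.span R {v}) ⟨v, rfl⟩
  have h1 : gen (Submodule.span R {v}) ≠ 0 := by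
    intro h1
    rw [h1, Submodule.span_zero_singleton] at h
    exact span_ne_bot hv h
  exact exists_unit_of_span_eq h1 h.symm

include hs in
theorem exists_tau (h₁ : NonVan j₁ e₁) (h₂ : NonVan j₂ e₂) (hu : UnitSym s j₁ j₂) :
    ∃ τ : (Fin 2 → R) → ℝ, ∀ v v' : Fin 2 → R, IsUnit (det2 v v') →
      lineFun s j₁ j₂ e₁ e₂ (Submodule.span R {v}) (Submodule.span R {v'}) =
        pairDiff s j₁ j₂ e₁ e₂ v v' + τ v - τ v' := by
  classical
  let uu : (Fin 2 → R) → Rˣ := fun v =>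
    if h : ∃ u : Rˣ, gen (Submodule.span R {v}) = u.1 • v then h.choose else 1
  have huu : ∀ v, v ≠ 0 → gen (Submodule.span R {v}) = (uu v).1 • v := by
    intro v hv
    have hex := exists_gen_unit hv
    simp only [uu, dif_pos hex]
    exact hex.choose_spec
  refine ⟨fun v => s (j₁ (uu v)) (lin j₁ e₁ v) - s (j₂ (uu v)) (lin j₂ e₂ v), ?_⟩
  intro v v' hd
  have hv := ne_zero_of_det2_left hd
  have hv' := ne_zero_of_det2_right hd
  rw [lineFun_pos j₁ j₂ e₁ e₂ ⟨isCompl_span hd, span_ne_bot hv, span_ne_bot hv'⟩,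
    huu v hv, huu v' hv', pairDiff_smul hs j₁ j₂ e₁ e₂ h₁ h₂ hu hd]

include hs in
/-- If the symbols `{r, 1 - r t}` at the two places differ, then the coinvariants contain an
element of infinite order. -/
theorem exists_infinite_order_of_symbol (h₁ : NonVan j₁ e₁) (h₂ : NonVan j₂ e₂)
    (hu : UnitSym s j₁ j₂) (r t : R) (hr₁ : j₁ r ≠ 0) (hr₂ : j₂ r ≠ 0)
    (hrt : IsUnit (1 - r * t))
    (hne : s (j₁ r) (j₁ (1 - r * t)) ≠ s (j₂ r) (j₂ (1 - r * t))) :
    ∃ x : StableCoinvariants R (Fin 2 → R) 2, ∀ n : ℕ, 0 < n → n • x ≠ 0 := by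
  have d01 : IsUnit (det2 (![1, 0] : Fin 2 → R) ![0, 1]) := by simp [det2]
  have d12 : IsUnit (det2 (![0, 1] : Fin 2 → R) ![1, r]) := by simp [det2]
  have d23 : IsUnit (det2 (![1, r] : Fin 2 → R) ![t, 1]) := by simpa [det2] using hrt
  have d30 : IsUnit (det2 (![t, 1] : Fin 2 → R) ![1, 0]) := by simp [det2]
  obtain ⟨τ, hτ⟩ := exists_tau hs j₁ j₂ e₁ e₂ h₁ h₂ hu
  have hnt : ∀ v v' : Fin 2 → R, IsUnit (det2 v v') → Submodule.span R {v} ≠ ⊤ := by
    intro v v' hd ht
    have h1 := (isCompl_span hd).inf_eq_bot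
    rw [ht, top_inf_eq] at h1
    exact span_ne_bot (ne_zero_of_det2_right hd) h1
  apply exists_infinite_order_of_square (lineFun s j₁ j₂ e₁ e₂)
    (lineFun_onCompl j₁ j₂ e₁ e₂) (lineFun_anti hs j₁ j₂ e₁ e₂)
    (lineFun_quasiInvariant hs j₁ j₂ e₁ e₂ h₁ h₂ hu)
    (isCompl_span d01) (isCompl_span d12) (isCompl_span d23) (isCompl_span d30)
    (hnt _ _ d01) (hnt _ _ d12) (hnt _ _ d23) (hnt _ _ d30)
  rw [hτ _ _ d01, hτ _ _ d12, hτ _ _ d23, hτ _ _ d30]
  have v0 : (![1, 0] : Fin 2 → R) ≠ 0 := ne_zero_of_det2_left d01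
  have v1 : (![0, 1] : Fin 2 → R) ≠ 0 := ne_zero_of_det2_right d01
  have v2 : (![1, r] : Fin 2 → R) ≠ 0 := ne_zero_of_det2_right d12
  have v3 : (![t, 1] : Fin 2 → R) ≠ 0 := ne_zero_of_det2_right d23
  have l0 : ∀ (j : R →+* L) (e : Fin 2 → L), NonVan j e → e 0 ≠ 0 := by
    intro j e h
    have := h _ v0
    simpa [lin] using this
  have l1 : ∀ (j : R →+* L) (e : Fin 2 → L), NonVan j e → e 1 ≠ 0 := by
    intro j e h
    have := h _ v1
    simpa [lin] using this
  have q1 := pair_square hs j₁ e₁ r t (l0 j₁ e₁ h₁) (l1 j₁ e₁ h₁) (h₁ _ v2) (h₁ _ v3) hr₁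
    (map_unit_ne_zero j₁ hrt)
  have q2 := pair_square hs j₂ e₂ r t (l0 j₂ e₂ h₂) (l1 j₂ e₂ h₂) (h₂ _ v2) (h₂ _ v3) hr₂
    (map_unit_ne_zero j₂ hrt)
  unfold pairDiff
  intro h
  apply hne
  linarith

end two

end

end Pool.Agent.Lib.Helper86.StableBuilding
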