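import Pool.Agent.Lib.Helper86.StableBuilding.Laurent
import Pool.Agent.Lib.Helper86.StableBuilding.EuclidLoc
import Pool.Agent.Lib.Helper86.StableBuilding.Square

/-!
# The ring `ℚ[x, 1/(x² - 2)]` and its expansions at `x = ±√2`
-/

set_option autoImplicit false
set_option linter.unusedSectionVars false

namespace Pool.Agent.Lib.Helper86.StableBuilding

noncomputable section

open Polynomial

/-- The polynomial `x² - 2`. -/
def sqTwo : ℚ[X] := X ^ 2 - 2

theorem sqTwo_natDegree : sqTwo.natDegree = 2 := by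
  unfold sqTwo
  compute_degree!

theorem rat_sq_ne_two (q : ℚ) : q ^ 2 ≠ 2 := by
  intro h
  have h1 : (q : ℝ) ^ 2 = 2 := by exact_mod_cast h
  have h2 : |(q : ℝ)| = √2 := by
    rw [← Real.sqrt_sq_eq_abs, h1]
  apply irrational_sqrt_two
  refine ⟨|q|, ?_⟩
  rw [← h2]
  push_cast
  rfl

theorem sqTwo_irreducible : Irreducible sqTwo := by
  apply irreducible_of_degree_le_three_of_not_isRoot
  · rw [sqTwo_natDegree]; simp
  · intro x hx
    have : x ^ 2 - 2 = 0 := by simpa [sqTwo, IsRoot] using hx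
    exact rat_sq_ne_two x (by linarith)

/-- The expansion of a real polynomial at `c`. -/
def expand (c : ℝ) : ℝ[X] →+* HahnSeries ℤ ℝ :=
  ((HahnSeries.ofPowerSeries ℤ ℝ).comp (coeToPowerSeries.ringHom (R := ℝ))).comp
    (taylorAlgHom c : ℝ[X] →ₐ[ℝ] ℝ[X]).toRingHom

theorem expand_apply (c : ℝ) (f : ℝ[X]) :
    expand c f = HahnSeries.ofPowerSeries ℤ ℝ ((taylor c f : ℝ[X]) : PowerSeries ℝ) := rfl

theorem expand_injective (c : ℝ) : Function.Injective (expand c) := by
  intro f g h
  rw [expand_apply, expand_apply] at h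
  exact taylor_injective c (Polynomial.coe_injective ℝ (HahnSeries.ofPowerSeries_injective h))

theorem expand_coeff (c : ℝ) (f : ℝ[X]) (n : ℕ) :
    (expand c f).coeff n = (taylor c f).coeff n := by
  rw [expand_apply, HahnSeries.ofPowerSeries_apply_coeff, Polynomial.coeff_coe]

theorem expand_coeff_neg (c : ℝ) (f : ℝ[X]) {n : ℤ} (hn : n < 0) :
    (expand c f).coeff n = 0 := by
  rw [expand_apply]
  have := PowerSeries.coeff_coe (R := ℝ) ((taylor c f : ℝ[X]) : PowerSeries ℝ) n
  rw [if_pos hn] at this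
  exact this

theorem expand_order_lc (c : ℝ) (f : ℝ[X]) (n : ℕ) (h : (taylor c f).coeff n ≠ 0)
    (h' : ∀ m < n, (taylor c f).coeff m = 0) :
    (expand c f).order = n ∧ (expand c f).leadingCoeff = (taylor c f).coeff n := by
  have h1 : (expand c f).order = n := by
    apply order_eq_of
    · rw [expand_coeff]; exact h
    · intro m hm
      by_cases hneg : m < 0
      · exact expand_coeff_neg c f hneg
      · push Not at hneg
        obtain ⟨k, rfl⟩ := Int.eq_ofNat_of_zero_le hneg
        have hk : k < n := by exact_mod_cast hm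
        rw [expand_coeff]
        exact h' k hk
  refine ⟨h1, ?_⟩
  rw [HahnSeries.leadingCoeff_eq, h1, expand_coeff]

/-- The expansion of a rational polynomial at `c`. -/
def expandQ (c : ℝ) : ℚ[X] →+* HahnSeries ℤ ℝ :=
  (expand c).comp (mapRingHom (algebraMap ℚ ℝ))

theorem expandQ_injective (c : ℝ) : Function.Injective (expandQ c) :=
  (expand_injective c).comp (map_injective _ (algebraMap ℚ ℝ).injective)

/-- The ring `ℚ[x, 1/(x² - 2)]`. -/
abbrev SRing : Type := PolyLoc sqTwo

/-- The expansion of an element of `ℚ[x, 1/(x² - 2)]` at `c`. -/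
def place (c : ℝ) : SRing →+* HahnSeries ℤ ℝ :=
  IsLocalization.Away.lift (S := SRing) sqTwo (g := expandQ c) (by
    rw [isUnit_iff_ne_zero]
    intro h
    rw [← map_zero (expandQ c)] at h
    exact sqTwo_irreducible.ne_zero (expandQ_injective c h))

theorem place_algebraMap (c : ℝ) (f : ℚ[X]) :
    place c (algebraMap ℚ[X] SRing f) = expandQ c f :=
  IsLocalization.Away.lift_eq _ _ _

theorem map_sqTwo : mapRingHom (algebraMap ℚ ℝ) sqTwo = X ^ 2 - 2 := by
  unfold sqTwo
  simp

theorem taylor_sqTwo (c : ℝ) (hc : c ^ 2 = 2) :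
    taylor c (X ^ 2 - 2 : ℝ[X]) = X ^ 2 + C (2 * c) * X := by
  have h2 : (2 : ℝ[X]) = C 2 := (map_ofNat C 2).symm
  rw [map_sub, taylor_X_pow, h2, taylor_C]
  have h3 : (C c : ℝ[X]) ^ 2 = C 2 := by rw [← C_pow, hc]
  rw [C_mul]
  have : (C 2 : ℝ[X]) = 2 := map_ofNat C 2
  rw [this] at h3 ⊢
  linear_combination h3

theorem place_sqTwo (c : ℝ) (hc : c ^ 2 = 2) :
    (place c (algebraMap ℚ[X] SRing sqTwo)).order = 1 ∧
      (place c (algebraMap ℚ[X] SRing sqTwo)).leadingCoeff = 2 * c := by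
  have hc0 : c ≠ 0 := by rintro rfl; norm_num at hc
  rw [place_algebraMap]
  change (expand c (mapRingHom (algebraMap ℚ ℝ) sqTwo)).order = 1 ∧
    (expand c (mapRingHom (algebraMap ℚ ℝ) sqTwo)).leadingCoeff = 2 * c
  rw [map_sqTwo]
  have h1 := expand_order_lc c (X ^ 2 - 2) 1
    (by rw [taylor_sqTwo c hc]; simpa [coeff_X] using hc0)
    (by
      intro m hm
      have : m = 0 := by omega
      subst this
      rw [taylor_sqTwo c hc]
      simp)
  refine ⟨by exact_mod_cast h1.1, ?_⟩
  rw [h1.2, taylor_sqTwo c hc]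
  simp

theorem place_const (c : ℝ) {q : ℚ} (hq : q ≠ 0) :
    (place c (algebraMap ℚ[X] SRing (C q))).order = 0 ∧
      (place c (algebraMap ℚ[X] SRing (C q))).leadingCoeff = q := by
  rw [place_algebraMap]
  change (expand c (mapRingHom (algebraMap ℚ ℝ) (C q))).order = 0 ∧
    (expand c (mapRingHom (algebraMap ℚ ℝ) (C q))).leadingCoeff = q
  have h0 : mapRingHom (algebraMap ℚ ℝ) (C q) = C (q : ℝ) := by simp
  rw [h0]
  have h1 := expand_order_lc c (C (q : ℝ)) 0
    (by rw [taylor_C]; simpa using hq) (by intro m hm; omega)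
  refine ⟨by exact_mod_cast h1.1, ?_⟩
  rw [h1.2, taylor_C]
  simp

theorem place_linear (c : ℝ) (hc : c ≠ 1) :
    (place c (algebraMap ℚ[X] SRing (X - 1))).order = 0 ∧
      (place c (algebraMap ℚ[X] SRing (X - 1))).leadingCoeff = c - 1 := by
  rw [place_algebraMap]
  change (expand c (mapRingHom (algebraMap ℚ ℝ) (X - 1))).order = 0 ∧
    (expand c (mapRingHom (algebraMap ℚ ℝ) (X - 1))).leadingCoeff = c - 1
  have h0 : mapRingHom (algebraMap ℚ ℝ) (X - 1) = X - C 1 := by simp
  have h2 : taylor c (X - C 1 : ℝ[X]) = X + C (c - 1) := by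
    rw [map_sub, taylor_X, taylor_C, C_sub]; ring
  rw [h0]
  have h1 := expand_order_lc c (X - C 1) 0
    (by rw [h2]; simpa [sub_eq_zero] using hc) (by intro m hm; omega)
  refine ⟨by exact_mod_cast h1.1, ?_⟩
  rw [h1.2, h2]
  simp

/-- The two expansions of `a` have the same order and leading coefficients of the same
absolute value. -/
def Balanced (c c' : ℝ) (a : SRing) : Prop :=
  a ≠ 0 ∧ (place c a).order = (place c' a).order ∧
    Real.log (place c a).leadingCoeff = Real.log (place c' a).leadingCoeff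

instance : IsDomain SRing := polyLoc_isDomain sqTwo_irreducible

theorem place_ne_zero (c : ℝ) {a : SRing} (ha : a ≠ 0) : place c a ≠ 0 := by
  intro h
  obtain ⟨k, f, hk⟩ := exists_numerator sqTwo a
  have h1 := congrArg (place c) hk
  rw [map_mul, h, zero_mul, place_algebraMap] at h1
  have h2 : f = 0 := expandQ_injective c (by rw [← h1, map_zero])
  rw [h2, map_zero] at hk
  rcases mul_eq_zero.1 hk with h3 | h3
  · exact ha h3
  · rw [← map_zero (algebraMap ℚ[X] SRing)] at h3
    exact pow_ne_zero k sqTwo_irreducible.ne_zero (polyLoc_injective sqTwo_irreducible h3)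

theorem place_mul_order (c : ℝ) {a b : SRing} (ha : a ≠ 0) (hb : b ≠ 0) :
    (place c (a * b)).order = (place c a).order + (place c b).order ∧
      Real.log (place c (a * b)).leadingCoeff =
        Real.log (place c a).leadingCoeff + Real.log (place c b).leadingCoeff := by
  have h1 := HahnSeries.leadingCoeff_ne_zero.2 (place_ne_zero c ha)
  have h2 := HahnSeries.leadingCoeff_ne_zero.2 (place_ne_zero c hb)
  rw [map_mul, HahnSeries.order_mul_of_ne_zero (mul_ne_zero h1 h2),
    HahnSeries.leadingCoeff_mul_of_ne_zero (mul_ne_zero h1 h2), Real.log_mul h1 h2]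
  exact ⟨rfl, rfl⟩

theorem Balanced.mul {c c' : ℝ} {a b : SRing} (ha : Balanced c c' a) (hb : Balanced c c' b) :
    Balanced c c' (a * b) := by
  obtain ⟨h1, h2⟩ := place_mul_order c ha.1 hb.1
  obtain ⟨h3, h4⟩ := place_mul_order c' ha.1 hb.1
  refine ⟨mul_ne_zero ha.1 hb.1, ?_, ?_⟩
  · rw [h1, h3, ha.2.1, hb.2.1]
  · rw [h2, h4, ha.2.2, hb.2.2]

theorem Balanced.of_mul {c c' : ℝ} {a b : SRing} (hab : Balanced c c' (a * b))
    (hb : Balanced c c' b) : Balanced c c' a := by
  have ha0 : a ≠ 0 := left_ne_zero_of_mul hab.1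
  obtain ⟨h1, h2⟩ := place_mul_order c ha0 hb.1
  obtain ⟨h3, h4⟩ := place_mul_order c' ha0 hb.1
  refine ⟨ha0, ?_, ?_⟩
  · have := hab.2.1
    rw [h1, h3, hb.2.1] at this
    exact add_right_cancel this
  · have := hab.2.2
    rw [h2, h4, hb.2.2] at this
    exact add_right_cancel this

theorem balanced_sqTwo {c : ℝ} (hc : c ^ 2 = 2) :
    Balanced c (-c) (algebraMap ℚ[X] SRing sqTwo) := by
  obtain ⟨h1, h2⟩ := place_sqTwo c hc
  obtain ⟨h3, h4⟩ := place_sqTwo (-c) (by rw [neg_sq]; exact hc)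
  refine ⟨?_, ?_, ?_⟩
  · intro h
    rw [← map_zero (algebraMap ℚ[X] SRing)] at h
    exact sqTwo_irreducible.ne_zero (polyLoc_injective sqTwo_irreducible h)
  · rw [h1, h3]
  · rw [h2, h4, mul_neg, Real.log_neg_eq_log]

theorem balanced_const (c c' : ℝ) {q : ℚ} (hq : q ≠ 0) :
    Balanced c c' (algebraMap ℚ[X] SRing (C q)) := by
  obtain ⟨h1, h2⟩ := place_const c hq
  obtain ⟨h3, h4⟩ := place_const c' hq
  refine ⟨?_, ?_, ?_⟩
  · intro h
    rw [← map_zero (algebraMap ℚ[X] SRing)] at h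
    have := polyLoc_injective sqTwo_irreducible h
    exact hq (by simpa using this)
  · rw [h1, h3]
  · rw [h2, h4]

theorem balanced_one (c c' : ℝ) : Balanced c c' 1 := by
  have := balanced_const c c' (q := 1) one_ne_zero
  simpa using this

theorem Balanced.pow {c c' : ℝ} {a : SRing} (ha : Balanced c c' a) (n : ℕ) :
    Balanced c c' (a ^ n) := by
  induction n with
  | zero => rw [pow_zero]; exact balanced_one c c'
  | succ n ih => rw [pow_succ]; exact ih.mul ha

/-- Units are balanced. -/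
theorem balanced_unit {c : ℝ} (hc : c ^ 2 = 2) (u : SRingˣ) : Balanced c (-c) u.1 := by
  obtain ⟨k, f, hk⟩ := exists_numerator sqTwo u.1
  obtain ⟨l, g, hl⟩ := exists_numerator sqTwo u⁻¹.1
  have hfg : f * g = sqTwo ^ (k + l) := by
    apply polyLoc_injective sqTwo_irreducible
    rw [map_mul, ← hk, ← hl]
    calc u.1 * algebraMap ℚ[X] SRing (sqTwo ^ k) * (u⁻¹.1 * algebraMap ℚ[X] SRing (sqTwo ^ l))
        = (u.1 * u⁻¹.1) * (algebraMap ℚ[X] SRing (sqTwo ^ k) *
            algebraMap ℚ[X] SRing (sqTwo ^ l)) := by ring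
      _ = _ := by rw [Units.mul_inv, one_mul, ← map_mul, ← pow_add]
  have hdvd : f ∣ sqTwo ^ (k + l) := Dvd.intro _ hfg
  obtain ⟨m, _, hm⟩ := (dvd_prime_pow sqTwo_irreducible.prime _).1 hdvd
  obtain ⟨w, hw⟩ := hm
  -- `f = sqTwo ^ m * (constant)`
  have hwu : IsUnit (w⁻¹.1 : ℚ[X]) := Units.isUnit _
  obtain ⟨q, hq, hqw⟩ := Polynomial.isUnit_iff.1 hwu
  have hf : f = sqTwo ^ m * C q := by
    rw [hqw, ← hw, mul_assoc, Units.mul_inv, mul_one]
  have h1 : Balanced c (-c) (algebraMap ℚ[X] SRing f) := by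
    rw [hf, map_mul, map_pow]
    exact ((balanced_sqTwo hc).pow m).mul (balanced_const c (-c) hq.ne_zero)
  rw [← hk, map_pow] at h1
  exact h1.of_mul ((balanced_sqTwo hc).pow k)

theorem unitSym {c : ℝ} (hc : c ^ 2 = 2) : UnitSym tame (place c) (place (-c)) := by
  intro u v
  obtain ⟨-, h1, h2⟩ := balanced_unit hc u
  obtain ⟨-, h3, h4⟩ := balanced_unit hc v
  unfold tame
  rw [h1, h2, h3, h4]

/-- The functional with values `1` and `√2`. -/
def eFun (c : ℝ) : Fin 2 → HahnSeries ℤ ℝ := ![1, expand c (C √2)]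

theorem nonVan (c : ℝ) : NonVan (place c) (eFun c) := by
  intro v hv h
  obtain ⟨k, a, hk⟩ := exists_numerator sqTwo (v 0)
  obtain ⟨l, b, hl⟩ := exists_numerator sqTwo (v 1)
  -- clear denominators
  have hk' : v 0 * algebraMap ℚ[X] SRing (sqTwo ^ (k + l)) =
      algebraMap ℚ[X] SRing (a * sqTwo ^ l) := by
    rw [pow_add, map_mul, ← mul_assoc, hk, map_mul]
  have hl' : v 1 * algebraMap ℚ[X] SRing (sqTwo ^ (k + l)) =
      algebraMap ℚ[X] SRing (b * sqTwo ^ k) := by
    rw [add_comm k l, pow_add, map_mul, ← mul_assoc, hl, map_mul]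
  set A := a * sqTwo ^ l with hA
  set B := b * sqTwo ^ k with hB
  have hlin : expandQ c A + expandQ c B * expand c (C √2) = 0 := by
    have h1 : lin (place c) (eFun c) v * place c (algebraMap ℚ[X] SRing (sqTwo ^ (k + l))) =
        expandQ c A + expandQ c B * expand c (C √2) := by
      rw [← place_algebraMap, ← place_algebraMap, ← hk', ← hl', map_mul, map_mul]
      simp only [lin, eFun, Matrix.cons_val_zero, Matrix.cons_val_one]
      ring
    rw [← h1, h, zero_mul]
  have hpoly : mapRingHom (algebraMap ℚ ℝ) A + mapRingHom (algebraMap ℚ ℝ) B * C √2 = 0 := by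
    have hgen : ∀ P Q : ℝ[X], expand c (P + Q * C √2) =
        expand c P + expand c Q * expand c (C √2) := fun P Q => by rw [map_add, map_mul]
    apply expand_injective c
    rw [hgen, map_zero]
    exact hlin
  have hcoef : ∀ n, A.coeff n = 0 ∧ B.coeff n = 0 := by
    intro n
    have h1 := congrArg (fun p => Polynomial.coeff p n) hpoly
    simp only [coe_mapRingHom, coeff_add, coeff_map, coeff_mul_C, coeff_zero,
      eq_ratCast] at h1
    have hB0 : B.coeff n = 0 := by
      by_contra hne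
      apply irrational_sqrt_two
      refine ⟨-(A.coeff n / B.coeff n), ?_⟩
      have hne' : ((B.coeff n : ℚ) : ℝ) ≠ 0 := by exact_mod_cast hne
      push_cast
      field_simp
      linarith
    refine ⟨?_, hB0⟩
    rw [hB0] at h1
    have : ((A.coeff n : ℚ) : ℝ) = 0 := by simpa using h1
    exact_mod_cast this
  have hA0 : A = 0 := Polynomial.ext fun n => by rw [(hcoef n).1, coeff_zero]
  have hB0 : B = 0 := Polynomial.ext fun n => by rw [(hcoef n).2, coeff_zero]
  have hp0 : algebraMap ℚ[X] SRing (sqTwo ^ (k + l)) ≠ 0 := by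
    intro h3
    rw [← map_zero (algebraMap ℚ[X] SRing)] at h3
    exact pow_ne_zero _ sqTwo_irreducible.ne_zero (polyLoc_injective sqTwo_irreducible h3)
  apply hv
  funext i
  fin_cases i
  · change v 0 = 0
    rw [hA0, map_zero] at hk'
    exact (mul_eq_zero.1 hk').resolve_right hp0
  · change v 1 = 0
    rw [hB0, map_zero] at hl'
    exact (mul_eq_zero.1 hl').resolve_right hp0

/-- The element `x - 1`. -/
def rElt : SRing := algebraMap ℚ[X] SRing (X - 1)

/-- The element `x + 1`. -/
def tElt : SRing := algebraMap ℚ[X] SRing (X + 1)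

theorem one_sub_rt : 1 - rElt * tElt = -algebraMap ℚ[X] SRing sqTwo := by
  have h : (1 : ℚ[X]) - (X - 1) * (X + 1) = -sqTwo := by unfold sqTwo; ring
  have h1 : 1 - rElt * tElt = algebraMap ℚ[X] SRing (1 - (X - 1) * (X + 1)) := by
    unfold rElt tElt
    rw [(algebraMap ℚ[X] SRing).map_sub 1, map_one, map_mul]
  rw [h1, h, map_neg]

theorem isUnit_one_sub_rt : IsUnit (1 - rElt * tElt) := by
  rw [one_sub_rt]
  exact (IsLocalization.Away.algebraMap_isUnit (S := SRing) sqTwo).neg

theorem tame_value {c : ℝ} (hc : c ^ 2 = 2) :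
    tame (place c rElt) (place c (1 - rElt * tElt)) = Real.log (c - 1) := by
  have hc1 : c ≠ 1 := by rintro rfl; norm_num at hc
  obtain ⟨h1, h2⟩ := place_linear c hc1
  obtain ⟨h3, h4⟩ := place_sqTwo c hc
  rw [one_sub_rt, map_neg]
  unfold tame rElt
  rw [HahnSeries.order_neg, h1, h2, h3]
  simp

theorem tame_ne : tame (place √2 rElt) (place √2 (1 - rElt * tElt)) ≠
    tame (place (-√2) rElt) (place (-√2) (1 - rElt * tElt)) := by
  have h2 : (√2 : ℝ) ^ 2 = 2 := Real.sq_sqrt (by norm_num)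
  rw [tame_value h2, tame_value (by rw [neg_sq]; exact h2)]
  have h1 : (1 : ℝ) < √2 := by
    rw [show (1 : ℝ) = √1 by simp]
    exact Real.sqrt_lt_sqrt (by norm_num) (by norm_num)
  have h3 : (√2 : ℝ) < 2 := by
    rw [show (2 : ℝ) = √4 by
      rw [show (4 : ℝ) = 2 ^ 2 by norm_num, Real.sqrt_sq (by norm_num)]]
    exact Real.sqrt_lt_sqrt (by norm_num) (by norm_num)
  have h4 : Real.log (√2 - 1) < 0 := Real.log_neg (by linarith) (by linarith)
  have h5 : 0 < Real.log (-√2 - 1) := by
    rw [show -√2 - 1 = -(√2 + 1) by ring, Real.log_neg_eq_log]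
    exact Real.log_pos (by linarith)
  linarith

end

end Pool.Agent.Lib.Helper86.StableBuilding
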