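import Pool.Agent.Lib.Helper86.StableBuilding.Squares

/-!
# Values and fullness of faces
-/

set_option autoImplicit false

namespace Pool.Agent.Lib.Helper86.StableBuilding

noncomputable section

universe u v

variable {R : Type u} [CommRing R] {M : Type v} [AddCommGroup M] [Module R M] {k : ℕ}
  {p : Fin k → ℕ}

theorem isFull_ev_zero {φ : Grid p →o Summand R M} (h : IsFull φ) {a : Fin k → ℕ}
    (ha : ∃ i, a i = 0) : ev φ a = ⊥ := by
  by_cases hle : a ≤ p
  · rw [ev_of_le φ hle]
    exact h.1 ⟨a, hle⟩ ha
  · exact dif_neg hle

theorem isFull_ev_top {φ : Grid p →o Summand R M} (h : IsFull φ) : ev φ p = ⊤ := by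
  rw [ev_of_le φ le_rfl]
  exact h.2

theorem isFull_iff_ev (φ : Grid p →o Summand R M) :
    IsFull φ ↔ (∀ a ≤ p, (∃ i, a i = 0) → ev φ a = ⊥) ∧ ev φ p = ⊤ := by
  constructor
  · intro h
    exact ⟨fun a _ ha => isFull_ev_zero h ha, isFull_ev_top h⟩
  · rintro ⟨h1, h2⟩
    refine ⟨?_, ?_⟩
    · intro a ha
      have := h1 a.1 a.2 ha
      rwa [ev_of_le φ a.2] at this
    · rwa [ev_of_le φ le_rfl] at h2

/-- Values of a face. -/
theorem ev_comp_coface (φ : Grid p →o Summand R M) (i : Fin k) (hi : 1 ≤ p i) (m : ℕ)
    {a : Fin k → ℕ} (ha : a ≤ Function.update p i (p i - 1)) :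
    ev (φ.comp (coface p i hi m)) a =
      ev φ (Function.update a i (if a i < m then a i else a i + 1)) := by
  rw [ev_of_le _ ha]
  exact (ev_of_le φ (coface p i hi m ⟨a, ha⟩).2).symm

theorem ev_face_self (φ : Grid p →o Summand R M) (i : Fin k) (hi : 1 ≤ p i) (m : ℕ)
    {x : ℕ} (hx : x ≤ p i - 1) :
    ev (φ.comp (coface p i hi m)) (Function.update (Function.update p i (p i - 1)) i x) =
      ev φ (Function.update p i (if x < m then x else x + 1)) := by
  rw [ev_comp_coface]
  · simp only [Function.update_idem, Function.update_self]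
  · apply update_le
    rw [Function.update_self]
    exact hx

theorem ev_face_ne (φ : Grid p →o Summand R M) (i : Fin k) (hi : 1 ≤ p i) {m : ℕ}
    (hm : m < p i) {j : Fin k} (hj : j ≠ i) {y : ℕ} (hy : y ≤ p j) :
    ev (φ.comp (coface p i hi m)) (Function.update (Function.update p i (p i - 1)) j y) =
      ev φ (Function.update p j y) := by
  rw [ev_comp_coface]
  · congr 1
    rw [Function.update_of_ne hj.symm, Function.update_self, if_neg (by omega),
      Function.update_comm hj, Function.update_idem]
    congr 1
    rw [show p i - 1 + 1 = p i by omega, Function.update_eq_self]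
  · apply update_le
    rw [Function.update_of_ne hj]
    exact hy

theorem ev_face_last_ne (φ : Grid p →o Summand R M) (i : Fin k) (hi : 1 ≤ p i)
    {j : Fin k} (hj : j ≠ i) {y : ℕ} (hy : y ≤ p j) :
    ev (φ.comp (coface p i hi (p i))) (Function.update (Function.update p i (p i - 1)) j y) =
      ev φ (Function.update (Function.update p i (p i - 1)) j y) := by
  rw [ev_comp_coface]
  · congr 1
    rw [Function.update_of_ne hj.symm, Function.update_self, if_pos (by omega)]
    rw [Function.update_comm hj, Function.update_idem, Function.update_comm hj.symm]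
  · apply update_le
    rw [Function.update_of_ne hj]
    exact hy

/-- The faces in the middle are full. -/
theorem isFull_face_mid {φ : Grid p →o Summand R M} (h : IsFull φ) (i : Fin k) (hi : 1 ≤ p i)
    {m : ℕ} (h0 : m ≠ 0) (hm : m < p i) : IsFull (φ.comp (coface p i hi m)) := by
  rw [isFull_iff_ev]
  refine ⟨?_, ?_⟩
  · rintro a ha ⟨l, hl⟩
    rw [ev_comp_coface φ i hi m ha]
    apply isFull_ev_zero h
    refine ⟨l, ?_⟩
    by_cases hli : l = i
    · subst hli
      rw [Function.update_self, hl, if_pos (by omega)]
    · rw [Function.update_of_ne hli, hl]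
  · rw [ev_comp_coface φ i hi m le_rfl, Function.update_self, if_neg (by omega),
      Function.update_idem, show p i - 1 + 1 = p i by omega, Function.update_eq_self]
    exact isFull_ev_top h

/-- The first face is full iff `φ` vanishes on the first slice. -/
theorem isFull_face_zero_iff {φ : Grid p →o Summand R M} (h : IsFull φ) (i : Fin k)
    (hi : 1 ≤ p i) :
    IsFull (φ.comp (coface p i hi 0)) ↔ ev φ (Function.update p i 1) = ⊥ := by
  rw [isFull_iff_ev]
  constructor
  · rintro ⟨h1, -⟩
    have h2 := h1 (Function.update (Function.update p i (p i - 1)) i 0)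
      (update_le (Nat.zero_le _)) ⟨i, Function.update_self ..⟩
    rw [ev_face_self φ i hi 0 (Nat.zero_le _)] at h2
    simpa using h2
  · intro h1
    refine ⟨?_, ?_⟩
    · rintro a ha ⟨l, hl⟩
      rw [ev_comp_coface φ i hi 0 ha, if_neg (Nat.not_lt_zero _)]
      have hle : Function.update a i (a i + 1) ≤ p := by
        have := (coface p i hi 0 ⟨a, ha⟩).2
        rwa [coface_val, if_neg (Nat.not_lt_zero _)] at this
      by_cases hli : l = i
      · subst hli
        rw [hl] at hle ⊢
        rw [eq_bot_iff, ← h1]
        apply ev_mono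
        · intro r
          by_cases hr : r = l
          · subst hr; rw [Function.update_self, Function.update_self]
          · have := hle r
            rw [Function.update_of_ne hr] at this
            rw [Function.update_of_ne hr, Function.update_of_ne hr]
            exact this
        · exact update_le hi
      · apply isFull_ev_zero h
        exact ⟨l, by rw [Function.update_of_ne hli, hl]⟩
    · rw [ev_comp_coface φ i hi 0 le_rfl, Function.update_self, if_neg (by omega),
        Function.update_idem, show p i - 1 + 1 = p i by omega, Function.update_eq_self]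
      exact isFull_ev_top h

/-- The last face is full iff `φ` is already `M` one step before the end. -/
theorem isFull_face_last_iff {φ : Grid p →o Summand R M} (h : IsFull φ) (i : Fin k)
    (hi : 1 ≤ p i) :
    IsFull (φ.comp (coface p i hi (p i))) ↔ ev φ (Function.update p i (p i - 1)) = ⊤ := by
  rw [isFull_iff_ev]
  have h3 : ev (φ.comp (coface p i hi (p i))) (Function.update p i (p i - 1)) =
      ev φ (Function.update p i (p i - 1)) := by
    rw [ev_comp_coface φ i hi (p i) le_rfl, Function.update_self, if_pos (by omega),
      Function.update_idem]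
  constructor
  · rintro ⟨-, h1⟩
    rw [← h3, h1]
  · intro h1
    refine ⟨?_, ?_⟩
    · rintro a ha ⟨l, hl⟩
      rw [ev_comp_coface φ i hi _ ha]
      apply isFull_ev_zero h
      refine ⟨l, ?_⟩
      by_cases hli : l = i
      · subst hli
        rw [Function.update_self, hl, if_pos (by omega)]
      · rw [Function.update_of_ne hli, hl]
    · rw [h3, h1]

theorem full_pos [Nontrivial M] {φ : Grid p →o Summand R M} (h : IsFull φ) (i : Fin k) :
    1 ≤ p i := by
  by_contra h0
  have h1 : p i = 0 := by omega
  have h2 := isFull_ev_zero h ⟨i, h1⟩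
  rw [isFull_ev_top h] at h2
  exact top_ne_bot h2

end

end Pool.Agent.Lib.Helper86.StableBuilding
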