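import Pool.Agent.Lib.Helper86.StableBuilding.ClosedTwo

/-!
# The functional on `H_2(𝐃(R²))_{GL_2(R)}` defined by a quasi-invariant function of two lines
-/

set_option autoImplicit false

namespace Pool.Agent.Lib.Helper86.StableBuilding

noncomputable section

universe u v

section general

variable {R : Type u} [CommRing R] {M : Type v} [AddCommGroup M] [Module R M] {k : ℕ}
  {p : Fin k → ℕ}

theorem ev_suspend_succ (φ : Grid p →o Summand R M) (i : Fin k) (hi : 1 ≤ p i) :
    ev (suspend φ) (Function.update (Fin.cons 1 p : Fin (k + 1) → ℕ) i.succ 1) =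
      ev φ (Function.update p i 1) := by
  have h1 : Function.update (Fin.cons 1 p : Fin (k + 1) → ℕ) i.succ 1 ≤ Fin.cons 1 p :=
    update_le hi
  have h2 : Function.update p i 1 ≤ p := update_le hi
  rw [ev_of_le _ h1, ev_of_le _ h2, suspend_one]
  · congr 2
    apply Grid.ext
    funext l
    change Function.update (Fin.cons 1 p : Fin (k + 1) → ℕ) i.succ 1 l.succ =
      Function.update p i 1 l
    by_cases hl : l = i
    · subst hl; rw [Function.update_self, Function.update_self]
    · rw [Function.update_of_ne hl, Function.update_of_ne (by simpa using hl), Fin.cons_succ]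
  · change Function.update (Fin.cons 1 p : Fin (k + 1) → ℕ) i.succ 1 0 ≠ 0
    rw [Function.update_of_ne (Fin.succ_ne_zero i).symm]
    simp

theorem cons_eq_mdTwo_iff (p : Fin k → ℕ) (i j : Fin k) :
    (Fin.cons 1 p : Fin (k + 1) → ℕ) = mdTwo i.succ j.succ ↔ p = mdTwo i j := by
  constructor
  · intro h
    funext l
    have := congrFun h l.succ
    simpa [mdTwo] using this
  · intro h
    funext l
    refine Fin.cases ?_ (fun l => ?_) l
    · simp [mdTwo, (Fin.succ_ne_zero _).symm]
    · rw [Fin.cons_succ, h]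
      simp [mdTwo]

theorem alphaTwo_suspend (f : Submodule R M → Submodule R M → ℝ)
    (φ : Grid p →o Summand R M) (hp : ∀ i, 1 ≤ p i) :
    alphaTwo f (Fin.cons 1 p : Fin (k + 1) → ℕ) (suspend φ) = alphaTwo f p φ := by
  by_cases h : ∃ i j, i < j ∧ p = mdTwo i j
  · obtain ⟨i, j, hij, hpm⟩ := h
    rw [alphaTwo_eq f φ hij hpm, alphaTwo_eq f (suspend φ) (Fin.succ_lt_succ_iff.2 hij)
      ((cons_eq_mdTwo_iff p i j).2 hpm), ev_suspend_succ φ i (hp i), ev_suspend_succ φ j (hp j)]
    rw [Fin.val_succ, Fin.val_succ, show i.val + 1 + (j.val + 1) = i.val + j.val + 2 by ring,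
      pow_add]
    norm_num
  · push Not at h
    rw [alphaTwo_eq_zero f φ h, alphaTwo_eq_zero]
    intro i j
    refine Fin.cases ?_ (fun i => ?_) i
    · intro _ h1
      have := congrFun h1 0
      simp [mdTwo] at this
      omega
    · refine Fin.cases ?_ (fun j => ?_) j
      · intro h1
        exact absurd h1 (Fin.not_lt_zero _)
      · intro h1 h2
        exact h i j (Fin.succ_lt_succ_iff.1 h1) ((cons_eq_mdTwo_iff p i j).1 h2)

theorem ev_map (g : M ≃ₗ[R] M)
    (φ : Grid p →o Summand R M) (a : Fin k → ℕ) :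
    ev ((Summand.map g).comp φ) a = (ev φ a).map g.toLinearMap := by
  by_cases h : a ≤ p
  · rw [ev_of_le _ h, ev_of_le _ h]
    rfl
  · have h1 : ev φ a = ⊥ := dif_neg h
    have h2 : ev ((Summand.map g).comp φ) a = ⊥ := dif_neg h
    rw [h1, h2, Submodule.map_bot]

theorem alphaTwo_map (f : Submodule R M → Submodule R M → ℝ) (g : M ≃ₗ[R] M)
    (φ : Grid p →o Summand R M) :
    alphaTwo f p ((Summand.map g).comp φ) =
      alphaTwo (fun P Q => f (P.map g.toLinearMap) (Q.map g.toLinearMap)) p φ := by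
  unfold alphaTwo
  simp only [ev_map]

theorem alphaTwo_add (f f' : Submodule R M → Submodule R M → ℝ)
    (φ : Grid p →o Summand R M) :
    alphaTwo (fun P Q => f P Q + f' P Q) p φ = alphaTwo f p φ + alphaTwo f' p φ := by
  by_cases h : ∃ i j, i < j ∧ p = mdTwo i j
  · obtain ⟨i, j, hij, hpm⟩ := h
    rw [alphaTwo_eq _ φ hij hpm, alphaTwo_eq _ φ hij hpm, alphaTwo_eq _ φ hij hpm]
    ring
  · push Not at h
    rw [alphaTwo_eq_zero _ φ h, alphaTwo_eq_zero _ φ h, alphaTwo_eq_zero _ φ h, add_zero]

theorem cochain_susp [Nontrivial M] (f : Submodule R M → Submodule R M → ℝ)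
    (x : Chains R M k) :
    cochain (alphaTwo f) (suspChains R M k x) = cochain (alphaTwo f) x := by
  have : (cochain (alphaTwo f)).comp (suspChains R M k) = cochain (alphaTwo f) := by
    apply chains_hom_ext
    rintro ⟨p, φ, h1, h2⟩
    rw [AddMonoidHom.comp_apply, suspChains_single, cochain_single,
      cochain_toChain_full _ h1.suspend ((isFull_suspend_iff φ).2 h2)]
    exact alphaTwo_suspend f φ (full_pos h2)
  exact DFunLike.congr_fun this x

theorem cochain_map (f : Submodule R M → Submodule R M → ℝ) (g : M ≃ₗ[R] M)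
    (x : Chains R M k) :
    cochain (alphaTwo f) (mapChains g k x) =
      cochain (alphaTwo (fun P Q => f (P.map g.toLinearMap) (Q.map g.toLinearMap))) x := by
  have : (cochain (alphaTwo f)).comp (mapChains g k) =
      cochain (alphaTwo (fun P Q => f (P.map g.toLinearMap) (Q.map g.toLinearMap))) := by
    apply chains_hom_ext
    rintro ⟨p, φ, h1, h2⟩
    rw [AddMonoidHom.comp_apply, mapChains_single, cochain_single,
      cochain_toChain_full _ (h1.map g) (h2.map g)]
    exact alphaTwo_map f g φ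
  exact DFunLike.congr_fun this x

theorem cochain_add (f f' : Submodule R M → Submodule R M → ℝ) (x : Chains R M k) :
    cochain (alphaTwo (fun P Q => f P Q + f' P Q)) x =
      cochain (alphaTwo f) x + cochain (alphaTwo f') x := by
  have : cochain (k := k) (alphaTwo (fun P Q => f P Q + f' P Q)) =
      cochain (alphaTwo f) + cochain (alphaTwo f') := by
    apply chains_hom_ext
    rintro ⟨p, φ, h1, h2⟩
    rw [AddMonoidHom.add_apply, cochain_single, cochain_single, cochain_single]
    exact alphaTwo_add f f' φ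
  rw [this, AddMonoidHom.add_apply]

/-- Two additive maps that agree on the simplices of degree `m` agree on chains of degree `m`. -/
theorem eq_on_degree {m : ℕ} {A : Type*} [AddCommGroup A] (F G : Chains R M k →+ A)
    (h : ∀ s : FullLattice R M k, ∑ i, s.p i = m → F (simplex s) = G (simplex s))
    {x : Chains R M k} (hx : x ∈ DegreeChains R M k m) : F x = G x := by
  have h1 := degreeChains_le_comap (F - G) (S := ⊥) (fun s hs => by
    rw [AddSubgroup.mem_bot, AddMonoidHom.sub_apply, h s hs, sub_self]) hx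
  rw [AddSubgroup.mem_bot, AddMonoidHom.sub_apply, sub_eq_zero] at h1
  exact h1

end general

section rankTwo

variable {R : Type u} [CommRing R] [IsDomain R] {k : ℕ}

theorem cochain_boundaries
    (f : Submodule R (Fin 2 → R) → Submodule R (Fin 2 → R) → ℝ) (hf0 : OnCompl f)
    (hf : ∀ P Q, f Q P = -f P Q) {x : Chains R (Fin 2 → R) k}
    (hx : x ∈ Boundaries R (Fin 2 → R) k (2 + k)) : cochain (alphaTwo f) x = 0 := by
  obtain ⟨y, hy, rfl⟩ := hx
  have := eq_on_degree ((cochain (alphaTwo f)).comp (bdry R (Fin 2 → R) k)) 0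
    (fun s hs => by
      rw [AddMonoidHom.comp_apply, bdry_single, AddMonoidHom.zero_apply]
      exact cochain_alphaTwo_bdry f hf0 hf s (by rw [hs]; ring)) hy
  exact this

theorem cochain_delta_cycles (h : Submodule R (Fin 2 → R) → ℝ) (h0 : h ⊥ = 0) (h1 : h ⊤ = 0)
    {x : Chains R (Fin 2 → R) k} (hx : x ∈ Cycles R (Fin 2 → R) k (2 + k)) :
    cochain (alphaTwo (deltaOne h)) x = 0 := by
  have := eq_on_degree ((cochain (alphaOne h)).comp (bdry R (Fin 2 → R) k))
    (-cochain (alphaTwo (deltaOne h)))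
    (fun s hs => by
      rw [AddMonoidHom.comp_apply, bdry_single, AddMonoidHom.neg_apply, cochain_single]
      exact cochain_alphaOne_bdry h h0 h1 s hs) hx.1
  have hx2 : bdry R (Fin 2 → R) k x = 0 := hx.2
  rw [AddMonoidHom.comp_apply, hx2, map_zero, AddMonoidHom.neg_apply] at this
  linarith

/-- `f` is invariant up to coboundaries. -/
def QuasiInvariant (f : Submodule R (Fin 2 → R) → Submodule R (Fin 2 → R) → ℝ) : Prop :=
  ∀ g : (Fin 2 → R) ≃ₗ[R] (Fin 2 → R), ∃ h : Submodule R (Fin 2 → R) → ℝ,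
    h ⊥ = 0 ∧ h ⊤ = 0 ∧
      ∀ P Q, f (P.map g.toLinearMap) (Q.map g.toLinearMap) = f P Q + deltaOne h P Q

theorem cochain_map_cycles
    (f : Submodule R (Fin 2 → R) → Submodule R (Fin 2 → R) → ℝ) (hq : QuasiInvariant f)
    (g : (Fin 2 → R) ≃ₗ[R] (Fin 2 → R)) {x : Chains R (Fin 2 → R) k}
    (hx : x ∈ Cycles R (Fin 2 → R) k (2 + k)) :
    cochain (alphaTwo f) (mapChains g k x) = cochain (alphaTwo f) x := by
  obtain ⟨h, h0, h1, h2⟩ := hq g
  rw [cochain_map]
  have : (fun P Q : Submodule R (Fin 2 → R) =>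
      f (P.map g.toLinearMap) (Q.map g.toLinearMap)) = fun P Q => f P Q + deltaOne h P Q := by
    funext P Q
    exact h2 P Q
  rw [this, cochain_add, cochain_delta_cycles h h0 h1 hx, add_zero]

/-- The functional on `H̃_{2+k}(D^k(R²))`. -/
def functionalHom
    (f : Submodule R (Fin 2 → R) → Submodule R (Fin 2 → R) → ℝ) (hf0 : OnCompl f)
    (hf : ∀ P Q, f Q P = -f P Q) (k : ℕ) : Homology R (Fin 2 → R) k (2 + k) →+ ℝ :=
  QuotientAddGroup.lift
    ((Boundaries R (Fin 2 → R) k (2 + k)).addSubgroupOf (Cycles R (Fin 2 → R) k (2 + k)))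
    ((cochain (alphaTwo f)).comp (Cycles R (Fin 2 → R) k (2 + k)).subtype)
    (fun _ hx => cochain_boundaries f hf0 hf hx)

theorem functionalHom_susp
    (f : Submodule R (Fin 2 → R) → Submodule R (Fin 2 → R) → ℝ) (hf0 : OnCompl f)
    (hf : ∀ P Q, f Q P = -f P Q) (k : ℕ) :
    (functionalHom f hf0 hf (k + 1)).comp (suspHomology R (Fin 2 → R) k (2 + k)) =
      functionalHom f hf0 hf k := by
  apply homology_hom_ext
  intro x
  exact cochain_susp f x.1

theorem functionalHom_stabMap
    (f : Submodule R (Fin 2 → R) → Submodule R (Fin 2 → R) → ℝ) (hf0 : OnCompl f)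
    (hf : ∀ P Q, f Q P = -f P Q) {a b : ℕ} (h : a ≤ b) :
    (functionalHom f hf0 hf (b + 1)).comp (stabMap R (Fin 2 → R) 2 a b h) =
      functionalHom f hf0 hf (a + 1) := by
  induction b, h using Nat.le_induction with
  | base => rw [stabMap_self, AddMonoidHom.comp_id]
  | succ b hab ih =>
    rw [stabMap_succ 2 hab, ← AddMonoidHom.comp_assoc]
    have := functionalHom_susp f hf0 hf (b + 1)
    rw [← ih, ← this]

/-- The functional on `H_2(𝐃(R²))`. -/
def functionalStable
    (f : Submodule R (Fin 2 → R) → Submodule R (Fin 2 → R) → ℝ) (hf0 : OnCompl f)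
    (hf : ∀ P Q, f Q P = -f P Q) : StableHomology R (Fin 2 → R) 2 →+ ℝ :=
  AddCommGroup.DirectLimit.lift _ _ ℝ (fun a => functionalHom f hf0 hf (a + 1))
    (fun _ _ h x => DFunLike.congr_fun (functionalHom_stabMap f hf0 hf h) x)

/-- The class in `H_i(𝐃(R²))` of a class in `H̃_{i+k}(D^k(R²))`. -/
def toStable (R : Type u) [CommRing R] (i a : ℕ) :
    Homology R (Fin 2 → R) (a + 1) (i + (a + 1)) →+ StableHomology R (Fin 2 → R) i :=
  AddCommGroup.DirectLimit.of (fun a : ℕ => Homology R (Fin 2 → R) (a + 1) (i + (a + 1)))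
    (stabMap R (Fin 2 → R) i) a

/-- The class of a cycle. -/
def cycleClass {k m : ℕ} (z : Cycles R (Fin 2 → R) k m) : Homology R (Fin 2 → R) k m :=
  QuotientAddGroup.mk' ((Boundaries R (Fin 2 → R) k m).addSubgroupOf
    (Cycles R (Fin 2 → R) k m)) z

theorem functionalStable_of
    (f : Submodule R (Fin 2 → R) → Submodule R (Fin 2 → R) → ℝ) (hf0 : OnCompl f)
    (hf : ∀ P Q, f Q P = -f P Q) (a : ℕ) (x : Homology R (Fin 2 → R) (a + 1) (2 + (a + 1))) :
    functionalStable f hf0 hf (toStable R 2 a x) =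
      functionalHom f hf0 hf (a + 1) x := AddCommGroup.DirectLimit.lift_of _ _ _ _ _

theorem mapStable_of (g : (Fin 2 → R) ≃ₗ[R] (Fin 2 → R)) (i a : ℕ)
    (x : Homology R (Fin 2 → R) (a + 1) (i + (a + 1))) :
    mapStable g i (toStable R i a x) =
      toStable R i a (mapHomology g (a + 1) (i + (a + 1)) x) :=
  AddCommGroup.DirectLimit.map_apply_of _ _ _

theorem stable_hom_ext {i : ℕ} {A : Type v} [AddCommGroup A]
    {f g : StableHomology R (Fin 2 → R) i →+ A}
    (h : ∀ a x, f (toStable R i a x) = g (toStable R i a x)) : f = g :=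
  AddCommGroup.DirectLimit.hom_ext _ fun a => AddMonoidHom.ext (h a)

theorem functionalStable_map
    (f : Submodule R (Fin 2 → R) → Submodule R (Fin 2 → R) → ℝ) (hf0 : OnCompl f)
    (hf : ∀ P Q, f Q P = -f P Q) (hq : QuasiInvariant f)
    (g : (Fin 2 → R) ≃ₗ[R] (Fin 2 → R)) (x : StableHomology R (Fin 2 → R) 2) :
    functionalStable f hf0 hf (mapStable g 2 x) = functionalStable f hf0 hf x := by
  have : (functionalStable f hf0 hf).comp (mapStable g 2) = functionalStable f hf0 hf := by
    apply stable_hom_ext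
    intro a y
    rw [AddMonoidHom.comp_apply, mapStable_of, functionalStable_of, functionalStable_of]
    obtain ⟨y, rfl⟩ := QuotientAddGroup.mk'_surjective _ y
    exact cochain_map_cycles f hq g y.2
  exact DFunLike.congr_fun this x

/-- The functional on the coinvariants. -/
def functionalCoinv
    (f : Submodule R (Fin 2 → R) → Submodule R (Fin 2 → R) → ℝ) (hf0 : OnCompl f)
    (hf : ∀ P Q, f Q P = -f P Q) (hq : QuasiInvariant f) :
    StableCoinvariants R (Fin 2 → R) 2 →+ ℝ :=
  QuotientAddGroup.lift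
    (AddSubgroup.closure {y | ∃ (g : (Fin 2 → R) ≃ₗ[R] (Fin 2 → R))
      (x : StableHomology R (Fin 2 → R) 2), y = mapStable g 2 x - x})
    (functionalStable f hf0 hf) (by
      have h : AddSubgroup.closure {y | ∃ (g : (Fin 2 → R) ≃ₗ[R] (Fin 2 → R))
          (x : StableHomology R (Fin 2 → R) 2), y = mapStable g 2 x - x} ≤
            (functionalStable f hf0 hf).ker := by
        rw [AddSubgroup.closure_le]
        rintro _ ⟨g, x, rfl⟩
        change functionalStable f hf0 hf (mapStable g 2 x - x) = 0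
        rw [map_sub, functionalStable_map f hf0 hf hq, sub_self]
      exact fun x hx => h hx)

/-- The class in the coinvariants. -/
def toCoinv (R : Type u) [CommRing R] (i : ℕ) :
    StableHomology R (Fin 2 → R) i →+ StableCoinvariants R (Fin 2 → R) i :=
  QuotientAddGroup.mk' (AddSubgroup.closure {y | ∃ (g : (Fin 2 → R) ≃ₗ[R] (Fin 2 → R))
    (x : StableHomology R (Fin 2 → R) i), y = mapStable g i x - x})

theorem functionalCoinv_mk
    (f : Submodule R (Fin 2 → R) → Submodule R (Fin 2 → R) → ℝ) (hf0 : OnCompl f)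
    (hf : ∀ P Q, f Q P = -f P Q) (hq : QuasiInvariant f) (a : ℕ)
    (z : Cycles R (Fin 2 → R) (a + 1) (2 + (a + 1))) :
    functionalCoinv f hf0 hf hq (toCoinv R 2 (toStable R 2 a (cycleClass z))) =
      cochain (alphaTwo f) z.1 := by
  change functionalStable f hf0 hf (toStable R 2 a (cycleClass z)) = _
  rw [functionalStable_of]
  rfl

/-- If the functional is non-zero on some cycle, the coinvariants are not torsion. -/
theorem exists_infinite_order
    (f : Submodule R (Fin 2 → R) → Submodule R (Fin 2 → R) → ℝ) (hf0 : OnCompl f)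
    (hf : ∀ P Q, f Q P = -f P Q) (hq : QuasiInvariant f) (a : ℕ)
    (z : Chains R (Fin 2 → R) (a + 1)) (hz : z ∈ Cycles R (Fin 2 → R) (a + 1) (2 + (a + 1)))
    (hne : cochain (alphaTwo f) z ≠ 0) :
    ∃ x : StableCoinvariants R (Fin 2 → R) 2, ∀ n : ℕ, 0 < n → n • x ≠ 0 := by
  refine ⟨toCoinv R 2 (toStable R 2 a (cycleClass ⟨z, hz⟩)), ?_⟩
  intro n hn h
  have h1 := congrArg (functionalCoinv f hf0 hf hq) h
  rw [map_nsmul, functionalCoinv_mk, map_zero] at h1
  have h2 : (n : ℝ) * cochain (alphaTwo f) z = 0 := by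
    rw [← nsmul_eq_mul]; exact h1
  rcases mul_eq_zero.1 h2 with h3 | h3
  · have : n = 0 := by exact_mod_cast h3
    omega
  · exact hne h3

end rankTwo

end

end Pool.Agent.Lib.Helper86.StableBuilding
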