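import Pool.Agent.Lib.Helper86.StableBuilding.Functional

/-!
# Lattices with two jumps
-/

set_option autoImplicit false

namespace Pool.Agent.Lib.Helper86.StableBuilding

noncomputable section

universe u v w

section generic

variable {R : Type u} [CommRing R] {M : Type v} [AddCommGroup M] [Module R M]
  {J : Type w} [Preorder J]

open Classical in
/-- The value of a jump functor. -/
def jumpVal (L L' : Submodule R M) (P Q : Prop) : Submodule R M :=
  if P then (if Q then ⊤ else L) else (if Q then L' else ⊥)

theorem left_le_jumpVal (L L' : Submodule R M) {P : Prop} (Q : Prop) (h : P) :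
    L ≤ jumpVal L L' P Q := by
  by_cases hQ : Q <;> simp [jumpVal, h, hQ]

theorem right_le_jumpVal (L L' : Submodule R M) (P : Prop) {Q : Prop} (h : Q) :
    L' ≤ jumpVal L L' P Q := by
  by_cases hP : P <;> simp [jumpVal, h, hP]

theorem jumpVal_le_right (L L' : Submodule R M) {P : Prop} (Q : Prop) (h : ¬ P) :
    jumpVal L L' P Q ≤ L' := by
  by_cases hQ : Q <;> simp [jumpVal, h, hQ]

theorem jumpVal_le_left (L L' : Submodule R M) (P : Prop) {Q : Prop} (h : ¬ Q) :
    jumpVal L L' P Q ≤ L := by
  by_cases hP : P <;> simp [jumpVal, h, hP]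

theorem jumpVal_symm (L L' : Submodule R M) (P Q : Prop) :
    jumpVal L L' P Q = jumpVal L' L Q P := by
  by_cases hP : P <;> by_cases hQ : Q <;> simp [jumpVal, hP, hQ]

open Classical in
theorem good_jump {L L' : Submodule R M} (hc : IsCompl L L') (U U' : J → Prop)
    (hmin : (∀ c, ¬ U c) ∨ ∃ m, U m ∧ ∀ c, U c → m ≤ c)
    (hmin' : (∀ c, ¬ U' c) ∨ ∃ m, U' m ∧ ∀ c, U' c → m ≤ c)
    {N : J → Submodule R M} (hN : Monotone N) (hval : ∀ c, N c = jumpVal L L' (U c) (U' c)) :
    Good N hN := by
  -- the partial inverse on one summand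
  have part : ∀ (K : Submodule R M) (V : J → Prop)
      (_ : (∀ c, ¬ V c) ∨ ∃ m, V m ∧ ∀ c, V c → m ≤ c) (hK : ∀ c, V c → K ≤ N c),
      ∃ G : K →ₗ[R] Colim N hN, ∀ c (hV : V c) (y : K), G y = gof N hN c ⟨y.1, hK c hV y.2⟩ := by
    intro K V hm hK
    rcases hm with hm | ⟨m, hm, hmin⟩
    · exact ⟨0, fun c hV => absurd hV (hm c)⟩
    · refine ⟨(gof N hN m).comp (Submodule.inclusion (hK m hm)), ?_⟩
      intro c hV y
      exact (gof_le (N := N) (hN := hN) (hmin c hV) (⟨y.1, hK m hm y.2⟩ : N m)).symm
  obtain ⟨G, hG⟩ := part L U hmin (fun c h => by rw [hval]; exact left_le_jumpVal _ _ _ h)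
  obtain ⟨G', hG'⟩ := part L' U' hmin' (fun c h => by rw [hval]; exact right_le_jumpVal _ _ _ h)
  have hid : (LinearMap.id : Colim N hN →ₗ[R] Colim N hN) =
      (G.comp (Submodule.projectionOnto L L' hc)).comp (toM N hN) +
        (G'.comp (Submodule.projectionOnto L' L hc.symm)).comp (toM N hN) := by
    apply gcolim_ext
    intro c x
    rw [LinearMap.id_apply, LinearMap.add_apply, LinearMap.comp_apply, LinearMap.comp_apply,
      LinearMap.comp_apply, LinearMap.comp_apply, toM_of]
    have hx : x.1 ∈ jumpVal L L' (U c) (U' c) := (hval c).le x.2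
    have hsum : ((Submodule.projectionOnto L L' hc x.1 : L) : M) +
        ((Submodule.projectionOnto L' L hc.symm x.1 : L') : M) = x.1 :=
      Submodule.projection_add_projection_eq_self hc x.1
    by_cases hU : U c
    · rw [hG c hU]
      by_cases hU' : U' c
      · rw [hG' c hU', ← map_add]
        congr 1
        exact Subtype.ext hsum.symm
      · have hxL : x.1 ∈ L := jumpVal_le_left L L' (U c) hU' hx
        have h0 : Submodule.projectionOnto L' L hc.symm x.1 = 0 :=
          (Submodule.projectionOnto_apply_eq_zero_iff hc.symm).2 hxL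
        rw [h0, map_zero, add_zero]
        congr 1
        rw [h0, Submodule.coe_zero, add_zero] at hsum
        exact Subtype.ext hsum.symm
    · have hxL : x.1 ∈ L' := jumpVal_le_right L L' (U' c) hU hx
      have h0 : Submodule.projectionOnto L L' hc x.1 = 0 :=
        (Submodule.projectionOnto_apply_eq_zero_iff hc).2 hxL
      rw [h0, map_zero, zero_add]
      rw [h0, Submodule.coe_zero, zero_add] at hsum
      by_cases hU' : U' c
      · rw [hG' c hU']
        congr 1
        exact Subtype.ext hsum.symm
      · have hx0 : x.1 ∈ L := jumpVal_le_left L L' (U c) hU' hx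
        have h1 : x.1 = 0 := Submodule.disjoint_def.1 hc.disjoint _ hx0 hxL
        have h2 : x = 0 := Subtype.ext h1
        rw [h2, map_zero, Submodule.coe_zero, map_zero, map_zero]
  refine ⟨?_, ?_⟩
  · rw [injective_iff_map_eq_zero]
    intro z hz
    have h1 := LinearMap.congr_fun hid z
    have e1 : ((G.comp (Submodule.projectionOnto L L' hc)).comp (toM N hN)) z = 0 := by
      rw [LinearMap.comp_apply, hz, map_zero]
    have e2 : ((G'.comp (Submodule.projectionOnto L' L hc.symm)).comp (toM N hN)) z = 0 := by
      rw [LinearMap.comp_apply, hz, map_zero]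
    rw [LinearMap.id_apply, LinearMap.add_apply, e1, e2, add_zero] at h1
    exact h1
  · have hsup : (⨆ c, N c) = jumpVal L L' (∃ c, U c) (∃ c, U' c) := by
      apply le_antisymm
      · refine iSup_le fun c => ?_
        rw [hval]
        by_cases hU : U c
        · by_cases hU' : U' c
          · have h1 : ∃ c, U c := ⟨c, hU⟩
            have h2 : ∃ c, U' c := ⟨c, hU'⟩
            simp [jumpVal, hU, hU', h1, h2]
          · exact (jumpVal_le_left _ _ _ hU').trans (left_le_jumpVal _ _ _ ⟨c, hU⟩)
        · by_cases hU' : U' c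
          · exact (jumpVal_le_right _ _ _ hU).trans (right_le_jumpVal _ _ _ ⟨c, hU'⟩)
          · simp only [jumpVal, if_neg hU, if_neg hU']
            exact bot_le
      · have h1 : (∃ c, U c) → L ≤ ⨆ c, N c := by
          rintro ⟨c, hc⟩
          exact (left_le_jumpVal L L' (U' c) hc).trans ((hval c).symm.le.trans (le_iSup N c))
        have h2 : (∃ c, U' c) → L' ≤ ⨆ c, N c := by
          rintro ⟨c, hc⟩
          exact (right_le_jumpVal L L' (U c) hc).trans ((hval c).symm.le.trans (le_iSup N c))
        by_cases hU : ∃ c, U c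
        · by_cases hU' : ∃ c, U' c
          · have : (⊤ : Submodule R M) ≤ ⨆ c, N c := by
              rw [← hc.sup_eq_top]
              exact sup_le (h1 hU) (h2 hU')
            exact le_top.trans this
          · exact (jumpVal_le_left _ _ _ hU').trans (h1 hU)
        · by_cases hU' : ∃ c, U' c
          · exact (jumpVal_le_right _ _ _ hU).trans (h2 hU')
          · have : jumpVal L L' (∃ c, U c) (∃ c, U' c) = ⊥ := by
              simp only [jumpVal, if_neg hU, if_neg hU']
            rw [this]; exact bot_le
    rw [hsup]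
    by_cases hU : ∃ c, U c
    · by_cases hU' : ∃ c, U' c
      · refine ⟨⊥, ?_⟩
        simp only [jumpVal, if_pos hU, if_pos hU']
        exact isCompl_top_bot
      · refine ⟨L', ?_⟩
        simp only [jumpVal, if_pos hU, if_neg hU']
        exact hc
    · by_cases hU' : ∃ c, U' c
      · refine ⟨L, ?_⟩
        simp only [jumpVal, if_neg hU, if_pos hU']
        exact hc.symm
      · refine ⟨⊤, ?_⟩
        simp only [jumpVal, if_neg hU, if_neg hU']
        exact isCompl_bot_top

end generic

section jump

variable {R : Type u} [CommRing R] {M : Type v} [AddCommGroup M] [Module R M] {k : ℕ}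

theorem jumpVal_summand (L L' : Summand R M) (P Q : Prop) :
    ∃ S : Submodule R M, IsCompl (jumpVal L.1 L'.1 P Q) S := by
  by_cases hP : P
  · by_cases hQ : Q
    · exact ⟨⊥, by simpa [jumpVal, hP, hQ] using isCompl_top_bot⟩
    · obtain ⟨S, hS⟩ := L.2
      exact ⟨S, by simpa [jumpVal, hP, hQ] using hS⟩
  · by_cases hQ : Q
    · obtain ⟨S, hS⟩ := L'.2
      exact ⟨S, by simpa [jumpVal, hP, hQ] using hS⟩
    · exact ⟨⊤, by simpa [jumpVal, hP, hQ] using isCompl_bot_top⟩

theorem jumpVal_mono (L L' : Submodule R M) {P Q P' Q' : Prop} (h : P → P') (h' : Q → Q') :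
    jumpVal L L' P Q ≤ jumpVal L L' P' Q' := by
  by_cases hP : P
  · by_cases hQ : Q
    · simp [jumpVal, hP, hQ, h hP, h' hQ]
    · exact (jumpVal_le_left _ _ _ hQ).trans (left_le_jumpVal _ _ _ (h hP))
  · by_cases hQ : Q
    · exact (jumpVal_le_right _ _ _ hP).trans (right_le_jumpVal _ _ _ (h' hQ))
    · simp [jumpVal, hP, hQ]

/-- The functor on the grid `p` that jumps by `L` at `β` and by `L'` at `β'`. -/
def jump (p : Fin k → ℕ) (L L' : Summand R M) (β β' : Fin k → ℕ) : Grid p →o Summand R M where
  toFun a := ⟨jumpVal L.1 L'.1 (β ≤ a.1) (β' ≤ a.1), jumpVal_summand L L' _ _⟩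
  monotone' _ _ hab := jumpVal_mono _ _ (fun h => h.trans hab) (fun h => h.trans hab)

theorem jump_val {p : Fin k → ℕ} (L L' : Summand R M) (β β' : Fin k → ℕ) (a : Grid p) :
    (jump p L L' β β' a).1 = jumpVal L.1 L'.1 (β ≤ a.1) (β' ≤ a.1) := rfl

/-- Either no element of the punctured cube is above `β`, or there is a least one. -/
theorem exists_least {p : Fin k → ℕ} (β : Fin k → ℕ) (a b : Grid p) (hab : a ≤ b) :
    (∀ c : PuncturedCube a b, ¬ β ≤ c.1.1) ∨
      ∃ m : PuncturedCube a b, β ≤ m.1.1 ∧ ∀ c : PuncturedCube a b, β ≤ c.1.1 → m ≤ c := by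
  by_cases h : ∃ c : PuncturedCube a b, β ≤ c.1.1
  · right
    obtain ⟨c, hc⟩ := h
    have hcb : ∀ l, c.1.1 l ≤ b.1 l := PuncturedCube.le hab c
    have hlow : ∀ (d : PuncturedCube a b), β ≤ d.1.1 → ∀ l,
        (if β l ≤ a.1 l then a.1 l else b.1 l) ≤ d.1.1 l := by
      intro d hd l
      have hal : a.1 l ≤ b.1 l := hab l
      have hdl : β l ≤ d.1.1 l := hd l
      split_ifs with h1
      · rcases d.vertex l with h2 | h2
        · rw [h2]
        · rw [h2]; exact hal
      · rcases d.vertex l with h2 | h2
        · rw [h2] at hdl; exact absurd hdl h1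
        · rw [h2]
    refine ⟨⟨⟨fun l => if β l ≤ a.1 l then a.1 l else b.1 l, ?_⟩, ?_, ?_⟩, ?_, ?_⟩
    · intro l
      exact (hlow c hc l).trans (c.1.2 l)
    · intro l
      change (if β l ≤ a.1 l then a.1 l else b.1 l) = _ ∨
        (if β l ≤ a.1 l then a.1 l else b.1 l) = _
      split_ifs
      · left; rfl
      · right; rfl
    · intro hb
      apply c.ne
      apply Grid.ext
      funext l
      have h3 : (if β l ≤ a.1 l then a.1 l else b.1 l) = b.1 l :=
        congrFun (congrArg Grid.val hb) l
      exact le_antisymm (hcb l) (h3 ▸ hlow c hc l)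
    · intro l
      change β l ≤ if β l ≤ a.1 l then a.1 l else b.1 l
      split_ifs with h1
      · exact h1
      · exact (hc l).trans (hcb l)
    · intro d hd l
      exact hlow d hd l
  · left
    intro c hc
    exact h ⟨c, hc⟩

theorem jump_isLattice (p : Fin k → ℕ) {L L' : Summand R M} (hc : IsCompl L.1 L'.1)
    (β β' : Fin k → ℕ) : IsLattice (jump p L L' β β') := by
  rw [isLattice_iff]
  intro a b hab
  exact good_jump hc (fun c => β ≤ c.1.1) (fun c => β' ≤ c.1.1)
    (exists_least β a b hab) (exists_least β' a b hab) _ (fun _ => rfl)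

theorem jump_isFull {p : Fin k → ℕ} (L L' : Summand R M)
    {β β' : Fin k → ℕ} (hβ : ∀ i, 1 ≤ β i) (hβ' : ∀ i, 1 ≤ β' i) (hp : β ≤ p) (hp' : β' ≤ p) :
    IsFull (jump p L L' β β') := by
  refine ⟨?_, ?_⟩
  · rintro a ⟨i, hi⟩
    rw [jump_val]
    have h1 : ¬ β ≤ a.1 := fun h => by
      have h3 : β i ≤ a.1 i := h i
      have := hβ i
      omega
    have h2 : ¬ β' ≤ a.1 := fun h => by
      have h3 : β' i ≤ a.1 i := h i
      have := hβ' i
      omega
    simp only [jumpVal, if_neg h1, if_neg h2]
  · rw [jump_val]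
    simp only [jumpVal, if_pos hp, if_pos hp']

theorem jump_swap (p : Fin k → ℕ) (L L' : Summand R M) (β β' : Fin k → ℕ) :
    jump p L L' β β' = jump p L' L β' β := by
  apply OrderHom.ext
  funext a
  apply Summand.ext
  rw [jump_val, jump_val, jumpVal_symm]

theorem jump_indep (p : Fin k → ℕ) (L L' L'' : Summand R M) {β β' : Fin k → ℕ} (h : β ≤ β') :
    jump p L L' β β' = jump p L L'' β β' := by
  apply OrderHom.ext
  funext a
  apply Summand.ext
  rw [jump_val, jump_val]
  by_cases h' : β' ≤ a.1
  · have h1 : β ≤ a.1 := h.trans h'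
    simp only [jumpVal, if_pos h1, if_pos h']
  · by_cases h1 : β ≤ a.1
    · simp only [jumpVal, if_pos h1, if_neg h']
    · simp only [jumpVal, if_neg h1, if_neg h']

/-- `δ_j` is a right adjoint: `x ≤ δ_j(y) ↔ σ_j(x) ≤ y`. -/
theorem le_skip_iff (j x y : ℕ) :
    x ≤ (if y < j then y else y + 1) ↔ (if x ≤ j then x else x - 1) ≤ y := by
  split_ifs <;> omega

/-- Faces of jump functors. -/
theorem jump_comp_coface (p : Fin k → ℕ) (L L' : Summand R M) (β β' : Fin k → ℕ) (i : Fin k)
    (hi : 1 ≤ p i) (j : ℕ) :
    (jump p L L' β β').comp (coface p i hi j) =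
      jump _ L L' (Function.update β i (if β i ≤ j then β i else β i - 1))
        (Function.update β' i (if β' i ≤ j then β' i else β' i - 1)) := by
  apply OrderHom.ext
  funext a
  apply Summand.ext
  have key : ∀ γ : Fin k → ℕ, γ ≤ (coface p i hi j a).1 ↔
      Function.update γ i (if γ i ≤ j then γ i else γ i - 1) ≤ a.1 := by
    intro γ
    constructor
    · intro h l
      by_cases hl : l = i
      · subst hl
        have := h l
        rw [coface_val_self, le_skip_iff] at this
        rw [Function.update_self]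
        exact this
      · have := h l
        rw [coface_val_ne i hi j a hl] at this
        rw [Function.update_of_ne hl]
        exact this
    · intro h l
      by_cases hl : l = i
      · subst hl
        have := h l
        rw [Function.update_self] at this
        rw [coface_val_self, le_skip_iff]
        exact this
      · have := h l
        rw [Function.update_of_ne hl] at this
        rw [coface_val_ne i hi j a hl]
        exact this
  change (jump p L L' β β' (coface p i hi j a)).1 = _
  rw [jump_val, jump_val]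
  have h1 := propext (key β)
  have h2 := propext (key β')
  rw [h1, h2]

end jump

end

end Pool.Agent.Lib.Helper86.StableBuilding
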