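import Pool.Agent.Lib.Helper86.StableBuilding.Symbol

/-!
# The logarithmic tame symbol on `ℝ((z))`
-/

set_option autoImplicit false

namespace Pool.Agent.Lib.Helper86.StableBuilding

noncomputable section

open HahnSeries

/-- The logarithm of the absolute value of the tame symbol on `ℝ((z))`. -/
def tame (a b : HahnSeries ℤ ℝ) : ℝ :=
  (b.order : ℝ) * Real.log a.leadingCoeff - (a.order : ℝ) * Real.log b.leadingCoeff

theorem order_eq_of {a : HahnSeries ℤ ℝ} {n : ℤ} (h : a.coeff n ≠ 0)
    (h' : ∀ m < n, a.coeff m = 0) : a.order = n := by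
  apply le_antisymm
  · exact order_le_of_coeff_ne_zero h
  · by_contra hlt
    push Not at hlt
    have h1 := h' _ hlt
    have h2 : a ≠ 0 := by
      rintro rfl
      exact h (by simp)
    exact h2 (coeff_order_eq_zero.1 h1)

theorem one_sub_of_pos {a b : HahnSeries ℤ ℝ} (h : a + b = 1) (hpos : 0 < a.order) :
    b.order = 0 ∧ b.leadingCoeff = 1 := by
  have hb : b = 1 - a := by rw [← h]; ring
  have hc : ∀ m ≤ 0, a.coeff m = 0 := fun m hm => coeff_eq_zero_of_lt_order (by omega)
  have h0 : b.coeff 0 = 1 := by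
    rw [hb, coeff_sub, hc 0 le_rfl]
    simp
  have h1 : b.order = 0 := by
    apply order_eq_of
    · rw [h0]; exact one_ne_zero
    · intro m hm
      rw [hb, coeff_sub, hc m hm.le, sub_zero, coeff_one, if_neg hm.ne]
  refine ⟨h1, ?_⟩
  rw [leadingCoeff_eq, h1, h0]

theorem one_sub_of_neg {a b : HahnSeries ℤ ℝ} (ha : a ≠ 0) (h : a + b = 1)
    (hneg : a.order < 0) : b.order = a.order ∧ b.leadingCoeff = -a.leadingCoeff := by
  have hb : b = 1 - a := by rw [← h]; ring
  have h0 : b.coeff a.order = -a.leadingCoeff := by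
    rw [hb, coeff_sub, coeff_one, if_neg hneg.ne, leadingCoeff_eq, zero_sub]
  have h1 : b.order = a.order := by
    apply order_eq_of
    · rw [h0, neg_ne_zero]; exact leadingCoeff_ne_zero.2 ha
    · intro m hm
      rw [hb, coeff_sub, coeff_eq_zero_of_lt_order hm, sub_zero, coeff_one,
        if_neg (by omega)]
  refine ⟨h1, ?_⟩
  rw [leadingCoeff_eq, h1, h0]

theorem tame_isSymbol : IsSymbol tame where
  zero_left b := by
    unfold tame
    simp
  mul_left a b c ha hb := by
    unfold tame
    have h1 : a.leadingCoeff * b.leadingCoeff ≠ 0 :=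
      mul_ne_zero (leadingCoeff_ne_zero.2 ha) (leadingCoeff_ne_zero.2 hb)
    rw [leadingCoeff_mul_of_ne_zero h1, order_mul_of_ne_zero h1,
      Real.log_mul (leadingCoeff_ne_zero.2 ha) (leadingCoeff_ne_zero.2 hb)]
    push_cast
    ring
  anti a b := by
    unfold tame
    ring
  stein a b ha hb hab := by
    unfold tame
    rcases lt_trichotomy a.order 0 with h | h | h
    · obtain ⟨h1, h2⟩ := one_sub_of_neg ha hab h
      rw [h1, h2, Real.log_neg_eq_log]
      ring
    · rcases lt_trichotomy b.order 0 with h' | h' | h'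
      · have hba : b + a = 1 := by rw [add_comm]; exact hab
        obtain ⟨h1, h2⟩ := one_sub_of_neg hb hba h'
        rw [h] at h1
        omega
      · rw [h, h']
        simp
      · have hba : b + a = 1 := by rw [add_comm]; exact hab
        obtain ⟨h1, h2⟩ := one_sub_of_pos hba h'
        rw [h1, h2]
        simp
    · obtain ⟨h1, h2⟩ := one_sub_of_pos hab h
      rw [h1, h2]
      simp

end

end Pool.Agent.Lib.Helper86.StableBuilding
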