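import Pool.Agent.Lib.Helper86.StableBuilding.Symbol
import Pool.Agent.Lib.Helper86.StableBuilding.Cycle

/-!
# The quasi-invariant function of two lines given by a pair of Steinberg symbols
-/

set_option autoImplicit false

namespace Pool.Agent.Lib.Helper86.StableBuilding

noncomputable section

universe u v w

section one

variable {R : Type u} [CommRing R] {L : Type v} [Field L] {s : L → L → ℝ}
  (hs : IsSymbol s) (j : R →+* L) (e : Fin 2 → L)

/-- The `R`-linear functional on `R²` with values `e` on the standard basis. -/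
def lin (j : R →+* L) (e : Fin 2 → L) (v : Fin 2 → R) : L := j (v 0) * e 0 + j (v 1) * e 1

theorem lin_smul (r : R) (v : Fin 2 → R) : lin j e (r • v) = j r * lin j e v := by
  unfold lin
  simp only [Pi.smul_apply, smul_eq_mul, map_mul]
  ring

/-- The pairing of two vectors. -/
def pair (s : L → L → ℝ) (j : R →+* L) (e : Fin 2 → L) (v v' : Fin 2 → R) : ℝ :=
  mm s (lin j e v) (lin j e v') (j (det2 v v'))

include hs in
theorem pair_swap (v v' : Fin 2 → R) : pair s j e v' v = -pair s j e v v' := by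
  unfold pair
  rw [det2_swap, map_neg, hs.mm_swap]

theorem det2_smul_left (r : R) (v v' : Fin 2 → R) : det2 (r • v) v' = r * det2 v v' := by
  unfold det2
  simp only [Pi.smul_apply, smul_eq_mul]
  ring

theorem det2_smul_right (r : R) (v v' : Fin 2 → R) : det2 v (r • v') = r * det2 v v' := by
  unfold det2
  simp only [Pi.smul_apply, smul_eq_mul]
  ring

include hs in
theorem pair_smul_left {r : R} {v v' : Fin 2 → R} (hr : j r ≠ 0) (hv : lin j e v ≠ 0)
    (hd : j (det2 v v') ≠ 0) :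
    pair s j e (r • v) v' = pair s j e v v' + s (j r) (lin j e v) - s (j r) (j (det2 v v')) := by
  unfold pair
  rw [det2_smul_left, lin_smul, map_mul, hs.mm_scale hr hv hd]

include hs in
theorem pair_smul_right {r : R} {v v' : Fin 2 → R} (hr : j r ≠ 0) (hv : lin j e v' ≠ 0)
    (hd : j (det2 v v') ≠ 0) :
    pair s j e v (r • v') =
      pair s j e v v' - s (j r) (lin j e v') + s (j r) (j (det2 v v')) := by
  rw [← neg_neg (pair s j e v (r • v')), ← pair_swap hs, pair_smul_left hs j e hr hv, pair_swap hs,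
    det2_swap, map_neg, hs.neg_right]
  · ring
  · rw [det2_swap, map_neg, neg_ne_zero]; exact hd

/-- Decomposition in the standard basis. -/
theorem vec_eq (v : Fin 2 → R) :
    v = v 0 • (Pi.single 0 1 : Fin 2 → R) + v 1 • (Pi.single 1 1 : Fin 2 → R) := by
  funext i
  fin_cases i <;> simp

theorem lin_map (g : (Fin 2 → R) ≃ₗ[R] (Fin 2 → R)) (v : Fin 2 → R) :
    lin j e (g v) = lin j (fun i => lin j e (g (Pi.single i 1))) v := by
  conv_lhs => rw [vec_eq v, map_add, map_smul, map_smul]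
  unfold lin
  simp only [Pi.add_apply, Pi.smul_apply, smul_eq_mul, map_add, map_mul]
  ring

theorem det2_map (g : (Fin 2 → R) ≃ₗ[R] (Fin 2 → R)) (v v' : Fin 2 → R) :
    det2 (g v) (g v') = det2 (g (Pi.single 0 1)) (g (Pi.single 1 1)) * det2 v v' := by
  conv_lhs => rw [vec_eq v, vec_eq v', map_add, map_smul, map_smul, map_add, map_smul, map_smul]
  unfold det2
  simp only [Pi.add_apply, Pi.smul_apply, smul_eq_mul]
  ring

theorem lin_relation (e e' : Fin 2 → L) (v v' : Fin 2 → R) :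
    (e' 0 * e 1 - e' 1 * e 0) * j (det2 v v') =
      lin j e' v * lin j e v' - lin j e' v' * lin j e v := by
  unfold lin det2
  rw [map_sub, map_mul, map_mul]
  ring

/-- The correction term. -/
def corr (s : L → L → ℝ) (j : R →+* L) (e : Fin 2 → L) (g : (Fin 2 → R) ≃ₗ[R] (Fin 2 → R))
    (v : Fin 2 → R) : ℝ :=
  let e' : Fin 2 → L := fun i => lin j e (g (Pi.single i 1))
  let D : L := e' 0 * e 1 - e' 1 * e 0
  s (lin j e (g v)) (j (det2 (g (Pi.single 0 1)) (g (Pi.single 1 1)))) +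
    (s D (lin j e (g v)) - s D (lin j e v) + s (lin j e (g v)) (lin j e v))

include hs in
theorem pair_map (g : (Fin 2 → R) ≃ₗ[R] (Fin 2 → R)) {v v' : Fin 2 → R}
    (hv : lin j e v ≠ 0) (hv' : lin j e v' ≠ 0) (hgv : lin j e (g v) ≠ 0)
    (hgv' : lin j e (g v') ≠ 0) (hd : j (det2 v v') ≠ 0)
    (hg : j (det2 (g (Pi.single 0 1)) (g (Pi.single 1 1))) ≠ 0) :
    pair s j e (g v) (g v') = pair s j e v v' + corr s j e g v' - corr s j e g v := by
  have h1 : pair s j e (g v) (g v') = mm s (lin j e (g v)) (lin j e (g v')) (j (det2 v v')) -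
      s (lin j e (g v)) (j (det2 (g (Pi.single 0 1)) (g (Pi.single 1 1)))) +
      s (lin j e (g v')) (j (det2 (g (Pi.single 0 1)) (g (Pi.single 1 1)))) := by
    unfold pair
    rw [det2_map, map_mul, hs.mm_det hg hd]
  have h2 := lin_relation j e (fun i => lin j e (g (Pi.single i 1))) v v'
  rw [← lin_map, ← lin_map] at h2
  have h3 := hs.mm_change hv hv' hgv hgv' hd h2
  unfold corr
  unfold pair at h1 ⊢
  rw [h1]
  simp only
  linarith

end one

section lines

variable {R : Type u} [CommRing R] [IsDomain R]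

open Classical in
/-- A generator of a submodule (if it is cyclic). -/
def gen (P : Submodule R (Fin 2 → R)) : Fin 2 → R :=
  if h : ∃ v, P = Submodule.span R {v} then h.choose else 0

omit [IsDomain R] in
theorem gen_spec {P : Submodule R (Fin 2 → R)} (h : ∃ v, P = Submodule.span R {v}) :
    P = Submodule.span R {gen P} := by
  unfold gen
  rw [dif_pos h]
  exact h.choose_spec

/-- Over a PID, a line is generated by one vector. -/
theorem IsLine.exists_gen [IsPrincipalIdealRing R] {P : Submodule R (Fin 2 → R)}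
    (hP : IsLine P) : ∃ v, P = Submodule.span R {v} := by
  obtain ⟨x, hx, hx0⟩ := exists_ne_zero_of_ne_bot hP.2.1
  obtain ⟨Q, hQ⟩ := hP.1
  -- the gcd of the coordinates
  obtain ⟨g, hg⟩ := (IsPrincipalIdealRing.principal (Ideal.span {x 0, x 1})).principal
  have hg0 : x 0 ∈ Ideal.span {g} := by
    have : x 0 ∈ Ideal.span {x 0, x 1} := Ideal.subset_span (by simp)
    rw [hg] at this; exact this
  have hg1 : x 1 ∈ Ideal.span {g} := by
    have : x 1 ∈ Ideal.span {x 0, x 1} := Ideal.subset_span (by simp)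
    rw [hg] at this; exact this
  have hgm : g ∈ Ideal.span {x 0, x 1} := by
    rw [hg]; exact Submodule.mem_span_singleton_self g
  obtain ⟨y0, hy0⟩ := Ideal.mem_span_singleton'.1 hg0
  obtain ⟨y1, hy1⟩ := Ideal.mem_span_singleton'.1 hg1
  obtain ⟨α, β, hαβ⟩ := Ideal.mem_span_pair.1 hgm
  have hgne : g ≠ 0 := by
    rintro rfl
    apply hx0
    funext i
    fin_cases i
    · change x 0 = 0; rw [← hy0, mul_zero]
    · change x 1 = 0; rw [← hy1, mul_zero]
  let v : Fin 2 → R := ![y0, y1]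
  have hxv : g • v = x := by
    funext i
    fin_cases i
    · change g * y0 = x 0; rw [← hy0, mul_comm]
    · change g * y1 = x 1; rw [← hy1, mul_comm]
  have hv : v ∈ P := summand_saturated hQ hgne (by rw [hxv]; exact hx)
  have hbez : α * v 0 + β * v 1 = 1 := by
    have h1 : g * (α * y0 + β * y1) = g * 1 := by
      calc g * (α * y0 + β * y1) = α * (y0 * g) + β * (y1 * g) := by ring
        _ = g * 1 := by rw [hy0, hy1, hαβ, mul_one]
    exact mul_left_cancel₀ hgne h1
  refine ⟨v, le_antisymm ?_ ?_⟩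
  · intro y hy
    have hd := hP.det2_eq_zero hv hy
    rw [Submodule.mem_span_singleton]
    refine ⟨α * y 0 + β * y 1, ?_⟩
    have e0 := smul_eq_smul_of_det2 hd 0
    have e1 := smul_eq_smul_of_det2 hd 1
    calc (α * y 0 + β * y 1) • v = α • (y 0 • v) + β • (y 1 • v) := by
          rw [add_smul, mul_smul, mul_smul]
      _ = α • (v 0 • y) + β • (v 1 • y) := by rw [e0, e1]
      _ = (α * v 0 + β * v 1) • y := by rw [add_smul, mul_smul, mul_smul]
      _ = y := by rw [hbez, one_smul]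
  · rw [Submodule.span_singleton_le_iff_mem]
    exact hv

omit [IsDomain R] in
/-- Generators of complementary lines have unit determinant. -/
theorem isUnit_det2 {x y : Fin 2 → R}
    (h : IsCompl (Submodule.span R {x}) (Submodule.span R {y})) : IsUnit (det2 x y) := by
  have h0 : (Pi.single 0 1 : Fin 2 → R) ∈ Submodule.span R {x} ⊔ Submodule.span R {y} := by
    rw [h.sup_eq_top]; trivial
  have h1 : (Pi.single 1 1 : Fin 2 → R) ∈ Submodule.span R {x} ⊔ Submodule.span R {y} := by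
    rw [h.sup_eq_top]; trivial
  obtain ⟨a, ha, b, hb, hab⟩ := Submodule.mem_sup.1 h0
  obtain ⟨c, hc, d, hd, hcd⟩ := Submodule.mem_sup.1 h1
  obtain ⟨α, rfl⟩ := Submodule.mem_span_singleton.1 ha
  obtain ⟨β, rfl⟩ := Submodule.mem_span_singleton.1 hb
  obtain ⟨γ, rfl⟩ := Submodule.mem_span_singleton.1 hc
  obtain ⟨δ, rfl⟩ := Submodule.mem_span_singleton.1 hd
  have e00 := congrFun hab 0
  have e01 := congrFun hab 1
  have e10 := congrFun hcd 0
  have e11 := congrFun hcd 1
  simp at e00 e01 e10 e11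
  apply IsUnit.of_mul_eq_one (α * δ - β * γ)
  unfold det2
  have : (α * x 0 + β * y 0) * (γ * x 1 + δ * y 1) -
      (α * x 1 + β * y 1) * (γ * x 0 + δ * y 0) = 1 := by
    rw [e00, e01, e10, e11]; ring
  linear_combination this

theorem isLine_of_isCompl {P Q : Submodule R (Fin 2 → R)} (h : IsCompl P Q) (hP : P ≠ ⊥)
    (hQ : Q ≠ ⊥) : IsLine P := by
  refine ⟨⟨Q, h⟩, hP, ?_⟩
  intro ht
  apply hQ
  have := h.inf_eq_bot
  rwa [ht, top_inf_eq] at this

omit [IsDomain R] in
theorem map_equiv_eq_bot_iff (g : (Fin 2 → R) ≃ₗ[R] (Fin 2 → R))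
    (P : Submodule R (Fin 2 → R)) : P.map g.toLinearMap = ⊥ ↔ P = ⊥ := by
  constructor
  · intro h
    rw [eq_bot_iff]
    intro x hx
    have h1 : g x ∈ P.map g.toLinearMap := ⟨x, hx, rfl⟩
    rw [h, Submodule.mem_bot] at h1
    simpa using h1
  · rintro rfl
    exact Submodule.map_bot _

/-- Two generators of the same line differ by a unit. -/
theorem exists_unit_of_span_eq {x y : Fin 2 → R} (hx : x ≠ 0)
    (h : Submodule.span R {x} = Submodule.span R {y}) : ∃ u : Rˣ, x = u.1 • y := by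
  have h1 : x ∈ Submodule.span R {y} := by
    rw [← h]; exact Submodule.mem_span_singleton_self x
  have h2 : y ∈ Submodule.span R {x} := by
    rw [h]; exact Submodule.mem_span_singleton_self y
  obtain ⟨a, ha⟩ := Submodule.mem_span_singleton.1 h1
  obtain ⟨b, hb⟩ := Submodule.mem_span_singleton.1 h2
  have h3 : (a * b - 1) • x = 0 := by
    rw [sub_smul, mul_smul, hb, ha, one_smul, sub_self]
  have h4 : a * b = 1 := by
    have := smul_eq_zero_vec h3 hx
    rwa [sub_eq_zero] at this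
  exact ⟨⟨a, b, h4, by rw [mul_comm]; exact h4⟩, ha.symm⟩

end lines

section two

variable {R : Type u} [CommRing R] [IsDomain R] [IsPrincipalIdealRing R]
  {L : Type v} [Field L] {s : L → L → ℝ} (hs : IsSymbol s)
  (j₁ j₂ : R →+* L) (e₁ e₂ : Fin 2 → L)

/-- The difference of the two pairings. -/
def pairDiff (s : L → L → ℝ) (j₁ j₂ : R →+* L) (e₁ e₂ : Fin 2 → L) (v v' : Fin 2 → R) : ℝ :=
  pair s j₁ e₁ v v' - pair s j₂ e₂ v v'

open Classical in
/-- The function of two lines. -/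
def lineFun (s : L → L → ℝ) (j₁ j₂ : R →+* L) (e₁ e₂ : Fin 2 → L)
    (P Q : Submodule R (Fin 2 → R)) : ℝ :=
  if IsCompl P Q ∧ P ≠ ⊥ ∧ Q ≠ ⊥ then pairDiff s j₁ j₂ e₁ e₂ (gen P) (gen Q) else 0

theorem lineFun_pos {P Q : Submodule R (Fin 2 → R)} (h : IsCompl P Q ∧ P ≠ ⊥ ∧ Q ≠ ⊥) :
    lineFun s j₁ j₂ e₁ e₂ P Q = pairDiff s j₁ j₂ e₁ e₂ (gen P) (gen Q) := if_pos h

theorem lineFun_onCompl : OnCompl (lineFun s j₁ j₂ e₁ e₂) := fun _ _ h => if_neg h

include hs in
theorem lineFun_anti (P Q : Submodule R (Fin 2 → R)) :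
    lineFun s j₁ j₂ e₁ e₂ Q P = -lineFun s j₁ j₂ e₁ e₂ P Q := by
  by_cases h : IsCompl P Q ∧ P ≠ ⊥ ∧ Q ≠ ⊥
  · rw [lineFun_pos j₁ j₂ e₁ e₂ h, lineFun_pos j₁ j₂ e₁ e₂ ⟨h.1.symm, h.2.2, h.2.1⟩]
    unfold pairDiff
    rw [pair_swap hs j₁ e₁ (gen P) (gen Q), pair_swap hs j₂ e₂ (gen P) (gen Q)]
    ring
  · rw [lineFun_onCompl j₁ j₂ e₁ e₂ P Q h, lineFun_onCompl j₁ j₂ e₁ e₂ Q P
      (fun h' => h ⟨h'.1.symm, h'.2.2, h'.2.1⟩), neg_zero]

/-- Both functionals are non-zero on non-zero vectors. -/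
def NonVan (j : R →+* L) (e : Fin 2 → L) : Prop := ∀ v : Fin 2 → R, v ≠ 0 → lin j e v ≠ 0

/-- The symbols of units agree. -/
def UnitSym (s : L → L → ℝ) (j₁ j₂ : R →+* L) : Prop :=
  ∀ u v : Rˣ, s (j₁ u) (j₁ v) = s (j₂ u) (j₂ v)

theorem ne_zero_of_det2_left {x y : Fin 2 → R} (h : IsUnit (det2 x y)) : x ≠ 0 := by
  rintro rfl
  simp [det2] at h

theorem ne_zero_of_det2_right {x y : Fin 2 → R} (h : IsUnit (det2 x y)) : y ≠ 0 := by
  rintro rfl
  simp [det2] at h

theorem map_unit_ne_zero (j : R →+* L) {r : R} (h : IsUnit r) : j r ≠ 0 := (h.map j).ne_zero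

include hs in
theorem pairDiff_smul (h₁ : NonVan j₁ e₁) (h₂ : NonVan j₂ e₂) (hu : UnitSym s j₁ j₂)
    {v v' : Fin 2 → R} (hd : IsUnit (det2 v v')) (u u' : Rˣ) :
    pairDiff s j₁ j₂ e₁ e₂ (u.1 • v) (u'.1 • v') =
      pairDiff s j₁ j₂ e₁ e₂ v v' + (s (j₁ u) (lin j₁ e₁ v) - s (j₂ u) (lin j₂ e₂ v)) -
        (s (j₁ u') (lin j₁ e₁ v') - s (j₂ u') (lin j₂ e₂ v')) := by
  have hd' : IsUnit (det2 v (u'.1 • v')) := by
    rw [det2_smul_right]; exact u'.isUnit.mul hd
  have hv := ne_zero_of_det2_left hd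
  have hv' := ne_zero_of_det2_right hd
  unfold pairDiff
  rw [pair_smul_left hs j₁ e₁ (map_unit_ne_zero j₁ u.isUnit) (h₁ v hv) (map_unit_ne_zero j₁ hd'),
    pair_smul_left hs j₂ e₂ (map_unit_ne_zero j₂ u.isUnit) (h₂ v hv) (map_unit_ne_zero j₂ hd'),
    pair_smul_right hs j₁ e₁ (map_unit_ne_zero j₁ u'.isUnit) (h₁ v' hv')
      (map_unit_ne_zero j₁ hd),
    pair_smul_right hs j₂ e₂ (map_unit_ne_zero j₂ u'.isUnit) (h₂ v' hv')
      (map_unit_ne_zero j₂ hd)]
  obtain ⟨d, hd1⟩ := hd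
  obtain ⟨d', hd2⟩ := hd'
  have q1 := hu u d'
  have q2 := hu u' d
  rw [hd1] at q2
  rw [hd2] at q1
  rw [q1, q2]
  ring

include hs in
theorem lineFun_quasiInvariant (h₁ : NonVan j₁ e₁) (h₂ : NonVan j₂ e₂)
    (hu : UnitSym s j₁ j₂) : QuasiInvariant (lineFun s j₁ j₂ e₁ e₂) := by
  classical
  intro g
  let uu : Submodule R (Fin 2 → R) → Rˣ := fun P =>
    if h : ∃ u : Rˣ, gen (P.map g.toLinearMap) = u.1 • g (gen P) then h.choose else 1
  have huu : ∀ P, IsLine P → gen (P.map g.toLinearMap) = (uu P).1 • g (gen P) := by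
    intro P hP
    have hPg : IsLine (P.map g.toLinearMap) := by
      obtain ⟨⟨Q, hQ⟩, h1, h2⟩ := hP
      refine ⟨⟨Q.map g.toLinearMap, (Submodule.orderIsoMapComap g).isCompl_iff.1 hQ⟩, ?_, ?_⟩
      · intro h; apply h1
        exact (map_equiv_eq_bot_iff g P).1 h
      · intro h; apply h2
        have h3 : P.map g.toLinearMap = (⊤ : Submodule R (Fin 2 → R)).map g.toLinearMap := by
          rw [h, Submodule.map_top, LinearEquiv.range]
        exact Submodule.map_injective_of_injective g.injective h3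
    have h1 := gen_spec hP.exists_gen
    have h2 := gen_spec hPg.exists_gen
    have h3 : Submodule.span R {gen (P.map g.toLinearMap)} = Submodule.span R {g (gen P)} := by
      rw [← h2]
      conv_lhs => rw [h1]
      rw [Submodule.map_span, Set.image_singleton]
      rfl
    have h4 : gen (P.map g.toLinearMap) ≠ 0 := by
      intro h4
      rw [h4, Submodule.span_zero_singleton] at h2
      exact hPg.2.1 h2
    have hex := exists_unit_of_span_eq h4 h3
    simp only [uu, dif_pos hex]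
    exact hex.choose_spec
  refine ⟨fun P => if IsLine P then
    (corr s j₁ e₁ g (gen P) - s (j₁ (uu P)) (lin j₁ e₁ (g (gen P)))) -
    (corr s j₂ e₂ g (gen P) - s (j₂ (uu P)) (lin j₂ e₂ (g (gen P)))) else 0, ?_, ?_, ?_⟩
  · exact if_neg fun h => h.2.1 rfl
  · exact if_neg fun h => h.2.2 rfl
  · intro P Q
    have hiff : (IsCompl (P.map g.toLinearMap) (Q.map g.toLinearMap) ∧
        P.map g.toLinearMap ≠ ⊥ ∧ Q.map g.toLinearMap ≠ ⊥) ↔
        (IsCompl P Q ∧ P ≠ ⊥ ∧ Q ≠ ⊥) := by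
      have h1 : IsCompl (P.map g.toLinearMap) (Q.map g.toLinearMap) ↔ IsCompl P Q :=
        (Submodule.orderIsoMapComap g).isCompl_iff.symm
      rw [h1, Ne, Ne, map_equiv_eq_bot_iff, map_equiv_eq_bot_iff]
    by_cases h : IsCompl P Q ∧ P ≠ ⊥ ∧ Q ≠ ⊥
    · have hP : IsLine P := isLine_of_isCompl h.1 h.2.1 h.2.2
      have hQ : IsLine Q := isLine_of_isCompl h.1.symm h.2.2 h.2.1
      rw [lineFun_pos j₁ j₂ e₁ e₂ (hiff.2 h), lineFun_pos j₁ j₂ e₁ e₂ h, deltaOne_pos _ h,
        huu P hP, huu Q hQ, if_pos hP, if_pos hQ]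
      have hc := h.1
      have hPs := gen_spec hP.exists_gen
      have hQs := gen_spec hQ.exists_gen
      rw [hPs, hQs] at hc
      have hd : IsUnit (det2 (gen P) (gen Q)) := isUnit_det2 hc
      have hv := ne_zero_of_det2_left hd
      have hv' := ne_zero_of_det2_right hd
      have hgv : g (gen P) ≠ 0 := fun h0 => hv (by simpa using h0)
      have hgv' : g (gen Q) ≠ 0 := fun h0 => hv' (by simpa using h0)
      have hdg : IsUnit (det2 (g (Pi.single 0 1)) (g (Pi.single 1 1))) := by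
        -- apply `det2_map` to `g` and its inverse
        have h1 := det2_map g (g.symm (Pi.single 0 1)) (g.symm (Pi.single 1 1))
        rw [g.apply_symm_apply, g.apply_symm_apply] at h1
        have h2 : det2 (Pi.single 0 1 : Fin 2 → R) (Pi.single 1 1) = 1 := by
          simp [det2]
        rw [h2] at h1
        exact IsUnit.of_mul_eq_one _ h1.symm
      have hdg' : IsUnit (det2 (g (gen P)) (g (gen Q))) := by
        rw [det2_map]; exact hdg.mul hd
      rw [pairDiff_smul hs j₁ j₂ e₁ e₂ h₁ h₂ hu hdg']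
      unfold pairDiff
      rw [pair_map hs j₁ e₁ g (h₁ _ hv) (h₁ _ hv') (h₁ _ hgv) (h₁ _ hgv')
          (map_unit_ne_zero j₁ hd) (map_unit_ne_zero j₁ hdg),
        pair_map hs j₂ e₂ g (h₂ _ hv) (h₂ _ hv') (h₂ _ hgv) (h₂ _ hgv')
          (map_unit_ne_zero j₂ hd) (map_unit_ne_zero j₂ hdg)]
      ring
    · rw [lineFun_onCompl j₁ j₂ e₁ e₂ _ _ (fun h' => h (hiff.1 h')),
        lineFun_onCompl j₁ j₂ e₁ e₂ _ _ h, deltaOne_neg _ h, add_zero]

end two

end

end Pool.Agent.Lib.Helper86.StableBuilding
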