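import Mathlib

/-!
# Direct summands of `R²`
-/

set_option autoImplicit false

namespace Pool.Agent.Lib.Helper86.StableBuilding

universe u

variable {R : Type u} [CommRing R]

/-- The determinant of a pair of vectors. -/
def det2 (x y : Fin 2 → R) : R := x 0 * y 1 - x 1 * y 0

theorem det2_swap (x y : Fin 2 → R) : det2 y x = -det2 x y := by
  unfold det2; ring

theorem det2_relation (x y z : Fin 2 → R) :
    det2 y z • x + det2 z x • y + det2 x y • z = 0 := by
  funext i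
  fin_cases i
  · simp [det2]; ring
  · simp [det2]; ring

variable [IsDomain R]

theorem smul_eq_zero_vec {r : R} {x : Fin 2 → R} (h : r • x = 0) (hx : x ≠ 0) : r = 0 := by
  by_contra hr
  exact hx ((smul_eq_zero.1 h).resolve_left hr)

/-- A line: a direct summand which is not `0` and not `M`. -/
def IsLine (P : Submodule R (Fin 2 → R)) : Prop :=
  (∃ Q, IsCompl P Q) ∧ P ≠ ⊥ ∧ P ≠ ⊤

theorem exists_ne_zero_of_ne_bot {P : Submodule R (Fin 2 → R)} (h : P ≠ ⊥) :
    ∃ x ∈ P, x ≠ 0 := (Submodule.ne_bot_iff P).1 h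

theorem summand_saturated {P Q : Submodule R (Fin 2 → R)} (h : IsCompl P Q) {r : R}
    (hr : r ≠ 0) {y : Fin 2 → R} (hy : r • y ∈ P) : y ∈ P := by
  have hyt : y ∈ P ⊔ Q := by rw [h.sup_eq_top]; trivial
  obtain ⟨a, ha, b, hb, hab⟩ := Submodule.mem_sup.1 hyt
  have h1 : r • b ∈ P := by
    have : r • b = r • y - r • a := by rw [← hab, smul_add]; abel
    rw [this]
    exact Submodule.sub_mem _ hy (Submodule.smul_mem _ _ ha)
  have h2 : r • b = 0 := Submodule.disjoint_def.1 h.disjoint _ h1 (Submodule.smul_mem _ _ hb)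
  have h3 : b = 0 := (smul_eq_zero.1 h2).resolve_left hr
  rw [← hab, h3, add_zero]
  exact ha

theorem IsLine.det2_eq_zero {P : Submodule R (Fin 2 → R)} (h : IsLine P) {x y : Fin 2 → R}
    (hx : x ∈ P) (hy : y ∈ P) : det2 x y = 0 := by
  obtain ⟨⟨S, hS⟩, h1, h2⟩ := h
  have hS0 : S ≠ ⊥ := by
    rintro rfl
    exact h2 (by simpa using hS.sup_eq_top)
  obtain ⟨s, hs, hs0⟩ := exists_ne_zero_of_ne_bot hS0
  have hrel := det2_relation x y s
  have h3 : det2 x y • s ∈ P := by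
    have : det2 x y • s = -(det2 y s • x + det2 s x • y) := by
      rw [eq_neg_iff_add_eq_zero, add_comm]; exact hrel
    rw [this]
    exact Submodule.neg_mem _ (Submodule.add_mem _ (Submodule.smul_mem _ _ hx)
      (Submodule.smul_mem _ _ hy))
  have h4 := Submodule.disjoint_def.1 hS.disjoint _ h3 (Submodule.smul_mem _ _ hs)
  exact smul_eq_zero_vec h4 hs0

theorem smul_eq_smul_of_det2 {x y : Fin 2 → R} (h : det2 x y = 0) (i : Fin 2) :
    x i • y = y i • x := by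
  have h' : x 0 * y 1 - x 1 * y 0 = 0 := h
  have h1 : x 0 * y 1 = y 0 * x 1 := by linear_combination h'
  have h2 : x 1 * y 0 = y 1 * x 0 := by linear_combination -h'
  have h3 : x 0 * y 0 = y 0 * x 0 := mul_comm _ _
  have h4 : x 1 * y 1 = y 1 * x 1 := mul_comm _ _
  funext j
  change x i * y j = y i * x j
  fin_cases i <;> fin_cases j <;> assumption

theorem IsLine.le_of_mem {P Q : Submodule R (Fin 2 → R)} (hP : IsLine P) (hQ : IsLine Q)
    {x : Fin 2 → R} (hx : x ∈ P) (hx' : x ∈ Q) (hx0 : x ≠ 0) : P ≤ Q := by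
  intro y hy
  have hd := hP.det2_eq_zero hx hy
  obtain ⟨i, hi⟩ := Function.ne_iff.1 hx0
  obtain ⟨S, hS⟩ := hQ.1
  apply summand_saturated hS (r := x i) hi
  rw [smul_eq_smul_of_det2 hd i]
  exact Submodule.smul_mem _ _ hx'

theorem IsLine.inf_eq_bot {P Q : Submodule R (Fin 2 → R)} (hP : IsLine P) (hQ : IsLine Q)
    (hne : P ≠ Q) : P ⊓ Q = ⊥ := by
  by_contra h
  obtain ⟨x, ⟨hx, hx'⟩, hx0⟩ := exists_ne_zero_of_ne_bot h
  exact hne (le_antisymm (hP.le_of_mem hQ hx hx' hx0) (hQ.le_of_mem hP hx' hx hx0))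

theorem IsLine.eq_of_le {P Q : Submodule R (Fin 2 → R)} (hP : IsLine P) (hQ : IsLine Q)
    (hle : P ≤ Q) : P = Q := by
  by_contra h
  have h1 := hP.inf_eq_bot hQ h
  rw [inf_eq_left.2 hle] at h1
  exact hP.2.1 h1

theorem det2_ne_zero_of_disjoint {P Q : Submodule R (Fin 2 → R)} (h : P ⊓ Q = ⊥)
    {x y : Fin 2 → R} (hx : x ∈ P) (hy : y ∈ Q) (hx0 : x ≠ 0) (hy0 : y ≠ 0) :
    det2 x y ≠ 0 := by
  intro hd
  apply hx0
  funext i
  have h1 := smul_eq_smul_of_det2 hd i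
  have h2 : x i • y ∈ P ⊓ Q := ⟨by rw [h1]; exact Submodule.smul_mem _ _ hx,
    Submodule.smul_mem _ _ hy⟩
  rw [h, Submodule.mem_bot] at h2
  exact smul_eq_zero_vec h2 hy0

theorem IsLine.isCompl {P Q : Submodule R (Fin 2 → R)} (hP : IsLine P) (hQ : IsLine Q)
    (hne : P ≠ Q) (hsup : ∃ S, IsCompl (P ⊔ Q) S) : IsCompl P Q := by
  have h1 := hP.inf_eq_bot hQ hne
  refine ⟨disjoint_iff.2 h1, codisjoint_iff.2 ?_⟩
  obtain ⟨S, hS⟩ := hsup
  have hS0 : S = ⊥ := by
    by_contra hS0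
    obtain ⟨s, hs, hs0⟩ := exists_ne_zero_of_ne_bot hS0
    obtain ⟨x, hx, hx0⟩ := exists_ne_zero_of_ne_bot hP.2.1
    obtain ⟨y, hy, hy0⟩ := exists_ne_zero_of_ne_bot hQ.2.1
    have hd := det2_ne_zero_of_disjoint h1 hx hy hx0 hy0
    have hrel := det2_relation x y s
    have h3 : det2 x y • s ∈ P ⊔ Q := by
      have : det2 x y • s = -(det2 y s • x + det2 s x • y) := by
        rw [eq_neg_iff_add_eq_zero, add_comm]; exact hrel
      rw [this]
      exact Submodule.neg_mem _ (Submodule.add_mem_sup (Submodule.smul_mem _ _ hx)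
        (Submodule.smul_mem _ _ hy))
    have h4 := Submodule.disjoint_def.1 hS.disjoint _ h3 (Submodule.smul_mem _ _ hs)
    exact hd (smul_eq_zero_vec h4 hs0)
  rw [hS0] at hS
  simpa using hS.sup_eq_top

/-- Three pairwise distinct lines are dependent. -/
theorem exists_relation {A B C : Submodule R (Fin 2 → R)} (hA : IsLine A) (hB : IsLine B)
    (hC : IsLine C) (hBC : B ≠ C) :
    ∃ x ∈ A, ∃ y ∈ B, ∃ z ∈ C, x ≠ 0 ∧ x + y + z = 0 := by
  obtain ⟨x, hx, hx0⟩ := exists_ne_zero_of_ne_bot hA.2.1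
  obtain ⟨y, hy, hy0⟩ := exists_ne_zero_of_ne_bot hB.2.1
  obtain ⟨z, hz, hz0⟩ := exists_ne_zero_of_ne_bot hC.2.1
  have hd := det2_ne_zero_of_disjoint (hB.inf_eq_bot hC hBC) hy hz hy0 hz0
  refine ⟨det2 y z • x, Submodule.smul_mem _ _ hx, det2 z x • y, Submodule.smul_mem _ _ hy,
    det2 x y • z, Submodule.smul_mem _ _ hz, ?_, det2_relation x y z⟩
  intro h
  exact hd (smul_eq_zero_vec h hx0)

theorem not_isCompl_self {P : Submodule R (Fin 2 → R)} (h : P ≠ ⊥) : ¬ IsCompl P P := by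
  intro h1
  apply h
  have := h1.inf_eq_bot
  rwa [inf_idem] at this

end Pool.Agent.Lib.Helper86.StableBuilding
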