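import Pool.Agent.Lib.Helper86.StableBuilding.Stable
import Pool.Agent.Lib.Helper86.StableBuilding.RankTwo

/-!
# Squares and cubes in a lattice, and the faces of a full lattice
-/

set_option autoImplicit false

namespace Pool.Agent.Lib.Helper86.StableBuilding

noncomputable section

universe u v

variable {R : Type u} [CommRing R] {M : Type v} [AddCommGroup M] [Module R M] {k : ℕ}
  {p : Fin k → ℕ}

open Classical in
/-- The value of `φ` at a tuple `a` (`0` if `a` is not in the grid). -/
def ev (φ : Grid p →o Summand R M) (a : Fin k → ℕ) : Submodule R M :=
  if h : a ≤ p then (φ ⟨a, h⟩).1 else ⊥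

theorem ev_of_le (φ : Grid p →o Summand R M) {a : Fin k → ℕ} (h : a ≤ p) :
    ev φ a = (φ ⟨a, h⟩).1 := dif_pos h

theorem ev_mono (φ : Grid p →o Summand R M) {a b : Fin k → ℕ} (h : a ≤ b) (hb : b ≤ p) :
    ev φ a ≤ ev φ b := by
  rw [ev_of_le φ (h.trans hb), ev_of_le φ hb]
  exact φ.monotone h

theorem update_le {b : Fin k → ℕ} {i : Fin k} {x : ℕ} (hx : x ≤ b i) :
    Function.update b i x ≤ b := by
  intro l
  by_cases h : l = i
  · subst h; rw [Function.update_self]; exact hx
  · rw [Function.update_of_ne h]

theorem update_update_le {b : Fin k → ℕ} {i j : Fin k} {x y : ℕ} (hx : x ≤ b i) (hy : y ≤ b j) :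
    Function.update (Function.update b i x) j y ≤ b := by
  intro l
  by_cases h : l = j
  · subst h; rw [Function.update_self]; exact hy
  · rw [Function.update_of_ne h]; exact update_le hx l

/-- The square property: `φ(a + e_i) ∩ φ(a + e_j) = φ(a)`. -/
theorem IsLattice.square {φ : Grid p →o Summand R M} (hφ : IsLattice φ) {b : Fin k → ℕ}
    (hb : b ≤ p) {i j : Fin k} (hij : i ≠ j) {x y : ℕ} (hx : x ≤ b i) (hy : y ≤ b j) :
    ev φ (Function.update b i x) ⊓ ev φ (Function.update b j y) =
      ev φ (Function.update (Function.update b i x) j y) := by
  rcases hx.eq_or_lt with hx | hx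
  · rw [hx, Function.update_eq_self, inf_eq_right]
    exact ev_mono φ (update_le hy) hb
  rcases hy.eq_or_lt with hy | hy
  · have h1 : Function.update (Function.update b i x) j y = Function.update b i x := by
      rw [hy]
      rw [Function.update_comm hij, Function.update_eq_self]
    rw [h1, hy, Function.update_eq_self, inf_eq_left]
    exact ev_mono φ (update_le hx.le) hb
  apply le_antisymm
  · -- the interesting inclusion
    rintro u ⟨hu1, hu2⟩
    set a0 : Fin k → ℕ := Function.update (Function.update b i x) j y with ha0
    have hab : a0 ≤ b := update_update_le hx.le hy.le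
    let A : Grid p := ⟨a0, hab.trans hb⟩
    let B : Grid p := ⟨b, hb⟩
    have hAB : A ≤ B := hab
    have hgood := (isLattice_iff φ).1 hφ A B hAB
    have hai : a0 i = x := by rw [ha0, Function.update_of_ne hij, Function.update_self]
    have haj : a0 j = y := by rw [ha0, Function.update_self]
    have hal : ∀ l, l ≠ i → l ≠ j → a0 l = b l := by
      intro l h1 h2
      rw [ha0, Function.update_of_ne h2, Function.update_of_ne h1]
    have hc1 : Function.update b i x ≤ p := (update_le hx.le).trans hb
    have hc2 : Function.update b j y ≤ p := (update_le hy.le).trans hb
    let c1 : PuncturedCube A B := ⟨⟨Function.update b i x, hc1⟩, by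
      intro l
      by_cases h : l = i
      · subst h
        left
        change Function.update b l x l = a0 l
        rw [Function.update_self, hai]
      · right
        exact Function.update_of_ne h _ _, by
      intro h
      have := congrFun (congrArg Grid.val h) i
      change Function.update b i x i = b i at this
      rw [Function.update_self] at this
      omega⟩
    let c2 : PuncturedCube A B := ⟨⟨Function.update b j y, hc2⟩, by
      intro l
      by_cases h : l = j
      · subst h
        left
        change Function.update b l y l = a0 l
        rw [Function.update_self, haj]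
      · right
        exact Function.update_of_ne h _ _, by
      intro h
      have := congrFun (congrArg Grid.val h) j
      change Function.update b j y j = b j at this
      rw [Function.update_self] at this
      omega⟩
    rw [ev_of_le φ hc1] at hu1
    rw [ev_of_le φ hc2] at hu2
    set N := cubeFam φ A B with hN
    have hNm := cubeFam_mono φ A B
    let u1 : N c1 := ⟨u, hu1⟩
    let u2 : N c2 := ⟨u, hu2⟩
    have heq : gof N hNm c1 u1 = gof N hNm c2 u2 := by
      apply hgood.1
      rw [toM_of, toM_of]
    let F : ∀ c : PuncturedCube A B, N c →ₗ[R] (M ⧸ (φ A).1) := fun c =>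
      if c.1.1 i = b i then ((φ A).1.mkQ).comp (N c).subtype else 0
    have hFpos : ∀ c : PuncturedCube A B, c.1.1 i = b i → ∀ z : N c, F c z = (φ A).1.mkQ z.1 := by
      intro c hc z
      simp only [F, if_pos hc]
      rfl
    have hFneg : ∀ c : PuncturedCube A B, c.1.1 i ≠ b i → ∀ z : N c, F c z = 0 := by
      intro c hc z
      simp only [F, if_neg hc]
      rfl
    let f : Colim N hNm →ₗ[R] (M ⧸ (φ A).1) :=
      Colim.lift N hNm F (by
        intro c d hcd z
        have hcd' : ∀ l, c.1.1 l ≤ d.1.1 l := hcd
        have hdB : ∀ l, d.1.1 l ≤ b l := PuncturedCube.le hAB d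
        by_cases h1 : c.1.1 i = b i
        · have h2 : d.1.1 i = b i := le_antisymm (hdB i) (h1 ▸ hcd' i)
          rw [hFpos c h1, hFpos d h2]
          rfl
        · by_cases h2 : d.1.1 i = b i
          · rw [hFneg c h1, hFpos d h2]
            -- here c = a
            have hca : c.1.1 ≤ a0 := by
              intro l
              by_cases hli : l = i
              · subst hli
                exact ((c.vertex l).resolve_right h1).le
              · by_cases hlj : l = j
                · subst hlj
                  have hdj : d.1.1 l ≠ b l := by
                    intro hdj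
                    apply d.ne
                    apply Grid.ext
                    funext r
                    change d.1.1 r = b r
                    by_cases hri : r = i
                    · rw [hri]; exact h2
                    · by_cases hrj : r = l
                      · rw [hrj]; exact hdj
                      · rcases d.vertex r with h5 | h5
                        · rw [h5]; exact hal r hri hrj
                        · exact h5
                  have hd2 : d.1.1 l = a0 l := (d.vertex l).resolve_right hdj
                  exact (hcd' l).trans hd2.le
                · rw [hal l hli hlj]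
                  exact (hcd' l).trans (hdB l)
            have hz : z.1 ∈ (φ A).1 := φ.monotone (a := c.1) (b := A) hca z.2
            exact (Submodule.Quotient.mk_eq_zero _).2 hz
          · rw [hFneg c h1, hFneg d h2])
    have hf : ∀ c z, f (gof N hNm c z) = F c z := fun c z => lift_gof _ _ _ _ _ _
    have h1 : f (gof N hNm c1 u1) = 0 := by
      rw [hf]
      apply hFneg
      change Function.update b i x i ≠ b i
      rw [Function.update_self]
      omega
    have h2 : f (gof N hNm c2 u2) = (φ A).1.mkQ u := by
      rw [hf]
      apply hFpos
      exact Function.update_of_ne hij _ _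
    rw [heq, h2] at h1
    have h3 : u ∈ (φ A).1 := (Submodule.Quotient.mk_eq_zero _).1 h1
    rw [ev_of_le φ (hab.trans hb)]
    exact h3
  · refine le_inf ?_ ?_
    · exact ev_mono φ (update_le (by rw [Function.update_of_ne hij.symm]; exact hy.le))
        ((update_le hx.le).trans hb)
    · rw [Function.update_comm hij]
      exact ev_mono φ (update_le (by rw [Function.update_of_ne hij]; exact hx.le))
        ((update_le hy.le).trans hb)

/-- In a square, the sum of the two middle terms is a direct summand. -/
theorem IsLattice.square_sup {φ : Grid p →o Summand R M} (hφ : IsLattice φ) {b : Fin k → ℕ}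
    (hb : b ≤ p) {i j : Fin k} (hij : i ≠ j) {x y : ℕ} (hx : x < b i) (hy : y < b j) :
    ∃ Q, IsCompl (ev φ (Function.update b i x) ⊔ ev φ (Function.update b j y)) Q := by
  set a0 : Fin k → ℕ := Function.update (Function.update b i x) j y with ha0
  have hab : a0 ≤ b := update_update_le hx.le hy.le
  let A : Grid p := ⟨a0, hab.trans hb⟩
  let B : Grid p := ⟨b, hb⟩
  have hAB : A ≤ B := hab
  obtain ⟨Q, hQ⟩ := ((isLattice_iff φ).1 hφ A B hAB).2
  refine ⟨Q, ?_⟩
  have hai : a0 i = x := by rw [ha0, Function.update_of_ne hij, Function.update_self]
  have haj : a0 j = y := by rw [ha0, Function.update_self]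
  have hal : ∀ l, l ≠ i → l ≠ j → a0 l = b l := by
    intro l h1 h2
    rw [ha0, Function.update_of_ne h2, Function.update_of_ne h1]
  have hc1 : Function.update b i x ≤ p := (update_le hx.le).trans hb
  have hc2 : Function.update b j y ≤ p := (update_le hy.le).trans hb
  let c1 : PuncturedCube A B := ⟨⟨Function.update b i x, hc1⟩, by
    intro l
    by_cases h : l = i
    · subst h
      left
      change Function.update b l x l = a0 l
      rw [Function.update_self, hai]
    · right
      exact Function.update_of_ne h _ _, by
    intro h
    have := congrFun (congrArg Grid.val h) i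
    change Function.update b i x i = b i at this
    rw [Function.update_self] at this
    omega⟩
  let c2 : PuncturedCube A B := ⟨⟨Function.update b j y, hc2⟩, by
    intro l
    by_cases h : l = j
    · subst h
      left
      change Function.update b l y l = a0 l
      rw [Function.update_self, haj]
    · right
      exact Function.update_of_ne h _ _, by
    intro h
    have := congrFun (congrArg Grid.val h) j
    change Function.update b j y j = b j at this
    rw [Function.update_self] at this
    omega⟩
  have hsup : (⨆ c, cubeFam φ A B c) =
      ev φ (Function.update b i x) ⊔ ev φ (Function.update b j y) := by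
    apply le_antisymm
    · refine iSup_le fun c => ?_
      have hcB : ∀ l, c.1.1 l ≤ b l := PuncturedCube.le hAB c
      by_cases h1 : c.1.1 i = b i
      · have h2 : c.1.1 j ≠ b j := by
          intro h2
          apply c.ne
          apply Grid.ext
          funext r
          change c.1.1 r = b r
          by_cases hri : r = i
          · rw [hri]; exact h1
          · by_cases hrj : r = j
            · rw [hrj]; exact h2
            · rcases c.vertex r with h5 | h5
              · rw [h5]; exact hal r hri hrj
              · exact h5
        have h3 : c.1.1 ≤ Function.update b j y := by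
          intro l
          by_cases hl : l = j
          · subst hl
            rw [Function.update_self, (c.vertex l).resolve_right h2]
            exact haj.le
          · rw [Function.update_of_ne hl]; exact hcB l
        refine le_sup_of_le_right ?_
        rw [ev_of_le φ hc2]
        exact φ.monotone (a := c.1) (b := c2.1) h3
      · have h3 : c.1.1 ≤ Function.update b i x := by
          intro l
          by_cases hl : l = i
          · subst hl
            rw [Function.update_self, (c.vertex l).resolve_right h1]
            exact hai.le
          · rw [Function.update_of_ne hl]; exact hcB l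
        refine le_sup_of_le_left ?_
        rw [ev_of_le φ hc1]
        exact φ.monotone (a := c.1) (b := c1.1) h3
    · refine sup_le ?_ ?_
      · rw [ev_of_le φ hc1]
        exact le_iSup (cubeFam φ A B) c1
      · rw [ev_of_le φ hc2]
        exact le_iSup (cubeFam φ A B) c2
  rw [← hsup]
  exact hQ

/-- In a three-dimensional cube whose three maximal proper faces meet pairwise in `0`, they are
independent. -/
theorem IsLattice.cube {φ : Grid p →o Summand R M} (hφ : IsLattice φ) {b : Fin k → ℕ}
    (hb : b ≤ p) {i j l : Fin k} (hij : i ≠ j) (hil : i ≠ l) (hjl : j ≠ l) {x y z : ℕ}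
    (hx : x < b i) (hy : y < b j) (hz : z < b l)
    (h1 : ev φ (Function.update b i x) ⊓ ev φ (Function.update b j y) = ⊥)
    (h2 : ev φ (Function.update b i x) ⊓ ev φ (Function.update b l z) = ⊥)
    {u v w : M} (hu : u ∈ ev φ (Function.update b i x)) (hv : v ∈ ev φ (Function.update b j y))
    (hw : w ∈ ev φ (Function.update b l z)) (huvw : u + v + w = 0) : u = 0 := by
  set a0 : Fin k → ℕ := Function.update (Function.update (Function.update b i x) j y) l z
    with ha0
  have hai : a0 i = x := by
    rw [ha0, Function.update_of_ne hil, Function.update_of_ne hij, Function.update_self]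
  have haj : a0 j = y := by
    rw [ha0, Function.update_of_ne hjl, Function.update_self]
  have hal : a0 l = z := by rw [ha0, Function.update_self]
  have har : ∀ r, r ≠ i → r ≠ j → r ≠ l → a0 r = b r := by
    intro r h1 h2 h3
    rw [ha0, Function.update_of_ne h3, Function.update_of_ne h2, Function.update_of_ne h1]
  have hab : a0 ≤ b := by
    intro r
    by_cases hri : r = i
    · rw [hri, hai]; exact hx.le
    · by_cases hrj : r = j
      · rw [hrj, haj]; exact hy.le
      · by_cases hrl : r = l
        · rw [hrl, hal]; exact hz.le
        · exact (har r hri hrj hrl).le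
  let A : Grid p := ⟨a0, hab.trans hb⟩
  let B : Grid p := ⟨b, hb⟩
  have hAB : A ≤ B := hab
  have hgood := (isLattice_iff φ).1 hφ A B hAB
  have hc1 : Function.update b i x ≤ p := (update_le hx.le).trans hb
  have hc2 : Function.update b j y ≤ p := (update_le hy.le).trans hb
  have hc3 : Function.update b l z ≤ p := (update_le hz.le).trans hb
  let c1 : PuncturedCube A B := ⟨⟨Function.update b i x, hc1⟩, by
    intro r
    by_cases h : r = i
    · subst h
      left
      change Function.update b r x r = a0 r
      rw [Function.update_self, hai]
    · right
      exact Function.update_of_ne h _ _, by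
    intro h
    have := congrFun (congrArg Grid.val h) i
    change Function.update b i x i = b i at this
    rw [Function.update_self] at this
    omega⟩
  let c2 : PuncturedCube A B := ⟨⟨Function.update b j y, hc2⟩, by
    intro r
    by_cases h : r = j
    · subst h
      left
      change Function.update b r y r = a0 r
      rw [Function.update_self, haj]
    · right
      exact Function.update_of_ne h _ _, by
    intro h
    have := congrFun (congrArg Grid.val h) j
    change Function.update b j y j = b j at this
    rw [Function.update_self] at this
    omega⟩
  let c3 : PuncturedCube A B := ⟨⟨Function.update b l z, hc3⟩, by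
    intro r
    by_cases h : r = l
    · subst h
      left
      change Function.update b r z r = a0 r
      rw [Function.update_self, hal]
    · right
      exact Function.update_of_ne h _ _, by
    intro h
    have := congrFun (congrArg Grid.val h) l
    change Function.update b l z l = b l at this
    rw [Function.update_self] at this
    omega⟩
  rw [ev_of_le φ hc1] at hu h1 h2
  rw [ev_of_le φ hc2] at hv h1
  rw [ev_of_le φ hc3] at hw h2
  set N := cubeFam φ A B with hN
  have hNm := cubeFam_mono φ A B
  let u1 : N c1 := ⟨u, hu⟩
  let v1 : N c2 := ⟨v, hv⟩
  let w1 : N c3 := ⟨w, hw⟩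
  have heq : gof N hNm c1 u1 + gof N hNm c2 v1 + gof N hNm c3 w1 = 0 := by
    apply (injective_iff_map_eq_zero _).1 hgood.1
    rw [map_add, map_add, toM_of, toM_of, toM_of]
    exact huvw
  let F : ∀ c : PuncturedCube A B, N c →ₗ[R] M := fun c =>
    if c.1.1 j = b j ∧ c.1.1 l = b l then (N c).subtype else 0
  have hFpos : ∀ c : PuncturedCube A B, c.1.1 j = b j ∧ c.1.1 l = b l →
      ∀ z : N c, F c z = z.1 := by
    intro c hc z
    simp only [F, if_pos hc]
    rfl
  have hFneg : ∀ c : PuncturedCube A B, ¬ (c.1.1 j = b j ∧ c.1.1 l = b l) →
      ∀ z : N c, F c z = 0 := by
    intro c hc z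
    simp only [F, if_neg hc]
    rfl
  have hci : ∀ c : PuncturedCube A B, c.1.1 j = b j ∧ c.1.1 l = b l → c.1.1 i = x := by
    intro c hc
    have h5 : c.1.1 i ≠ b i := by
      intro h5
      apply c.ne
      apply Grid.ext
      funext r
      change c.1.1 r = b r
      by_cases hri : r = i
      · rw [hri]; exact h5
      · by_cases hrj : r = j
        · rw [hrj]; exact hc.1
        · by_cases hrl : r = l
          · rw [hrl]; exact hc.2
          · rcases c.vertex r with h6 | h6
            · rw [h6]; exact har r hri hrj hrl
            · exact h6
    rw [(c.vertex i).resolve_right h5]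
    exact hai
  let f : Colim N hNm →ₗ[R] M :=
    Colim.lift N hNm F (by
      intro c d hcd t
      have hcd' : ∀ l, c.1.1 l ≤ d.1.1 l := hcd
      have hdB : ∀ l, d.1.1 l ≤ b l := PuncturedCube.le hAB d
      by_cases h5 : c.1.1 j = b j ∧ c.1.1 l = b l
      · have h6 : d.1.1 j = b j ∧ d.1.1 l = b l :=
          ⟨le_antisymm (hdB j) (h5.1 ▸ hcd' j), le_antisymm (hdB l) (h5.2 ▸ hcd' l)⟩
        rw [hFpos c h5, hFpos d h6]
        rfl
      · by_cases h6 : d.1.1 j = b j ∧ d.1.1 l = b l
        · rw [hFneg c h5, hFpos d h6]
          change t.1 = 0
          have hcx : c.1.1 ≤ Function.update b i x := by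
            intro r
            by_cases hr : r = i
            · subst hr
              rw [Function.update_self]
              exact (hcd' r).trans (hci d h6).le
            · rw [Function.update_of_ne hr]
              exact (hcd' r).trans (hdB r)
          have ht1 : t.1 ∈ (φ c1.1).1 := φ.monotone (a := c.1) (b := c1.1) hcx t.2
          by_cases h7 : c.1.1 j = b j
          · have h8 : c.1.1 l ≠ b l := fun h8 => h5 ⟨h7, h8⟩
            have hcz : c.1.1 ≤ Function.update b l z := by
              intro r
              by_cases hr : r = l
              · subst hr
                rw [Function.update_self, (c.vertex r).resolve_right h8]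
                exact hal.le
              · rw [Function.update_of_ne hr]
                exact (hcd' r).trans (hdB r)
            have ht2 : t.1 ∈ (φ c3.1).1 := φ.monotone (a := c.1) (b := c3.1) hcz t.2
            have ht3 : t.1 ∈ (φ c1.1).1 ⊓ (φ c3.1).1 := ⟨ht1, ht2⟩
            rw [h2] at ht3
            exact (Submodule.mem_bot R).1 ht3
          · have hcy : c.1.1 ≤ Function.update b j y := by
              intro r
              by_cases hr : r = j
              · subst hr
                rw [Function.update_self, (c.vertex r).resolve_right h7]
                exact haj.le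
              · rw [Function.update_of_ne hr]
                exact (hcd' r).trans (hdB r)
            have ht2 : t.1 ∈ (φ c2.1).1 := φ.monotone (a := c.1) (b := c2.1) hcy t.2
            have ht3 : t.1 ∈ (φ c1.1).1 ⊓ (φ c2.1).1 := ⟨ht1, ht2⟩
            rw [h1] at ht3
            exact (Submodule.mem_bot R).1 ht3
        · rw [hFneg c h5, hFneg d h6])
  have hf : ∀ c z, f (gof N hNm c z) = F c z := fun c z => lift_gof _ _ _ _ _ _
  have h5 := congrArg f heq
  rw [map_add, map_add, map_zero, hf, hf, hf] at h5
  rw [hFpos c1 ⟨Function.update_of_ne hij.symm _ _, Function.update_of_ne hil.symm _ _⟩,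
    hFneg c2, hFneg c3, add_zero, add_zero] at h5
  · exact h5
  · rintro ⟨-, h6⟩
    change Function.update b l z l = b l at h6
    rw [Function.update_self] at h6
    omega
  · rintro ⟨h6, -⟩
    change Function.update b j y j = b j at h6
    rw [Function.update_self] at h6
    omega

end

end Pool.Agent.Lib.Helper86.StableBuilding
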