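import Pool.Agent.Lib.Helper86.StableBuilding.Transport

/-!
# The homology of the stable building, and the action of `GL(M)` on it
-/

set_option autoImplicit false

namespace Pool.Agent.Lib.Helper86.StableBuilding

noncomputable section

universe u v w

section chains

variable {R : Type u} [CommRing R] {M : Type v} [AddCommGroup M] [Module R M]
  {k : ℕ} {p : Fin k → ℕ}

theorem extend_simplex {A : Type w} [AddCommGroup A] (f : FullLattice R M k → A)
    (s : FullLattice R M k) : extend f (simplex s) = f s := by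
  change Finsupp.liftAddHom (fun s => zmultiplesHom A (f s)) (Finsupp.single s 1) = f s
  rw [Finsupp.liftAddHom_apply_single]
  exact one_zsmul _

/-- Two additive maps out of the chains that agree on simplices are equal. -/
theorem chains_hom_ext {A : Type w} [AddCommGroup A] {f g : Chains R M k →+ A}
    (h : ∀ s : FullLattice R M k, f (simplex s) = g (simplex s)) : f = g :=
  Finsupp.addHom_ext' fun s => AddMonoidHom.ext_int (h s)

theorem toChain_pos {φ : Grid p →o Summand R M} (h : IsLattice φ ∧ IsFull φ) :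
    toChain φ = simplex ⟨p, φ, h.1, h.2⟩ := dif_pos h

theorem toChain_neg {φ : Grid p →o Summand R M} (h : ¬ (IsLattice φ ∧ IsFull φ)) :
    toChain φ = 0 := dif_neg h

theorem toChain_simplex (s : FullLattice R M k) : toChain s.φ = simplex s :=
  toChain_pos ⟨s.isLattice, s.isFull⟩

theorem toChain_congr {q : Fin k → ℕ} (h : p = q) (φ : Grid p →o Summand R M)
    (ψ : Grid q →o Summand R M)
    (hv : ∀ a (ha : a ≤ p) (hb : a ≤ q), φ ⟨a, ha⟩ = ψ ⟨a, hb⟩) : toChain φ = toChain ψ := by
  subst h
  congr 1
  apply OrderHom.ext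
  funext a
  exact hv a.1 a.2 a.2

theorem mapChains_single (g : M ≃ₗ[R] M) (s : FullLattice R M k) :
    mapChains g k (simplex s) = toChain ((Summand.map g).comp s.φ) :=
  extend_simplex _ _

theorem suspChains_single (s : FullLattice R M k) :
    suspChains R M k (simplex s) = toChain (suspend s.φ) :=
  extend_simplex _ _

theorem bdry_single (s : FullLattice R M k) :
    bdry R M k (simplex s) = bdrySimplex s :=
  extend_simplex _ _

theorem mapChains_toChain (g : M ≃ₗ[R] M) (φ : Grid p →o Summand R M) :
    mapChains g k (toChain φ) = toChain ((Summand.map g).comp φ) := by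
  by_cases h : IsLattice φ ∧ IsFull φ
  · rw [toChain_pos h, mapChains_single]
  · rw [toChain_neg h, map_zero, toChain_neg]
    rwa [isLattice_map_iff, isFull_map_iff]

theorem suspChains_toChain {φ : Grid p →o Summand R M} (hφ : IsLattice φ) :
    suspChains R M k (toChain φ) = toChain (suspend φ) := by
  by_cases h : IsFull φ
  · rw [toChain_pos ⟨hφ, h⟩, suspChains_single]
  · rw [toChain_neg (fun h' => h h'.2), map_zero, toChain_neg]
    intro h'
    exact h ((isFull_suspend_iff φ).1 h'.2)

theorem bdrySimplex_eq (p : Fin k → ℕ) (φ : Grid p →o Summand R M)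
    (h : IsLattice φ ∧ IsFull φ) :
    bdrySimplex (⟨p, φ, h.1, h.2⟩ : FullLattice R M k) =
      ∑ i : Fin k, if hi : 1 ≤ p i then
        (-1 : ℤ) ^ (∑ l ∈ Finset.univ.filter (· < i), p l) •
          ∑ j ∈ Finset.range (p i + 1), (-1 : ℤ) ^ j • toChain (φ.comp (coface p i hi j))
        else 0 := rfl

theorem bdry_mapChains (g : M ≃ₗ[R] M) (k : ℕ) :
    (bdry R M k).comp (mapChains g k) = (mapChains g k).comp (bdry R M k) := by
  apply chains_hom_ext
  rintro ⟨p, φ, h1, h2⟩
  have h : IsLattice φ ∧ IsFull φ := ⟨h1, h2⟩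
  have h' : IsLattice ((Summand.map g).comp φ) ∧ IsFull ((Summand.map g).comp φ) :=
    ⟨h.1.map g, h.2.map g⟩
  rw [AddMonoidHom.comp_apply, AddMonoidHom.comp_apply, mapChains_single, bdry_single,
    bdrySimplex_eq p φ h, toChain_pos h', bdry_single, bdrySimplex_eq _ _ h', map_sum]
  apply Finset.sum_congr rfl
  intro i _
  by_cases hi : 1 ≤ p i
  · rw [dif_pos hi, dif_pos hi, map_zsmul, map_sum]
    congr 1
    apply Finset.sum_congr rfl
    intro j _
    rw [map_zsmul, mapChains_toChain]
    rfl
  · rw [dif_neg hi, dif_neg hi, map_zero]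

theorem suspend_comp_coface_succ (φ : Grid p →o Summand R M) (i : Fin k) (hi : 1 ≤ p i)
    (hi' : 1 ≤ (Fin.cons 1 p : Fin (k + 1) → ℕ) i.succ) (j : ℕ) :
    toChain ((suspend φ).comp (coface (Fin.cons 1 p) i.succ hi' j)) =
      toChain (suspend (φ.comp (coface p i hi j))) := by
  apply toChain_congr
  · funext l
    refine Fin.cases ?_ (fun l => ?_) l
    · rw [Function.update_of_ne (Fin.succ_ne_zero i).symm]
      rfl
    · by_cases hl : l = i
      · subst hl
        rw [Function.update_self, Fin.cons_succ, Fin.cons_succ, Function.update_self]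
      · rw [Function.update_of_ne (by simpa using hl), Fin.cons_succ, Fin.cons_succ,
          Function.update_of_ne hl]
  · intro a ha hb
    apply Summand.ext
    change (suspend φ (coface (Fin.cons 1 p) i.succ hi' j ⟨a, ha⟩)).1 = _
    have h0 : (coface (Fin.cons 1 p) i.succ hi' j ⟨a, ha⟩).1 0 = a 0 :=
      coface_val_ne _ _ _ _ (Fin.succ_ne_zero i).symm
    by_cases ha0 : a 0 = 0
    · rw [suspend_zero _ _ (h0.trans ha0), suspend_zero _ _ ha0]
    · rw [suspend_one _ _ (by rw [h0]; exact ha0), suspend_one _ _ ha0]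
      change (φ _).1 = (φ _).1
      congr 2
      apply Grid.ext
      funext l
      change (coface (Fin.cons 1 p) i.succ hi' j ⟨a, ha⟩).1 l.succ =
        (coface p i hi j (tailGrid ⟨a, hb⟩)).1 l
      by_cases hl : l = i
      · subst hl
        rw [coface_val_self, coface_val_self]
        rfl
      · rw [coface_val_ne _ _ _ _ hl, coface_val_ne _ _ _ _ (by simpa using hl)]
        rfl

theorem toChain_suspend_coface_zero (φ : Grid p →o Summand R M)
    (hi' : 1 ≤ (Fin.cons 1 p : Fin (k + 1) → ℕ) 0) :
    toChain ((suspend φ).comp (coface (Fin.cons 1 p) 0 hi' 0)) =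
      toChain ((suspend φ).comp (coface (Fin.cons 1 p) 0 hi' 1)) := by
  by_cases hM : Subsingleton M
  · have : Subsingleton (Summand R M) := by
      constructor
      intro P Q
      apply Summand.ext
      ext x
      have : x = 0 := Subsingleton.elim _ _
      rw [this]
      simp
    congr 1
    apply OrderHom.ext
    funext a
    exact Subsingleton.elim _ _
  · have hne : (⊥ : Submodule R M) ≠ ⊤ := by
      intro h
      apply hM
      constructor
      intro x y
      have h1 : ∀ z : M, z = 0 := fun z => by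
        have : z ∈ (⊥ : Submodule R M) := by rw [h]; trivial
        exact (Submodule.mem_bot R).1 this
      rw [h1 x, h1 y]
    rw [toChain_neg, toChain_neg]
    · rintro ⟨-, h1, h2⟩
      apply hne
      rw [← h2, eq_comm]
      apply h1
      refine ⟨0, ?_⟩
      change Function.update (Fin.cons 1 p : Fin (k + 1) → ℕ) 0
        ((Fin.cons 1 p : Fin (k + 1) → ℕ) 0 - 1) 0 = 0
      rw [Function.update_self]
      rfl
    · rintro ⟨-, h1, h2⟩
      apply hne
      rw [← h2, eq_comm]
      apply h1
      refine ⟨0, ?_⟩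
      change Function.update (Fin.cons 1 p : Fin (k + 1) → ℕ) 0
        ((Fin.cons 1 p : Fin (k + 1) → ℕ) 0 - 1) 0 = 0
      rw [Function.update_self]
      rfl

theorem sum_filter_lt_succ (p : Fin k → ℕ) (i : Fin k) :
    ∑ l ∈ Finset.univ.filter (· < i.succ), (Fin.cons 1 p : Fin (k + 1) → ℕ) l =
      1 + ∑ l ∈ Finset.univ.filter (· < i), p l := by
  rw [Finset.sum_filter, Finset.sum_filter, Fin.sum_univ_succ, Fin.cons_zero,
    if_pos (Fin.succ_pos i)]
  congr 1
  apply Finset.sum_congr rfl
  intro l _
  rw [Fin.cons_succ]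
  simp only [Fin.succ_lt_succ_iff]

/-- The suspension anticommutes with the differentials. -/
theorem bdry_suspChains (k : ℕ) :
    (bdry R M (k + 1)).comp (suspChains R M k) = -(suspChains R M k).comp (bdry R M k) := by
  apply chains_hom_ext
  rintro ⟨p, φ, h1, h2⟩
  have h : IsLattice φ ∧ IsFull φ := ⟨h1, h2⟩
  have h' : IsLattice (suspend φ) ∧ IsFull (suspend φ) :=
    ⟨h.1.suspend, (isFull_suspend_iff φ).2 h.2⟩
  rw [AddMonoidHom.comp_apply, AddMonoidHom.neg_apply, AddMonoidHom.comp_apply,
    suspChains_single, bdry_single,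
    bdrySimplex_eq p φ h, toChain_pos h', bdry_single, bdrySimplex_eq _ _ h', map_sum,
    Fin.sum_univ_succ, ← Finset.sum_neg_distrib]
  have hzero : (if hi : 1 ≤ (Fin.cons 1 p : Fin (k + 1) → ℕ) 0 then
      (-1 : ℤ) ^ (∑ l ∈ Finset.univ.filter (· < (0 : Fin (k + 1))),
        (Fin.cons 1 p : Fin (k + 1) → ℕ) l) •
          ∑ j ∈ Finset.range ((Fin.cons 1 p : Fin (k + 1) → ℕ) 0 + 1),
            (-1 : ℤ) ^ j • toChain ((suspend φ).comp (coface (Fin.cons 1 p) 0 hi j))
        else 0) = (0 : Chains R M (k + 1)) := by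
    have hi : 1 ≤ (Fin.cons 1 p : Fin (k + 1) → ℕ) 0 := le_rfl
    rw [dif_pos hi]
    have : Finset.range ((Fin.cons 1 p : Fin (k + 1) → ℕ) 0 + 1) = {0, 1} := rfl
    rw [this, Finset.sum_pair (by norm_num), toChain_suspend_coface_zero φ hi]
    simp
  rw [hzero, zero_add]
  apply Finset.sum_congr rfl
  intro i _
  by_cases hi : 1 ≤ p i
  · have hi' : 1 ≤ (Fin.cons 1 p : Fin (k + 1) → ℕ) i.succ := hi
    rw [dif_pos hi, dif_pos hi', map_zsmul, map_sum, sum_filter_lt_succ, pow_add, pow_one,
      neg_one_mul, neg_smul]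
    congr 2
    have : Finset.range ((Fin.cons 1 p : Fin (k + 1) → ℕ) i.succ + 1) =
        Finset.range (p i + 1) := rfl
    rw [this]
    apply Finset.sum_congr rfl
    intro j _
    rw [map_zsmul, suspChains_toChain (h.1.comp_coface i hi j), suspend_comp_coface_succ]
  · have hi' : ¬ 1 ≤ (Fin.cons 1 p : Fin (k + 1) → ℕ) i.succ := hi
    rw [dif_neg hi, dif_neg hi', map_zero, neg_zero]

theorem simplex_mem_degreeChains {m : ℕ} (s : FullLattice R M k) (hm : ∑ i, s.p i = m) :
    simplex s ∈ DegreeChains R M k m :=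
  AddSubgroup.subset_closure ⟨s, hm, rfl⟩

theorem mem_degreeChains_toChain {m : ℕ} (φ : Grid p →o Summand R M) (hm : ∑ i, p i = m) :
    toChain φ ∈ DegreeChains R M k m := by
  by_cases h : IsLattice φ ∧ IsFull φ
  · rw [toChain_pos h]
    exact simplex_mem_degreeChains _ hm
  · rw [toChain_neg h]
    exact zero_mem _

/-- An additive map that sends the simplices of degree `m` into a subgroup sends the chains of
degree `m` into that subgroup. -/
theorem degreeChains_le_comap {A : Type w} [AddCommGroup A] (f : Chains R M k →+ A) {m : ℕ}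
    {S : AddSubgroup A} (h : ∀ s : FullLattice R M k, ∑ i, s.p i = m → f (simplex s) ∈ S)
    {x : Chains R M k} (hx : x ∈ DegreeChains R M k m) : f x ∈ S := by
  have : DegreeChains R M k m ≤ S.comap f := by
    rw [DegreeChains, AddSubgroup.closure_le]
    rintro _ ⟨s, hs, rfl⟩
    exact h s hs
  exact this hx

theorem mapChains_degree (g : M ≃ₗ[R] M) {m : ℕ} {x : Chains R M k}
    (hx : x ∈ DegreeChains R M k m) : mapChains g k x ∈ DegreeChains R M k m := by
  refine degreeChains_le_comap _ (fun s hs => ?_) hx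
  rw [mapChains_single]
  exact mem_degreeChains_toChain _ hs

theorem suspChains_degree {m : ℕ} {x : Chains R M k} (hx : x ∈ DegreeChains R M k m) :
    suspChains R M k x ∈ DegreeChains R M (k + 1) (m + 1) := by
  refine degreeChains_le_comap _ (fun s hs => ?_) hx
  rw [suspChains_single]
  apply mem_degreeChains_toChain
  rw [Fin.sum_univ_succ]
  simp only [Fin.cons_zero, Fin.cons_succ, hs]
  ring

theorem mapChains_cycles (g : M ≃ₗ[R] M) {m : ℕ} {x : Chains R M k}
    (hx : x ∈ Cycles R M k m) : mapChains g k x ∈ Cycles R M k m := by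
  refine ⟨mapChains_degree g hx.1, ?_⟩
  have h1 : bdry R M k x = 0 := hx.2
  have h2 := DFunLike.congr_fun (bdry_mapChains g k) x
  rw [AddMonoidHom.comp_apply, AddMonoidHom.comp_apply, h1, map_zero] at h2
  exact h2

theorem suspChains_cycles {m : ℕ} {x : Chains R M k} (hx : x ∈ Cycles R M k m) :
    suspChains R M k x ∈ Cycles R M (k + 1) (m + 1) := by
  refine ⟨suspChains_degree hx.1, ?_⟩
  have h1 : bdry R M k x = 0 := hx.2
  have h2 := DFunLike.congr_fun (bdry_suspChains (R := R) (M := M) k) x
  rw [AddMonoidHom.comp_apply, AddMonoidHom.neg_apply, AddMonoidHom.comp_apply, h1, map_zero,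
    neg_zero] at h2
  exact h2

theorem mapChains_boundaries (g : M ≃ₗ[R] M) {m : ℕ} {x : Chains R M k}
    (hx : x ∈ Boundaries R M k m) : mapChains g k x ∈ Boundaries R M k m := by
  obtain ⟨y, hy, rfl⟩ := hx
  refine ⟨mapChains g k y, mapChains_degree g hy, ?_⟩
  exact DFunLike.congr_fun (bdry_mapChains g k) y

theorem suspChains_boundaries {m : ℕ} {x : Chains R M k} (hx : x ∈ Boundaries R M k m) :
    suspChains R M k x ∈ Boundaries R M (k + 1) (m + 1) := by
  obtain ⟨y, hy, rfl⟩ := hx
  refine ⟨-suspChains R M k y, neg_mem (suspChains_degree hy), ?_⟩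
  have h2 := DFunLike.congr_fun (bdry_suspChains (R := R) (M := M) k) y
  rw [AddMonoidHom.comp_apply, AddMonoidHom.neg_apply, AddMonoidHom.comp_apply] at h2
  rw [map_neg, h2, neg_neg]

end chains

section homology

variable {R : Type u} [CommRing R] {M : Type v} [AddCommGroup M] [Module R M]

/-- The action of `g ∈ GL(M)` on homology. -/
def mapHomology (g : M ≃ₗ[R] M) (k m : ℕ) : Homology R M k m →+ Homology R M k m :=
  SubQuot.map (mapChains g k) (fun _ => mapChains_cycles g) (fun _ => mapChains_boundaries g)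

variable (R M)

/-- The structure map `H̃_m(D^k(M)) → H̃_{m+1}(S^1 ∧ D^k(M)) → H̃_{m+1}(D^{k+1}(M))`. -/
def suspHomology (k m : ℕ) : Homology R M k m →+ Homology R M (k + 1) (m + 1) :=
  SubQuot.map (suspChains R M k) (fun _ => suspChains_cycles) (fun _ => suspChains_boundaries)

/-- The composite structure map from the `a`-th to the `b`-th term of the sequence
`H̃_{i+1}(D^1(M)) → H̃_{i+2}(D^2(M)) → ⋯`. -/
def stabMap (i a b : ℕ) (h : a ≤ b) :
    Homology R M (a + 1) (i + (a + 1)) →+ Homology R M (b + 1) (i + (b + 1)) :=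
  Nat.leRecOn (C := fun b => Homology R M (a + 1) (i + (a + 1)) →+
    Homology R M (b + 1) (i + (b + 1))) h
    (fun {n} f => (suspHomology R M (n + 1) (i + (n + 1))).comp f) (AddMonoidHom.id _)

/-- `H_i(𝐃(M)) = colim_k H̃_{i+k}(D^k(M); ℤ)`, the colimit over `k ≥ 1`. -/
def StableHomology (i : ℕ) : Type v :=
  AddCommGroup.DirectLimit (fun a : ℕ => Homology R M (a + 1) (i + (a + 1)))
    (stabMap R M i)

/-- The group structure. -/
instance (i : ℕ) : AddCommGroup (StableHomology R M i) :=
  AddCommGroup.DirectLimit.addCommGroup (fun a : ℕ => Homology R M (a + 1) (i + (a + 1)))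
    (stabMap R M i)

variable {R M}

theorem map_suspend (g : M ≃ₗ[R] M) {k : ℕ} {p : Fin k → ℕ} (φ : Grid p →o Summand R M) :
    (Summand.map g).comp (suspend φ) = suspend ((Summand.map g).comp φ) := by
  apply OrderHom.ext
  funext a
  apply Summand.ext
  change (suspend φ a).1.map g.toLinearMap = _
  by_cases h : a.1 0 = 0
  · rw [suspend_zero _ _ h, suspend_zero _ _ h, Submodule.map_bot]
  · rw [suspend_one _ _ h, suspend_one _ _ h]
    rfl

theorem mapChains_suspChains (g : M ≃ₗ[R] M) (k : ℕ) :
    (mapChains g (k + 1)).comp (suspChains R M k) =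
      (suspChains R M k).comp (mapChains g k) := by
  apply chains_hom_ext
  rintro ⟨p, φ, h1, h2⟩
  rw [AddMonoidHom.comp_apply, AddMonoidHom.comp_apply, suspChains_single, mapChains_single,
    mapChains_toChain, suspChains_toChain (h1.map g), map_suspend]

theorem homology_hom_ext {k m : ℕ} {A : Type w} [AddCommGroup A]
    {f g : Homology R M k m →+ A}
    (h : ∀ x : Cycles R M k m, f (QuotientAddGroup.mk x) = g (QuotientAddGroup.mk x)) :
    f = g :=
  QuotientAddGroup.addMonoidHom_ext _ (AddMonoidHom.ext h)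

theorem mapHomology_suspHomology (g : M ≃ₗ[R] M) (k m : ℕ) :
    (mapHomology g (k + 1) (m + 1)).comp (suspHomology R M k m) =
      (suspHomology R M k m).comp (mapHomology g k m) := by
  apply homology_hom_ext
  intro x
  have h1 := DFunLike.congr_fun (mapChains_suspChains (R := R) g k) x.1
  change (QuotientAddGroup.mk (⟨mapChains g (k + 1) (suspChains R M k x.1), _⟩ :
      Cycles R M (k + 1) (m + 1)) : Homology R M (k + 1) (m + 1)) =
    QuotientAddGroup.mk ⟨suspChains R M k (mapChains g k x.1), _⟩
  congr 1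
  exact Subtype.ext h1

theorem stabMap_self (i a : ℕ) (h : a ≤ a) : stabMap R M i a a h = AddMonoidHom.id _ :=
  Nat.leRecOn_self _

theorem stabMap_succ (i : ℕ) {a b : ℕ} (h : a ≤ b) (h' : a ≤ b + 1) :
    stabMap R M i a (b + 1) h' =
      (suspHomology R M (b + 1) (i + (b + 1))).comp (stabMap R M i a b h) :=
  Nat.leRecOn_succ h _

theorem mapHomology_stabMap (g : M ≃ₗ[R] M) (i a b : ℕ) (h : a ≤ b) :
    (mapHomology g (b + 1) (i + (b + 1))).comp (stabMap R M i a b h) =
      (stabMap R M i a b h).comp (mapHomology g (a + 1) (i + (a + 1))) := by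
  induction b, h using Nat.le_induction with
  | base => rw [stabMap_self, AddMonoidHom.comp_id, AddMonoidHom.id_comp]
  | succ b hab ih =>
    rw [stabMap_succ i hab, AddMonoidHom.comp_assoc, ← ih,
      ← AddMonoidHom.comp_assoc, ← AddMonoidHom.comp_assoc]
    congr 1
    exact mapHomology_suspHomology g (b + 1) (i + (b + 1))

/-- The action of `g ∈ GL(M)` on `H_i(𝐃(M))`. -/
def mapStable (g : M ≃ₗ[R] M) (i : ℕ) : StableHomology R M i →+ StableHomology R M i :=
  AddCommGroup.DirectLimit.map (fun a => mapHomology g (a + 1) (i + (a + 1)))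
    (mapHomology_stabMap g i)

variable (R M)

/-- The coinvariants `H_i(𝐃(M))_{GL(M)}`: the quotient by the subgroup generated by all
`g x - x`. -/
def StableCoinvariants (i : ℕ) : Type v := Coinvariants (fun g : M ≃ₗ[R] M => mapStable g i)

/-- The group structure. -/
instance StableCoinvariants.instAddCommGroup (i : ℕ) : AddCommGroup (StableCoinvariants R M i) :=
  Coinvariants.instAddCommGroup (fun g : M ≃ₗ[R] M => mapStable g i)

end homology

/-- The coinvariants `H_i(𝐃(R^n))_{GL_n(R)}`. -/
def GLCoinvariants (R : Type u) [CommRing R] (n i : ℕ) : Type u :=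
  StableCoinvariants R (Fin n → R) i

/-- The group structure. -/
instance (R : Type u) [CommRing R] (n i : ℕ) : AddCommGroup (GLCoinvariants R n i) :=
  StableCoinvariants.instAddCommGroup R (Fin n → R) i

end

end Pool.Agent.Lib.Helper86.StableBuilding
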