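import Pool.Agent.Lib.Helper86.StableBuilding.RankTwo

/-!
# Steinberg symbols and the associated function of two vectors
-/

set_option autoImplicit false

namespace Pool.Agent.Lib.Helper86.StableBuilding

noncomputable section

universe u v w

/-- A Steinberg symbol on a field, with values in `ℝ`. -/
structure IsSymbol {L : Type v} [Field L] (s : L → L → ℝ) : Prop where
  zero_left : ∀ b, s 0 b = 0
  mul_left : ∀ a b c, a ≠ 0 → b ≠ 0 → s (a * b) c = s a c + s b c
  anti : ∀ a b, s b a = -s a b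
  stein : ∀ a b, a ≠ 0 → b ≠ 0 → a + b = 1 → s a b = 0

namespace IsSymbol

variable {L : Type v} [Field L] {s : L → L → ℝ} (hs : IsSymbol s)

include hs

theorem self (a : L) : s a a = 0 := by
  have := hs.anti a a
  linarith

theorem mul_right (a b c : L) (hb : b ≠ 0) (hc : c ≠ 0) : s a (b * c) = s a b + s a c := by
  rw [hs.anti (b * c) a, hs.mul_left b c a hb hc, hs.anti a b, hs.anti a c]
  ring

theorem one_left (b : L) : s 1 b = 0 := by
  have := hs.mul_left 1 1 b one_ne_zero one_ne_zero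
  rw [one_mul] at this
  linarith

theorem one_right (b : L) : s b 1 = 0 := by
  rw [hs.anti, hs.one_left, neg_zero]

theorem neg_one_left (b : L) : s (-1) b = 0 := by
  have := hs.mul_left (-1) (-1) b (neg_ne_zero.2 one_ne_zero) (neg_ne_zero.2 one_ne_zero)
  rw [neg_one_mul, neg_neg, hs.one_left] at this
  linarith

theorem neg_left (a b : L) : s (-a) b = s a b := by
  by_cases ha : a = 0
  · rw [ha, neg_zero]
  · rw [← neg_one_mul, hs.mul_left _ _ _ (neg_ne_zero.2 one_ne_zero) ha, hs.neg_one_left,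
      zero_add]

theorem neg_right (a b : L) : s a (-b) = s a b := by
  rw [hs.anti, hs.neg_left, hs.anti b a]

theorem inv_left (a b : L) : s a⁻¹ b = -s a b := by
  by_cases ha : a = 0
  · rw [ha, inv_zero, hs.zero_left, neg_zero]
  · have := hs.mul_left a a⁻¹ b ha (inv_ne_zero ha)
    rw [mul_inv_cancel₀ ha, hs.one_left] at this
    linarith

theorem inv_right (a b : L) : s a b⁻¹ = -s a b := by
  rw [hs.anti, hs.inv_left, hs.anti b a]

/-- The Steinberg relation for `x + y = z`. -/
theorem stein' {x y z : L} (hx : x ≠ 0) (hy : y ≠ 0) (hz : z ≠ 0) (h : x + y = z) :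
    s x y - s x z - s z y = 0 := by
  have h1 : x * z⁻¹ + y * z⁻¹ = 1 := by
    rw [← add_mul, h, mul_inv_cancel₀ hz]
  have h2 := hs.stein _ _ (mul_ne_zero hx (inv_ne_zero hz)) (mul_ne_zero hy (inv_ne_zero hz)) h1
  rw [hs.mul_left _ _ _ hx (inv_ne_zero hz), hs.mul_right _ _ _ hy (inv_ne_zero hz),
    hs.mul_right _ _ _ hy (inv_ne_zero hz), hs.inv_left, hs.inv_right, hs.inv_left,
    hs.inv_right, hs.self] at h2
  linarith

end IsSymbol

/-- The basic expression. -/
def mm {L : Type v} (s : L → L → ℝ) (a b c : L) : ℝ := s a b - s a c + s b c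

namespace IsSymbol

variable {L : Type v} [Field L] {s : L → L → ℝ} (hs : IsSymbol s)

include hs

theorem mm_swap (a b c : L) : mm s b a (-c) = -mm s a b c := by
  unfold mm
  rw [hs.neg_right, hs.neg_right, hs.anti a b]
  ring

theorem mm_scale {u a b c : L} (hu : u ≠ 0) (ha : a ≠ 0) (hc : c ≠ 0) :
    mm s (u * a) b (u * c) = mm s a b c + s u a - s u c := by
  unfold mm
  rw [hs.mul_left u a b hu ha, hs.mul_left u a (u * c) hu ha, hs.mul_right u u c hu hc,
    hs.mul_right a u c hu hc, hs.mul_right b u c hu hc, hs.self, hs.anti u a, hs.anti u b]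
  ring

theorem mm_det {d a b c : L} (hd : d ≠ 0) (hc : c ≠ 0) :
    mm s a b (d * c) = mm s a b c - s a d + s b d := by
  unfold mm
  rw [hs.mul_right a d c hd hc, hs.mul_right b d c hd hc]
  ring

/-- Change of the functional. -/
theorem mm_change {a b a' b' c D : L} (ha : a ≠ 0) (hb : b ≠ 0) (ha' : a' ≠ 0) (hb' : b' ≠ 0)
    (hc : c ≠ 0) (h : D * c = a' * b - b' * a) :
    mm s a' b' c - mm s a b c =
      (s D b' - s D b + s b' b) - (s D a' - s D a + s a' a) := by
  by_cases hD : D = 0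
  · rw [hD, zero_mul] at h
    have h1 : a' * b = b' * a := by
      rw [eq_comm, sub_eq_zero] at h; exact h
    -- a' = ρ a, b' = ρ b
    obtain ⟨ρ, hρ⟩ : ∃ ρ, ρ = a' * a⁻¹ := ⟨_, rfl⟩
    have hρ0 : ρ ≠ 0 := by rw [hρ]; exact mul_ne_zero ha' (inv_ne_zero ha)
    have e1 : a' = ρ * a := by rw [hρ]; field_simp
    have e2 : b' = ρ * b := by
      have : b' * a = ρ * b * a := by rw [← h1, e1]; ring
      exact mul_right_cancel₀ ha this
    unfold mm
    rw [hD, hs.zero_left, hs.zero_left, hs.zero_left, hs.zero_left, e1, e2]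
    rw [hs.mul_left ρ a _ hρ0 ha, hs.mul_left ρ a _ hρ0 ha, hs.mul_left ρ b _ hρ0 hb,
      hs.mul_left ρ b _ hρ0 hb, hs.mul_left ρ a _ hρ0 ha, hs.mul_right _ ρ b hρ0 hb,
      hs.mul_right _ ρ b hρ0 hb, hs.self, hs.self, hs.self, hs.anti ρ a]
    ring
  · have h1 : D * c + b' * a = a' * b := by rw [h]; ring
    have h2 := hs.stein' (mul_ne_zero hD hc) (mul_ne_zero hb' ha) (mul_ne_zero ha' hb) h1
    rw [hs.mul_left D c _ hD hc, hs.mul_left D c _ hD hc, hs.mul_left a' b _ ha' hb,
      hs.mul_right _ b' a hb' ha, hs.mul_right _ b' a hb' ha, hs.mul_right _ a' b ha' hb,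
      hs.mul_right _ a' b ha' hb, hs.mul_right _ b' a hb' ha, hs.mul_right _ b' a hb' ha] at h2
    unfold mm
    linarith [hs.anti b' c, hs.anti a c, hs.anti a' c, hs.anti b c, hs.anti b' b, hs.anti a b]

end IsSymbol

end

end Pool.Agent.Lib.Helper86.StableBuilding
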