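import Pool.Agent.Lib.Helper86.StableBuilding.Colim

/-!
# Faces, suspensions and linear images of lattices are lattices
-/

set_option autoImplicit false

namespace Pool.Agent.Lib.Helper86.StableBuilding

noncomputable section

universe u v w w' v'

section generic

variable {R : Type u} [CommRing R] {M : Type v} [AddCommGroup M] [Module R M]
  {J : Type w} [Preorder J]
  {J' : Type w'} [Preorder J']

theorem good_of_bot (N : J → Submodule R M) (hN : Monotone N) (h : ∀ c, N c = ⊥) :
    Good N hN := by
  refine ⟨?_, ⊤, ?_⟩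
  · have h0 : (LinearMap.id : Colim N hN →ₗ[R] Colim N hN) = 0 := by
      apply gcolim_ext
      intro c x
      rw [eq_zero_of_eq_bot (h c) x, map_zero, map_zero, map_zero]
    intro x y _
    have hx := LinearMap.congr_fun h0 x
    have hy := LinearMap.congr_fun h0 y
    rw [LinearMap.id_apply, LinearMap.zero_apply] at hx hy
    rw [hx, hy]
  · have : (⨆ c, N c) = ⊥ := by
      rw [eq_bot_iff]
      exact iSup_le fun c => (h c).le
    rw [this]
    exact isCompl_bot_top

theorem Good.of_surj {N : J → Submodule R M} {hN : Monotone N} (h : Good N hN)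
    {N' : J' → Submodule R M} (hN' : Monotone N') (f : J' → J)
    (hf : ∀ c d, f c ≤ f d ↔ c ≤ d) (hinj : Function.Injective f)
    (hsurj : Function.Surjective f) (hT : ∀ c, N' c = N (f c)) : Good N' hN' := by
  refine h.transport hN' (LinearEquiv.refl R M)
    (Equiv.ofBijective f ⟨hinj, hsurj⟩).symm ?_ (Equiv.injective _) ?_ ?_
  · intro c d
    rw [← hf]
    have h1 : ∀ x, f ((Equiv.ofBijective f ⟨hinj, hsurj⟩).symm x) = x := fun x =>
      (Equiv.ofBijective f ⟨hinj, hsurj⟩).apply_symm_apply x
    rw [h1, h1]
  · intro c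
    have h1 : ∀ x, f ((Equiv.ofBijective f ⟨hinj, hsurj⟩).symm x) = x := fun x =>
      (Equiv.ofBijective f ⟨hinj, hsurj⟩).apply_symm_apply x
    rw [hT, h1]
    exact (Submodule.map_id _).symm
  · intro c hc
    exact absurd ((Equiv.ofBijective f ⟨hinj, hsurj⟩).symm.surjective c) hc

end generic

section lattice

variable {R : Type u} [CommRing R] {M : Type v} [AddCommGroup M] [Module R M]
  {k : ℕ} {p : Fin k → ℕ}

theorem coface_val (i : Fin k) (hi : 1 ≤ p i) (j : ℕ)
    (a : Grid (Function.update p i (p i - 1))) :
    (coface p i hi j a).1 = Function.update a.1 i (if a.1 i < j then a.1 i else a.1 i + 1) := rfl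

theorem coface_val_self (i : Fin k) (hi : 1 ≤ p i) (j : ℕ)
    (a : Grid (Function.update p i (p i - 1))) :
    (coface p i hi j a).1 i = if a.1 i < j then a.1 i else a.1 i + 1 := by
  rw [coface_val, Function.update_self]

theorem coface_val_ne (i : Fin k) (hi : 1 ≤ p i) (j : ℕ)
    (a : Grid (Function.update p i (p i - 1))) {l : Fin k} (hl : l ≠ i) :
    (coface p i hi j a).1 l = a.1 l := by
  rw [coface_val, Function.update_of_ne hl]

theorem skip_le_iff (j x y : ℕ) :
    (if x < j then x else x + 1) ≤ (if y < j then y else y + 1) ↔ x ≤ y := by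
  split_ifs <;> omega

theorem skip_inj {j x y : ℕ}
    (h : (if x < j then x else x + 1) = (if y < j then y else y + 1)) : x = y := by
  split_ifs at h <;> omega

theorem coface_le_iff (i : Fin k) (hi : 1 ≤ p i) (j : ℕ)
    (a b : Grid (Function.update p i (p i - 1))) :
    coface p i hi j a ≤ coface p i hi j b ↔ a ≤ b := by
  constructor
  · intro h l
    have h1 : (coface p i hi j a).1 l ≤ (coface p i hi j b).1 l := h l
    by_cases hl : l = i
    · subst hl
      rw [coface_val_self, coface_val_self, skip_le_iff] at h1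
      exact h1
    · rw [coface_val_ne i hi j a hl, coface_val_ne i hi j b hl] at h1
      exact h1
  · intro h
    exact (coface p i hi j).monotone h

theorem coface_injective (i : Fin k) (hi : 1 ≤ p i) (j : ℕ) :
    Function.Injective (coface p i hi j) := by
  intro a b h
  exact le_antisymm ((coface_le_iff i hi j a b).1 h.le) ((coface_le_iff i hi j b a).1 h.ge)

/-- Faces of lattices are lattices. -/
theorem IsLattice.comp_coface {φ : Grid p →o Summand R M} (h : IsLattice φ) (i : Fin k)
    (hi : 1 ≤ p i) (j : ℕ) : IsLattice (φ.comp (coface p i hi j)) := by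
  rw [isLattice_iff] at h ⊢
  intro a b hab
  have h1 := h (coface p i hi j a) (coface p i hi j b) ((coface p i hi j).monotone hab)
  refine h1.of_surj _ (fun c => ⟨coface p i hi j c.1, ?_, ?_⟩) ?_ ?_ ?_ ?_
  · intro l
    by_cases hl : l = i
    · subst hl
      rw [coface_val_self, coface_val_self, coface_val_self]
      rcases c.vertex l with h2 | h2
      · left; rw [h2]
      · right; rw [h2]
    · rw [coface_val_ne i hi j _ hl, coface_val_ne i hi j _ hl, coface_val_ne i hi j _ hl]
      exact c.vertex l
  · intro h2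
    exact c.ne (coface_injective i hi j h2)
  · intro c d
    exact coface_le_iff i hi j c.1 d.1
  · intro c d hcd
    exact PuncturedCube.ext (coface_injective i hi j (PuncturedCube.ext_iff.1 hcd))
  · intro c
    -- the preimage
    have hc := c.vertex
    let c' : Grid (Function.update p i (p i - 1)) :=
      ⟨fun l => if c.1.1 l = (coface p i hi j a).1 l then a.1 l else b.1 l, by
        intro l
        change (if c.1.1 l = (coface p i hi j a).1 l then a.1 l else b.1 l) ≤ _
        split_ifs
        · exact a.2 l
        · exact b.2 l⟩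
    have hc' : ∀ l, c'.1 l = if c.1.1 l = (coface p i hi j a).1 l then a.1 l else b.1 l :=
      fun _ => rfl
    have hδ : coface p i hi j c' = c.1 := by
      apply Grid.ext
      funext l
      by_cases hl : l = i
      · subst hl
        rw [coface_val_self, hc']
        by_cases h3 : c.1.1 l = (coface p l hi j a).1 l
        · rw [if_pos h3, h3, coface_val_self]
        · rw [if_neg h3]
          have h4 := (hc l).resolve_left h3
          rw [h4, coface_val_self]
      · rw [coface_val_ne i hi j _ hl, hc']
        by_cases h3 : c.1.1 l = (coface p i hi j a).1 l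
        · rw [if_pos h3, h3, coface_val_ne i hi j _ hl]
        · rw [if_neg h3]
          have h4 := (hc l).resolve_left h3
          rw [h4, coface_val_ne i hi j _ hl]
    refine ⟨⟨c', ?_, ?_⟩, ?_⟩
    · intro l
      rw [hc']
      split_ifs
      · left; rfl
      · right; rfl
    · intro h5
      apply c.ne
      rw [← hδ, h5]
    · exact PuncturedCube.ext hδ
  · intro c
    rfl

theorem IsLattice.map {φ : Grid p →o Summand R M} (h : IsLattice φ) (g : M ≃ₗ[R] M) :
    IsLattice ((Summand.map g).comp φ) := by
  rw [isLattice_iff] at h ⊢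
  intro a b hab
  refine (h a b hab).transport _ g id (fun _ _ => Iff.rfl) Function.injective_id ?_ ?_
  · intro c; rfl
  · intro c hc
    exact absurd ⟨c, rfl⟩ hc

theorem IsFull.map {φ : Grid p →o Summand R M} (h : IsFull φ) (g : M ≃ₗ[R] M) :
    IsFull ((Summand.map g).comp φ) := by
  refine ⟨?_, ?_⟩
  · intro a ha
    change (φ a).1.map g.toLinearMap = ⊥
    rw [h.1 a ha, Submodule.map_bot]
  · change (φ ⟨p, le_rfl⟩).1.map g.toLinearMap = ⊤
    rw [h.2, Submodule.map_top, LinearEquiv.range]

theorem map_symm_comp_map (φ : Grid p →o Summand R M) (g : M ≃ₗ[R] M) :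
    (Summand.map g.symm).comp ((Summand.map g).comp φ) = φ := by
  apply OrderHom.ext
  funext a
  apply Summand.ext
  change ((φ a).1.map g.toLinearMap).map g.symm.toLinearMap = (φ a).1
  rw [← Submodule.map_comp]
  have : g.symm.toLinearMap ∘ₗ g.toLinearMap = LinearMap.id := by
    ext x; simp
  rw [this, Submodule.map_id]

theorem isLattice_map_iff (φ : Grid p →o Summand R M) (g : M ≃ₗ[R] M) :
    IsLattice ((Summand.map g).comp φ) ↔ IsLattice φ := by
  refine ⟨fun h => ?_, fun h => h.map g⟩
  have := h.map g.symm
  rwa [map_symm_comp_map] at this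

theorem isFull_map_iff (φ : Grid p →o Summand R M) (g : M ≃ₗ[R] M) :
    IsFull ((Summand.map g).comp φ) ↔ IsFull φ := by
  refine ⟨fun h => ?_, fun h => h.map g⟩
  have := h.map g.symm
  rwa [map_symm_comp_map] at this

theorem suspend_zero (φ : Grid p →o Summand R M)
    (a : Grid (Fin.cons 1 p : Fin (k + 1) → ℕ)) (h : a.1 0 = 0) : (suspend φ a).1 = ⊥ := by
  change (if a.1 0 = 0 then (⟨⊥, ⊤, isCompl_bot_top⟩ : Summand R M) else φ (tailGrid a)).1 = ⊥
  rw [if_pos h]

theorem suspend_one (φ : Grid p →o Summand R M)
    (a : Grid (Fin.cons 1 p : Fin (k + 1) → ℕ)) (h : a.1 0 ≠ 0) :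
    suspend φ a = φ (tailGrid a) := by
  change (if a.1 0 = 0 then (⟨⊥, ⊤, isCompl_bot_top⟩ : Summand R M) else φ (tailGrid a)) = _
  rw [if_neg h]

/-- The inclusion of `{1} × [p_1] × ⋯ × [p_k]`. -/
def oneCons (a : Grid p) : Grid (Fin.cons 1 p : Fin (k + 1) → ℕ) :=
  ⟨Fin.cons 1 a.1, by
    intro i
    refine Fin.cases ?_ (fun i => ?_) i
    · simp
    · simpa using a.2 i⟩

@[simp] theorem oneCons_zero (a : Grid p) : (oneCons a).1 0 = 1 := rfl

@[simp] theorem oneCons_succ (a : Grid p) (i : Fin k) : (oneCons a).1 i.succ = a.1 i := rfl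

@[simp] theorem tailGrid_oneCons (a : Grid p) : tailGrid (oneCons a) = a := rfl

theorem grid_cons_zero_le (a : Grid (Fin.cons 1 p : Fin (k + 1) → ℕ)) : a.1 0 ≤ 1 := a.2 0

theorem eq_oneCons (a : Grid (Fin.cons 1 p : Fin (k + 1) → ℕ)) (h : a.1 0 ≠ 0) :
    a = oneCons (tailGrid a) := by
  have h0 := grid_cons_zero_le a
  apply Grid.ext
  funext i
  refine Fin.cases ?_ (fun i => rfl) i
  rw [oneCons_zero]
  omega

theorem oneCons_le_iff (a b : Grid p) : oneCons a ≤ oneCons b ↔ a ≤ b := by
  constructor
  · intro h i
    exact h i.succ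
  · intro h i
    refine Fin.cases ?_ (fun i => ?_) i
    · exact le_rfl
    · exact h i

theorem oneCons_injective : Function.Injective (oneCons (p := p)) := by
  intro a b h
  rw [← tailGrid_oneCons a, h, tailGrid_oneCons]

/-- Suspensions of lattices are lattices. -/
theorem IsLattice.suspend {φ : Grid p →o Summand R M} (h : IsLattice φ) :
    IsLattice (suspend φ) := by
  rw [isLattice_iff] at h ⊢
  intro a b hab
  by_cases hb : b.1 0 = 0
  · apply good_of_bot
    intro c
    apply suspend_zero
    have h1 := PuncturedCube.le hab c 0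
    have h2 : c.1.1 0 ≤ b.1 0 := h1
    omega
  · have hb1 : b.1 0 = 1 := by
      have := grid_cons_zero_le b
      omega
    have htab : tailGrid a ≤ tailGrid b := fun i => hab i.succ
    refine (h (tailGrid a) (tailGrid b) htab).transport _ (LinearEquiv.refl R M)
      (fun c => ⟨oneCons c.1, ?_, ?_⟩) ?_ ?_ ?_ ?_
    · intro i
      refine Fin.cases ?_ (fun i => ?_) i
      · right
        rw [oneCons_zero, hb1]
      · exact c.vertex i
    · intro h1
      apply c.ne
      rw [← tailGrid_oneCons c.1, h1]
    · intro c d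
      exact oneCons_le_iff c.1 d.1
    · intro c d hcd
      exact PuncturedCube.ext (oneCons_injective (PuncturedCube.ext_iff.1 hcd))
    · intro c
      change (StableBuilding.suspend φ (oneCons c.1)).1 = (φ c.1).1.map LinearMap.id
      rw [suspend_one _ _ (by simp), tailGrid_oneCons, Submodule.map_id]
    · intro c' hc'
      apply suspend_zero
      by_contra h0
      apply hc'
      refine ⟨⟨tailGrid c'.1, ?_, ?_⟩, ?_⟩
      · intro i
        exact c'.vertex i.succ
      · intro h1
        exact c'.ne ((eq_oneCons c'.1 h0).trans ((congrArg oneCons h1).trans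
          (eq_oneCons b hb).symm))
      · exact PuncturedCube.ext (eq_oneCons c'.1 h0).symm

theorem isFull_suspend_iff (φ : Grid p →o Summand R M) : IsFull (suspend φ) ↔ IsFull φ := by
  constructor
  · intro h
    refine ⟨?_, ?_⟩
    · rintro a ⟨i, hi⟩
      have := h.1 (oneCons a) ⟨i.succ, by simpa using hi⟩
      rwa [suspend_one _ _ (by simp), tailGrid_oneCons] at this
    · have := h.2
      rwa [suspend_one _ _ (by simp)] at this
  · intro h
    refine ⟨?_, ?_⟩
    · rintro a ⟨i, hi⟩
      by_cases h0 : a.1 0 = 0
      · exact suspend_zero _ _ h0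
      · rw [suspend_one _ _ h0]
        apply h.1
        revert hi
        refine Fin.cases ?_ (fun i => ?_) i
        · intro hi; exact absurd hi h0
        · intro hi; exact ⟨i, hi⟩
    · rw [suspend_one _ _ (by simp)]
      exact h.2

end lattice

end

end Pool.Agent.Lib.Helper86.StableBuilding
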